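import Pool.Agent.Helper94.Sand.Params

namespace Pool.Agent.Helper94.Sand

/-- Bad blocks. `A` is the configuration, `a0` the threshold for low sites, `κ` the allowed number
of low neighbours. -/
def Bad (d a0 κ : ℕ) : ℕ → (Site d → ℕ) → Site d → Prop
  | 0, A, v => κ < nbr (fun w => A w < a0) v
  | k + 1, A, x =>
    ¬ ((∀ y, coarse (nn d k) y = x →
        ({w | Bad d a0 κ k A w} ∩
          Set.Icc (fun i => y i - (rho d k : ℤ)) (fun i => y i + (rho d k : ℤ))).ncard ≤ bb d k) ∧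
      (∀ y, coarse (nn d k) y = x → ∀ i, ∃ y', coarse (nn d k) y' = x ∧
        (∀ j, j ≠ i → y' j = y j) ∧
        (∀ v, coarse (NN d k) v = y' → 8 * d ≤ A v) ∧
        ∀ w ∈ Set.Icc (fun i => y' i - (rho d k : ℤ)) (fun i => y' i + (rho d k : ℤ)),
          ¬ Bad d a0 κ k A w))

end Pool.Agent.Helper94.Sand
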