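import Pool.Agent.Helper94.Sand.Lemmas

open MeasureTheory ProbabilityTheory

namespace Pool.Agent.Helper94.Sand

variable {d : ℕ}

/-- The event `B` depends only on the coordinates in `D`. -/
def DepOn (D : Set (Site d)) (B : Set (Site d → ℕ)) : Prop :=
  ∀ A A' : Site d → ℕ, (∀ v ∈ D, A v = A' v) → (A ∈ B ↔ A' ∈ B)

theorem DepOn.mono {D D' : Set (Site d)} {B : Set (Site d → ℕ)} (h : DepOn D B) (hD : D ⊆ D') :
    DepOn D' B := fun A A' hA => h A A' (fun v hv => hA v (hD hv))

theorem DepOn.compl {D : Set (Site d)} {B : Set (Site d → ℕ)} (h : DepOn D B) :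
    DepOn D Bᶜ := fun A A' hA => not_congr (h A A' hA)

theorem DepOn.inter {D : Set (Site d)} {B B' : Set (Site d → ℕ)} (h : DepOn D B)
    (h' : DepOn D B') : DepOn D (B ∩ B') :=
  fun A A' hA => and_congr (h A A' hA) (h' A A' hA)

theorem DepOn.biInter {ι : Type*} {D : Set (Site d)} (s : Set ι) {B : ι → Set (Site d → ℕ)}
    (h : ∀ i ∈ s, DepOn D (B i)) : DepOn D (⋂ i ∈ s, B i) := by
  intro A A' hA
  simp only [Set.mem_iInter]
  exact forall_congr' (fun i => forall_congr' (fun hi => h i hi A A' hA))

theorem DepOn.measurableSet {D : Set (Site d)} {B : Set (Site d → ℕ)} (h : DepOn D B)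
    (hD : D.Finite) : MeasurableSet B := by
  classical
  have : B = (fun (A : Site d → ℕ) (v : hD.toFinset) => A v) ⁻¹'
      ((fun (A : Site d → ℕ) (v : hD.toFinset) => A v) '' B) := by
    apply Set.Subset.antisymm
    · exact Set.subset_preimage_image _ _
    · rintro A ⟨A', hA', hAA⟩
      apply (h A' A _).mp hA'
      intro v hv
      exact congrFun hAA ⟨v, hD.mem_toFinset.mpr hv⟩
  rw [this]
  apply measurableSet_preimage
  · fun_prop
  · exact MeasurableSet.of_discrete

/-- The i.i.d. product measure. -/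
noncomputable def muP (d : ℕ) (ν : Measure ℕ) : Measure (Site d → ℕ) :=
  Measure.infinitePi (fun _ : Site d => ν)

variable (ν : Measure ℕ) [IsProbabilityMeasure ν]

instance : IsProbabilityMeasure (muP d ν) := by
  unfold muP
  infer_instance

theorem indep_two {D D' : Set (Site d)} {B B' : Set (Site d → ℕ)} (hD : D.Finite) (hD' : D'.Finite)
    (hdis : Disjoint D D') (hB : DepOn D B) (hB' : DepOn D' B') :
    (muP d ν).real (B ∩ B') = (muP d ν).real B * (muP d ν).real B' := by
  classical
  have key : ∀ (C : Set (Site d)) (hC : C.Finite) (B : Set (Site d → ℕ)), DepOn C B →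
      B = (fun (A : Site d → ℕ) (v : hC.toFinset) => A v) ⁻¹'
      ((fun (A : Site d → ℕ) (v : hC.toFinset) => A v) '' B) := by
    intro C hC B h
    apply Set.Subset.antisymm
    · exact Set.subset_preimage_image _ _
    · rintro A ⟨A', hA', hAA⟩
      apply (h A' A _).mp hA'
      intro v hv
      exact congrFun hAA ⟨v, hC.mem_toFinset.mpr hv⟩
  have hI : iIndepFun (fun (v : Site d) (A : Site d → ℕ) => A v) (muP d ν) :=
    iIndepFun_infinitePi (X := fun _ ω => ω) (by fun_prop)
  have hI2 := hI.indepFun_finset hD.toFinset hD'.toFinset (by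
    rw [Finset.disjoint_left]
    intro v hv hv'
    rw [Set.Finite.mem_toFinset] at hv hv'
    exact Set.disjoint_left.mp hdis hv hv') (by fun_prop)
  have h3 := hI2.measure_inter_preimage_eq_mul
    ((fun (A : Site d → ℕ) (v : hD.toFinset) => A v) '' B)
    ((fun (A : Site d → ℕ) (v : hD'.toFinset) => A v) '' B')
    MeasurableSet.of_discrete MeasurableSet.of_discrete
  rw [← key D hD B hB, ← key D' hD' B' hB'] at h3
  unfold Measure.real
  rw [h3, ENNReal.toReal_mul]

theorem indep_finset {ι : Type*} (J : Finset ι) (D : ι → Set (Site d))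
    (B : ι → Set (Site d → ℕ)) (hD : ∀ j ∈ J, (D j).Finite)
    (hdis : ∀ i ∈ J, ∀ j ∈ J, i ≠ j → Disjoint (D i) (D j)) (hB : ∀ j ∈ J, DepOn (D j) (B j)) :
    (muP d ν).real (⋂ j ∈ J, B j) = ∏ j ∈ J, (muP d ν).real (B j) := by
  classical
  induction J using Finset.induction_on with
  | empty => simp
  | insert a J ha ih =>
    rw [Finset.prod_insert ha, Finset.set_biInter_insert]
    rw [indep_two ν (D := D a) (D' := ⋃ j ∈ J, D j) (hD a (Finset.mem_insert_self a J))]
    · rw [ih (fun j hj => hD j (Finset.mem_insert_of_mem hj))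
        (fun i hi j hj => hdis i (Finset.mem_insert_of_mem hi) j (Finset.mem_insert_of_mem hj))
        (fun j hj => hB j (Finset.mem_insert_of_mem hj))]
    · apply Set.Finite.biUnion J.finite_toSet
      intro j hj
      exact hD j (Finset.mem_insert_of_mem hj)
    · rw [Set.disjoint_iUnion₂_right]
      intro j hj
      apply hdis a (Finset.mem_insert_self a J) j (Finset.mem_insert_of_mem hj)
      rintro rfl
      exact ha hj
    · exact hB a (Finset.mem_insert_self a J)
    · apply DepOn.biInter (s := (J : Set ι))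
      intro j hj
      apply (hB j (Finset.mem_insert_of_mem hj)).mono
      exact Set.subset_biUnion_of_mem (u := fun j => D j) hj

theorem real_eval (v : Site d) (s : Set ℕ) :
    (muP d ν).real {A | A v ∈ s} = ν.real s := by
  have h1 : (muP d ν).map (fun A : Site d → ℕ => A v) = ν := by
    unfold muP
    exact Measure.infinitePi_map_eval (fun _ : Site d => ν) v
  have h2 : ν.real s = ((muP d ν).map (fun A : Site d → ℕ => A v)).real s := by rw [h1]
  rw [h2, map_measureReal_apply (by fun_prop) MeasurableSet.of_discrete]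
  rfl

theorem depOn_eval (v : Site d) (s : Set ℕ) : DepOn {v} {A : Site d → ℕ | A v ∈ s} := by
  intro A A' h
  have := h v rfl
  show A v ∈ s ↔ A' v ∈ s
  rw [this]

end Pool.Agent.Helper94.Sand
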