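import Pool.Agent.Helper94.Sand.Bad
import Pool.Agent.Helper94.Sand.Indep

namespace Pool.Agent.Helper94.Sand

variable {d a0 κ : ℕ}

theorem nbr_mono {P Q : Site d → Prop} (h : ∀ v, P v → Q v) (v : Site d) : nbr P v ≤ nbr Q v := by
  classical
  unfold nbr
  apply Finset.sum_le_sum
  intro i _
  apply add_le_add
  · by_cases h1 : P (v + ee i)
    · rw [if_pos h1, if_pos (h _ h1)]
    · rw [if_neg h1]; exact Nat.zero_le _
  · by_cases h1 : P (v - ee i)
    · rw [if_pos h1, if_pos (h _ h1)]
    · rw [if_neg h1]; exact Nat.zero_le _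

theorem nbr_congr {P Q : Site d → Prop} (v : Site d)
    (h : ∀ i, (P (v + ee i) ↔ Q (v + ee i)) ∧ (P (v - ee i) ↔ Q (v - ee i))) :
    nbr P v = nbr Q v := by
  classical
  unfold nbr
  apply Finset.sum_congr rfl
  intro i _
  obtain ⟨h1, h2⟩ := h i
  congr 1
  · by_cases h3 : P (v + ee i)
    · rw [if_pos h3, if_pos (h1.mp h3)]
    · rw [if_neg h3, if_neg (fun h4 => h3 (h1.mpr h4))]
  · by_cases h3 : P (v - ee i)
    · rw [if_pos h3, if_pos (h2.mp h3)]
    · rw [if_neg h3, if_neg (fun h4 => h3 (h2.mpr h4))]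

/-- The ball of radius `r` around `y`. -/
abbrev Ball (y : Site d) (r : ℕ) : Set (Site d) :=
  Set.Icc (fun i => y i - (r : ℤ)) (fun i => y i + (r : ℤ))

theorem mem_Ball {y w : Site d} {r : ℕ} : w ∈ Ball y r ↔ ∀ i, |w i - y i| ≤ r := by
  rw [mem_box]
  apply forall_congr'
  intro i
  rw [abs_le]
  constructor
  · intro h; omega
  · intro h; omega

theorem Ball_finite (y : Site d) (r : ℕ) : (Ball y r).Finite := Set.finite_Icc _ _

/-- Monotonicity: raising the (truncated) configuration removes bad blocks. -/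
theorem Bad_mono (ha0 : a0 ≤ 8 * d) (k : ℕ) : ∀ (A A' : Site d → ℕ),
    (∀ v, min (A v) (8 * d) ≤ A' v) → ∀ x, Bad d a0 κ k A' x → Bad d a0 κ k A x := by
  induction k with
  | zero =>
    intro A A' h x hx
    refine lt_of_lt_of_le hx (nbr_mono ?_ x)
    intro v hv
    have h1 := h v
    by_contra hcon
    have h2 : a0 ≤ min (A v) (8 * d) := le_min (not_lt.mp hcon) ha0
    omega
  | succ k ih =>
    intro A A' h x hx hgood
    apply hx
    obtain ⟨h1, h2⟩ := hgood
    constructor
    · intro y hy
      refine le_trans (Set.ncard_le_ncard ?_ ?_) (h1 y hy)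
      · apply Set.inter_subset_inter_left
        intro w hw
        exact ih A A' h w hw
      · exact Set.Finite.subset (Set.finite_Icc _ _) Set.inter_subset_right
    · intro y hy i
      obtain ⟨y', h3, h4, h5, h6⟩ := h2 y hy i
      refine ⟨y', h3, h4, ?_, ?_⟩
      · intro v hv
        have h7 := h5 v hv
        have h8 := h v
        rw [min_eq_right h7] at h8
        exact h8
      · intro w hw hbad
        exact h6 w hw (ih A A' h w hbad)

/-- Sites in blocks within distance `r` of the block `x` (blocks of side `N`). -/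
def Near (N r : ℕ) (x : Site d) : Set (Site d) := {v | ∀ i, |coarse N v i - x i| ≤ r}

theorem Near_finite (N r : ℕ) (hN : 1 ≤ N) (x : Site d) : (Near N r x).Finite := by
  apply Set.Finite.subset (Set.finite_Icc (fun i => (N : ℤ) * (x i - r))
    (fun i => (N : ℤ) * (x i + r) + N))
  intro v hv
  rw [mem_box]
  intro i
  have h1 := hv i
  have h2 := (coarse_eq_iff hN (y := v) (x := coarse N v)).mp rfl i
  rw [abs_le] at h1
  have hN0 : (0 : ℤ) < N := by exact_mod_cast hN
  constructor
  · calc (N : ℤ) * (x i - r) ≤ N * coarse N v i := by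
          apply mul_le_mul_of_nonneg_left _ (le_of_lt hN0)
          omega
      _ ≤ v i := h2.1
  · calc v i ≤ N * coarse N v i + N := le_of_lt h2.2
      _ ≤ (N : ℤ) * (x i + r) + N := by
          have : (N : ℤ) * coarse N v i ≤ N * (x i + r) := by
            apply mul_le_mul_of_nonneg_left _ (le_of_lt hN0)
            omega
          linarith

theorem NN_pos (d k : ℕ) : 1 ≤ NN d k := by
  induction k with
  | zero => exact le_rfl
  | succ k ih => exact Nat.mul_pos ih (Nat.two_pow_pos _)

theorem nn_pos (d k : ℕ) : 1 ≤ nn d k := Nat.one_le_two_pow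

theorem coarse_succ (k : ℕ) (v : Site d) :
    coarse (NN d (k + 1)) v = coarse (nn d k) (coarse (NN d k) v) := by
  rw [NN_succ, coarse_mul]

/-- If `c` is within distance `r + 1 ≤ n` of a child `y` of `x` then its parent is within
distance one of `x`. -/
theorem near_parent (n : ℕ) (hn : 1 ≤ n) (r : ℕ) (hr : r ≤ n) (y c x : ℤ)
    (hyc : |c - y| ≤ r) (hx : y / (n : ℤ) = x) : |c / (n : ℤ) - x| ≤ 1 := by
  subst hx
  have hn0 : (0 : ℤ) < n := by exact_mod_cast hn
  have key : ∀ x z : ℤ, x ≤ z + n → x / (n : ℤ) ≤ z / (n : ℤ) + 1 := by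
    intro x z hxz
    have h3 : x / (n : ℤ) ≤ (z + n) / (n : ℤ) := Int.ediv_le_ediv hn0 hxz
    rw [Int.add_ediv_of_dvd_right (dvd_refl _), Int.ediv_self (ne_of_gt hn0)] at h3
    exact h3
  rw [abs_le] at hyc ⊢
  have hr' : (r : ℤ) ≤ n := by exact_mod_cast hr
  have h1 := key c y (by omega)
  have h2 := key y c (by omega)
  omega

theorem Near_sub {k : ℕ} (hρ : rho d k + 1 ≤ nn d k) {x y w : Site d}
    (hy : coarse (nn d k) y = x) (hw : w ∈ Ball y (rho d k)) :
    Near (NN d k) 1 w ⊆ Near (NN d (k + 1)) 1 x := by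
  intro v hv i
  have h1 := hv i
  have h2 := (mem_Ball.mp hw) i
  rw [coarse_succ, coarse_apply]
  have h3 : |coarse (NN d k) v i - y i| ≤ ((rho d k + 1 : ℕ) : ℤ) := by
    rw [abs_le] at h1 h2 ⊢
    push_cast
    omega
  have h4 : y i / ((nn d k : ℕ) : ℤ) = x i := by rw [← hy]; rfl
  exact_mod_cast near_parent (nn d k) (nn_pos d k) (rho d k + 1) hρ (y i)
    (coarse (NN d k) v i) (x i) h3 h4

theorem Bad_dep (hρ : ∀ k, rho d k + 1 ≤ nn d k) (k : ℕ) : ∀ x : Site d,
    DepOn (Near (NN d k) 1 x) {A | Bad d a0 κ k A x} := by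
  induction k with
  | zero =>
    intro x
    have key : ∀ A A' : Site d → ℕ, (∀ v ∈ Near (NN d 0) 1 x, A v = A' v) →
        nbr (fun w => A w < a0) x = nbr (fun w => A' w < a0) x := by
      intro A A' h
      apply nbr_congr
      intro i
      have h1 : A (x + ee i) = A' (x + ee i) := by
        apply h
        intro j
        rw [NN_zero, coarse_one, add_ee_apply]
        split_ifs <;> simp
      have h2 : A (x - ee i) = A' (x - ee i) := by
        apply h
        intro j
        rw [NN_zero, coarse_one, sub_ee_apply]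
        split_ifs <;> simp
      rw [h1, h2]
      exact ⟨Iff.rfl, Iff.rfl⟩
    intro A A' h
    show κ < nbr (fun w => A w < a0) x ↔ κ < nbr (fun w => A' w < a0) x
    rw [key A A' h]
  | succ k ih =>
    intro x
    have key : ∀ A A' : Site d → ℕ, (∀ v ∈ Near (NN d (k + 1)) 1 x, A v = A' v) →
        Bad d a0 κ (k + 1) A' x → Bad d a0 κ (k + 1) A x := by
      intro A A' h hbad hgood
      apply hbad
      have hB : ∀ y, coarse (nn d k) y = x → ∀ w ∈ Ball y (rho d k),
          (Bad d a0 κ k A w ↔ Bad d a0 κ k A' w) := by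
        intro y hy w hw
        exact ih w A A' (fun v hv => h v (Near_sub (hρ k) hy hw hv))
      obtain ⟨h1, h2⟩ := hgood
      constructor
      · intro y hy
        refine le_trans (le_of_eq ?_) (h1 y hy)
        congr 1
        ext w
        constructor
        · rintro ⟨hw1, hw2⟩
          exact ⟨(hB y hy w hw2).mpr hw1, hw2⟩
        · rintro ⟨hw1, hw2⟩
          exact ⟨(hB y hy w hw2).mp hw1, hw2⟩
      · intro y hy i
        obtain ⟨y', h3, h4, h5, h6⟩ := h2 y hy i
        refine ⟨y', h3, h4, ?_, ?_⟩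
        · intro v hv
          rw [← h v _]
          · exact h5 v hv
          · intro j
            rw [coarse_succ, hv, h3]
            simp
        · intro w hw hw2
          exact h6 w hw ((hB y' h3 w hw).mpr hw2)
    intro A A' h
    constructor
    · exact key A' A (fun v hv => (h v hv).symm)
    · exact key A A' h

end Pool.Agent.Helper94.Sand
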