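import Mathlib

/-!
Basic definitions for the abelian sandpile on the d-dimensional integer lattice.
-/

namespace Pool.Agent.Helper94.Sand

/-- Sites of the lattice (also used for the coordinates of coarse blocks). -/
abbrev Site (d : ℕ) := Fin d → ℤ

variable {d : ℕ}

/-- The unit vector in direction `i`. -/
def ee (i : Fin d) : Site d := Pi.single i 1

/-- The (unnormalised) graph Laplacian. -/
def lap (f : Site d → ℤ) (v : Site d) : ℤ :=
  ∑ i, (f (v + ee i) + f (v - ee i) - 2 * f v)

/-- `coarse n v` is the block of side `n` that contains `v`. -/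
def coarse (n : ℕ) (v : Site d) : Site d := fun i => v i / (n : ℤ)

open Classical in
/-- The number of neighbours of `v` with property `P`. -/
noncomputable def nbr (P : Site d → Prop) (v : Site d) : ℕ :=
  ∑ i, ((if P (v + ee i) then 1 else 0) + (if P (v - ee i) then 1 else 0))

/-- One parallel update of the sandpile. -/
def step (h : Site d → ℤ) (v : Site d) : ℤ :=
  h v - (if 2 * (d : ℤ) ≤ h v then 2 * (d : ℤ) else 0) +
    ∑ i, ((if 2 * (d : ℤ) ≤ h (v + ee i) then (1 : ℤ) else 0) +
      (if 2 * (d : ℤ) ≤ h (v - ee i) then (1 : ℤ) else 0))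

/-- The height at time `t` of the parallel sandpile started from `A`. -/
def height (A : Site d → ℤ) : ℕ → Site d → ℤ
  | 0 => A
  | t + 1 => step (height A t)

/-- Every site topples infinitely often. -/
def Percolates (A : Site d → ℤ) : Prop :=
  ∀ (v : Site d) (T : ℕ), ∃ t, T ≤ t ∧ 2 * (d : ℤ) ≤ height A t v

end Pool.Agent.Helper94.Sand
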