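import Pool.Agent.Helper94.Sand.BadDep

namespace Pool.Agent.Helper94.Sand

variable {d a0 κ : ℕ}

/-- The set of sites on which badness of the block `x` of level `k` depends. -/
def depSet (d k : ℕ) (x : Site d) : Set (Site d) :=
  if k = 0 then {v | ∃ i, v = x + ee i ∨ v = x - ee i} else Near (NN d k) 1 x

theorem depSet_sub (k : ℕ) (x : Site d) : depSet d k x ⊆ Near (NN d k) 1 x := by
  unfold depSet
  by_cases hk : k = 0
  · rw [if_pos hk]
    subst hk
    rintro v ⟨i, hv⟩ j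
    rw [NN_zero, coarse_one]
    rcases hv with rfl | rfl
    · rw [add_ee_apply]
      split_ifs <;> simp
    · rw [sub_ee_apply]
      split_ifs <;> simp
  · rw [if_neg hk]

theorem depSet_finite (k : ℕ) (x : Site d) : (depSet d k x).Finite :=
  (Near_finite (NN d k) 1 (NN_pos d k) x).subset (depSet_sub k x)

theorem Bad_depSet (hρ : ∀ k, rho d k + 1 ≤ nn d k) (k : ℕ) (x : Site d) :
    DepOn (depSet d k x) {A | Bad d a0 κ k A x} := by
  unfold depSet
  by_cases hk : k = 0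
  · rw [if_pos hk]
    subst hk
    intro A A' h
    show κ < nbr (fun w => A w < a0) x ↔ κ < nbr (fun w => A' w < a0) x
    rw [nbr_congr (P := fun w => A w < a0) (Q := fun w => A' w < a0)]
    intro i
    rw [h (x + ee i) ⟨i, Or.inl rfl⟩, h (x - ee i) ⟨i, Or.inr rfl⟩]
    exact ⟨Iff.rfl, Iff.rfl⟩
  · rw [if_neg hk]
    exact Bad_dep hρ k x

/-- Colour at level zero. -/
def col0 (w : Site d) : ℤ := (∑ i : Fin d, ((i : ℕ) + 1 : ℤ) * w i) % (2 * d + 1)

theorem col0_disj (w w' : Site d) (hne : w ≠ w') (h : col0 w = col0 w') :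
    Disjoint (depSet d 0 w) (depSet d 0 w') := by
  have lin : ∀ (w : Site d) (t : ℤ) (i : Fin d),
      ∑ j : Fin d, ((j : ℕ) + 1 : ℤ) * (w + t • ee i) j =
        (∑ j : Fin d, ((j : ℕ) + 1 : ℤ) * w j) + t * ((i : ℕ) + 1) := by
    intro w t i
    have : ∀ j : Fin d, ((j : ℕ) + 1 : ℤ) * (w + t • ee i) j =
        ((j : ℕ) + 1 : ℤ) * w j + (if j = i then t * ((i : ℕ) + 1) else 0) := by
      intro j
      rw [add_smul_ee_apply]
      by_cases hj : j = i
      · subst hj; rw [if_pos rfl, if_pos rfl]; ring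
      · rw [if_neg hj, if_neg hj]; ring
    rw [Finset.sum_congr rfl (fun j _ => this j), Finset.sum_add_distrib]
    simp
  rw [Set.disjoint_left]
  intro v hv hv'
  have e1 : ∃ (i : Fin d) (s : ℤ), (s = 1 ∨ s = -1) ∧ v = w + s • ee i := by
    unfold depSet at hv
    rw [if_pos rfl] at hv
    obtain ⟨i, hi | hi⟩ := hv
    · exact ⟨i, 1, Or.inl rfl, by rw [one_smul_ee]; exact hi⟩
    · exact ⟨i, -1, Or.inr rfl, by rw [neg_one_smul_ee]; exact hi⟩
  have e2 : ∃ (i : Fin d) (s : ℤ), (s = 1 ∨ s = -1) ∧ v = w' + s • ee i := by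
    unfold depSet at hv'
    rw [if_pos rfl] at hv'
    obtain ⟨i, hi | hi⟩ := hv'
    · exact ⟨i, 1, Or.inl rfl, by rw [one_smul_ee]; exact hi⟩
    · exact ⟨i, -1, Or.inr rfl, by rw [neg_one_smul_ee]; exact hi⟩
  obtain ⟨i, s, hs, hvs⟩ := e1
  obtain ⟨j, s', hs', hvs'⟩ := e2
  have h1 := lin w s i
  have h2 := lin w' s' j
  rw [← hvs] at h1
  rw [← hvs'] at h2
  unfold col0 at h
  have h4 : (2 * (d : ℤ) + 1) ∣ (∑ i : Fin d, ((i : ℕ) + 1 : ℤ) * w' i) -
      (∑ i : Fin d, ((i : ℕ) + 1 : ℤ) * w i) := Int.ModEq.dvd h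
  have hi := i.isLt
  have hj := j.isLt
  have h5 : (∑ i : Fin d, ((i : ℕ) + 1 : ℤ) * w' i) - (∑ i : Fin d, ((i : ℕ) + 1 : ℤ) * w i) = 0 := by
    apply Int.eq_zero_of_abs_lt_dvd h4
    rw [abs_lt]
    rcases hs with rfl | rfl <;> rcases hs' with rfl | rfl <;> constructor <;> omega
  have h6 : i = j ∧ s = s' := by
    rcases hs with rfl | rfl <;> rcases hs' with rfl | rfl
    · exact ⟨Fin.ext (by omega), rfl⟩
    · exfalso; omega
    · exfalso; omega
    · exact ⟨Fin.ext (by omega), rfl⟩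
  obtain ⟨rfl, rfl⟩ := h6
  apply hne
  have h7 : w + s • ee i = w' + s • ee i := by rw [← hvs, ← hvs']
  exact add_right_cancel h7

theorem colour_zero (B : ℕ) (U : Finset (Site d)) (hU : (2 * d + 1) * B < U.card) :
    ∃ T ⊆ U, T.card = B ∧ ∀ w ∈ T, ∀ w' ∈ T, w ≠ w' →
      Disjoint (depSet d 0 w) (depSet d 0 w') := by
  classical
  obtain ⟨c, _, hc⟩ := Finset.exists_lt_card_fiber_of_mul_lt_card_of_maps_to
    (s := U) (t := Finset.Ico (0 : ℤ) (2 * d + 1)) (f := col0) (n := B)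
    (by
      intro w _
      rw [Finset.mem_Ico]
      exact ⟨Int.emod_nonneg _ (by omega), Int.emod_lt_of_pos _ (by omega)⟩)
    (by
      rw [Int.card_Ico]
      have : (2 * (d : ℤ) + 1 - 0).toNat = 2 * d + 1 := by omega
      rw [this]; exact hU)
  obtain ⟨T, hT1, hT2⟩ := Finset.exists_subset_card_eq (le_of_lt hc)
  refine ⟨T, hT1.trans (Finset.filter_subset _ _), hT2, ?_⟩
  intro w hw w' hw' hne
  have h1 := (Finset.mem_filter.mp (hT1 hw)).2
  have h2 := (Finset.mem_filter.mp (hT1 hw')).2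
  exact col0_disj w w' hne (by rw [h1, h2])

theorem colour_succ (k : ℕ) (_ : k ≠ 0) (B : ℕ) (U : Finset (Site d)) (hU : 3 ^ d * B < U.card) :
    ∃ T ⊆ U, T.card = B ∧ ∀ w ∈ T, ∀ w' ∈ T, w ≠ w' →
      Disjoint (depSet d k w) (depSet d k w') := by
  classical
  obtain ⟨c, _, hc⟩ := Finset.exists_lt_card_fiber_of_mul_lt_card_of_maps_to
    (s := U) (t := Fintype.piFinset (fun _ : Fin d => Finset.Ico (0 : ℤ) 3))
    (f := fun w => fun i => w i % 3) (n := B)
    (by
      intro w _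
      rw [Fintype.mem_piFinset]
      intro i
      rw [Finset.mem_Ico]
      exact ⟨Int.emod_nonneg _ (by omega), Int.emod_lt_of_pos _ (by omega)⟩)
    (by
      rw [Fintype.card_piFinset]
      simpa using hU)
  obtain ⟨T, hT1, hT2⟩ := Finset.exists_subset_card_eq (le_of_lt hc)
  refine ⟨T, hT1.trans (Finset.filter_subset _ _), hT2, ?_⟩
  intro w hw w' hw' hne
  have h1 := (Finset.mem_filter.mp (hT1 hw)).2
  have h2 := (Finset.mem_filter.mp (hT1 hw')).2
  rw [Set.disjoint_left]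
  intro v hv hv'
  apply hne
  funext i
  have h3 := (depSet_sub k w hv) i
  have h4 := (depSet_sub k w' hv') i
  have h5 : w i % 3 = w' i % 3 := by
    have e1 := congrFun h1 i
    have e2 := congrFun h2 i
    exact e1.trans e2.symm
  rw [abs_le] at h3 h4
  push_cast at h3 h4
  omega

theorem colour (k B : ℕ) (U : Finset (Site d)) (hU : MM d k * B < U.card) :
    ∃ T ⊆ U, T.card = B ∧ ∀ w ∈ T, ∀ w' ∈ T, w ≠ w' →
      Disjoint (depSet d k w) (depSet d k w') := by
  unfold MM at hU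
  by_cases hk : k = 0
  · rw [if_pos hk] at hU
    subst hk
    exact colour_zero B U hU
  · rw [if_neg hk] at hU
    exact colour_succ k hk B U hU

end Pool.Agent.Helper94.Sand
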