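import Pool.Agent.Helper94.Sand.Fill2

namespace Pool.Agent.Helper94.Sand

variable {d : ℕ}

/-- M4a. Filling the children of a block `x` from the sides in `S`. -/
theorem fill (n ρ r : ℕ) (hn : 10 * (ρ + 10) ≤ n) (x : Site d)
    (Z : Set (Site d × Site d))
    (sep : ∀ z ∈ Z, ∀ z' ∈ Z, z ≠ z' → ∃ i, z.2 i + 5 ≤ z'.1 i ∨ z'.2 i + 5 ≤ z.1 i)
    (small : ∀ z ∈ Z, ∀ i, z.2 i - z.1 i + 2 ≤ (ρ : ℤ))
    (faceL : ∀ z ∈ Z, ∀ i, ¬ (n : ℤ) ∣ z.1 i - 1)
    (faceR : ∀ z ∈ Z, ∀ i, ¬ (n : ℤ) ∣ z.2 i + 1)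
    (S J : Finset (Fin d)) (σ : Fin d → ℤ) (hσ : ∀ i, σ i = 1 ∨ σ i = -1)
    (hJS : J ⊆ S) (hr : r ≤ S.card + 1) (hrd : r + 2 ≤ d)
    (F : Site d → Prop)
    (rule : ∀ y, coarse n y = x → (∀ z ∈ Z, y ∉ Set.Icc z.1 z.2) →
      ∀ (S' J' : Finset (Fin d)) (σ' : Fin d → ℤ), (∀ i, σ' i = 1 ∨ σ' i = -1) →
      J' ⊆ S' → r ≤ S'.card → (∀ i ∈ S', F (y + σ' i • ee i)) →
      (∀ i ∈ J', F (y + ee i) ∧ F (y - ee i)) →
      (∀ i ∈ J, y i = n * x i → i ∈ J') → F y)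
    (outS : ∀ i ∈ S, ∀ y, coarse n y = x + σ i • ee i →
      (∀ z ∈ Z, y ∉ Set.Icc z.1 z.2) → F y)
    (outJ : ∀ i ∈ J, ∀ y, (coarse n y = x + ee i ∨ coarse n y = x - ee i) →
      (∀ z ∈ Z, y ∉ Set.Icc z.1 z.2) → F y)
    (seed : ∀ y, coarse n y = x → ∀ i, ∃ y', coarse n y' = x ∧ (∀ j, j ≠ i → y' j = y j) ∧
      F y' ∧ ∀ z ∈ Z, ∃ j, y' j + 2 ≤ z.1 j ∨ z.2 j + 2 ≤ y' j) :
    ∀ y, coarse n y = x → (∀ z ∈ Z, y ∉ Set.Icc z.1 z.2) → F y := by
  classical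
  have hn1 : 1 ≤ n := by omega
  intro y hy hfree
  rw [coarse_eq_iff hn1] at hy
  have step : ∀ (w : Site d) (i : Fin d) (s : ℤ), (s = 1 ∨ s = -1) →
      (∀ j, (n : ℤ) * x j ≤ w j ∧ w j < n * x j + n) →
      ¬ ((n : ℤ) * x i ≤ w i + s ∧ w i + s < n * x i + n) →
      coarse n (w + s • ee i) = x + s • ee i := by
    intro w i s hs hw hout
    rw [coarse_eq_iff hn1]
    intro j
    rw [add_smul_ee_apply, add_smul_ee_apply]
    by_cases hj : j = i
    · subst hj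
      rw [if_pos rfl, if_pos rfl]
      have h1 := hw j
      rcases hs with rfl | rfl
      · have e1 : (n : ℤ) * (x j + 1) = n * x j + n := by ring
        rw [e1]
        omega
      · have e1 : (n : ℤ) * (x j + -1) = n * x j - n := by ring
        rw [e1]
        omega
    · rw [if_neg hj, if_neg hj]; exact hw j
  apply fill_core (fun i => (n : ℤ) * x i) n ρ r hn Z sep small _ S J
    (fun i => if i ∈ J then 1 else σ i) _ _ hJS hr hrd F _ _ _ _ y hy hfree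
  · intro z hz i
    constructor
    · intro h
      exact faceL z hz i ⟨x i, h⟩
    · intro h
      exact faceR z hz i ⟨x i, h⟩
  · intro i
    by_cases hi : i ∈ J
    · simp only [if_pos hi]; left; trivial
    · simp only [if_neg hi]; exact hσ i
  · intro i hi
    simp only [if_pos hi]
  · intro w hw hfr S' J' σ' h1 h2 h3 h4 h5 h6
    exact rule w ((coarse_eq_iff hn1).mpr hw) hfr S' J' σ' h1 h2 h3 h4 h5 h6
  · intro i hi w hw hout hfr
    by_cases hiJ : i ∈ J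
    · simp only [if_pos hiJ] at hout hfr ⊢
      apply outJ i hiJ _ (Or.inl _) hfr
      have := step w i 1 (Or.inl rfl) hw hout
      rw [one_smul] at this ⊢
      exact this
    · simp only [if_neg hiJ] at hout hfr ⊢
      exact outS i hi _ (step w i (σ i) (hσ i) hw hout) hfr
  · intro i hi w hw hwi hfr
    apply outJ i hi _ (Or.inr _) hfr
    have := step w i (-1) (Or.inr rfl) hw (by omega)
    rw [neg_one_smul_ee, neg_one_smul_ee] at this
    exact this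
  · intro w hw i
    obtain ⟨y', h1, h2, h3, h4⟩ := seed w ((coarse_eq_iff hn1).mpr hw) i
    exact ⟨y', (coarse_eq_iff hn1).mp h1, h2, h3, h4⟩

end Pool.Agent.Helper94.Sand
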