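import Pool.Agent.Helper94.Sand.Zone
import Pool.Agent.Helper94.Sand.Fill

namespace Pool.Agent.Helper94.Sand

variable {d : ℕ}

theorem lap_add (f g : Site d → ℤ) (v : Site d) : lap (fun w => f w + g w) v = lap f v + lap g v := by
  unfold lap
  rw [← Finset.sum_add_distrib]
  apply Finset.sum_congr rfl
  intro i _
  ring

theorem lap_sum {ι : Type*} (s : Finset ι) (f : ι → Site d → ℤ) (v : Site d) :
    lap (fun w => ∑ m ∈ s, f m w) v = ∑ m ∈ s, lap (f m) v := by
  classical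
  induction s using Finset.induction_on with
  | empty => simp [lap]
  | insert a s ha ih =>
    rw [Finset.sum_insert ha, ← ih, ← lap_add]
    congr 1
    funext w
    rw [Finset.sum_insert ha]

/-- All the data of the deterministic argument. -/
structure Env (d : ℕ) where
  r0 : ℕ
  hr0 : r0 + 2 ≤ d
  nn : ℕ → ℕ
  NN : ℕ → ℕ
  ρ : ℕ → ℕ
  hNN0 : NN 0 = 1
  hNN : ∀ k, NN (k + 1) = NN k * nn k
  hn : ∀ k, 10 * (ρ k + 10) ≤ nn k
  Bad : ℕ → Site d → Prop
  ZS : ∀ k, ZoneSys d (NN k) (nn k) (ρ k) (7 * d)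
    {y | Bad k y ∧ ¬ Bad (k + 1) (coarse (nn k) y)}
  A : Site d → ℤ
  φ : Site d → ℤ
  hA : ∀ v, 0 ≤ A v
  hφ : ∀ v, 0 ≤ φ v
  hlapφ : ∀ v, lap φ v ≤ 4 * d
  hgood : ∀ v, ¬ Bad 0 v → 2 * (d : ℤ) - r0 + 1 ≤ A v - lap φ v
  G2 : ∀ k x, ¬ Bad (k + 1) x → ∀ y, coarse (nn k) y = x → ∀ i,
      ∃ y', coarse (nn k) y' = x ∧ (∀ j, j ≠ i → y' j = y j) ∧
        (∀ v, coarse (NN k) v = y' → 8 * (d : ℤ) ≤ A v) ∧
        ∀ w ∈ Set.Icc (fun i => y' i - (ρ k : ℤ)) (fun i => y' i + (ρ k : ℤ)), ¬ Bad k w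
  hloc : ∀ v : Site d, ∃ K, r0 ≤ K ∧ ∀ k, K ≤ k → ∀ w,
      (∀ i, |w i - coarse (NN k) v i| ≤ (ρ k : ℤ) + 10) → ¬ Bad k w

namespace Env

variable (e : Env d)

def Zn (k : ℕ) : Set (Site d × Site d) := (e.ZS k).Z

def ps (k : ℕ) : Site d → ℤ := (e.ZS k).ψ

theorem nn_pos (k : ℕ) : 1 ≤ e.nn k := by
  have := e.hn k
  omega

theorem NN_pos (k : ℕ) : 1 ≤ e.NN k := by
  induction k with
  | zero => rw [e.hNN0]
  | succ k ih =>
    rw [e.hNN]
    exact Nat.mul_pos ih (e.nn_pos k)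

theorem NN_dvd {k m : ℕ} (h : k ≤ m) : e.NN k ∣ e.NN m := by
  induction m, h using Nat.le_induction with
  | base => exact dvd_rfl
  | succ m _ ih =>
    rw [e.hNN]
    exact Dvd.dvd.mul_right ih _

theorem ps_nonneg (k : ℕ) (v : Site d) : 0 ≤ e.ps k v := (e.ZS k).nonneg v

theorem lap_le_one (k : ℕ) (v : Site d) : lap (e.ps k) v ≤ 1 := (e.ZS k).lap_le_one v

theorem lap_pos (k : ℕ) (v : Site d) (h : 0 < lap (e.ps k) v) :
    ∃ i, (e.NN k : ℤ) ∣ v i ∧ ¬ (e.NN (k + 1) : ℤ) ∣ v i := by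
  obtain ⟨i, h1, h2⟩ := (e.ZS k).lap_pos v h
  refine ⟨i, h1, ?_⟩
  rw [e.hNN]
  push_cast
  exact h2

theorem lap_out (k : ℕ) (v : Site d) (h : Free (e.Zn k) (coarse (e.NN k) v)) :
    lap (e.ps k) v ≤ 0 := (e.ZS k).lap_out v h

theorem supp (k : ℕ) (v : Site d) (h : Free (e.Zn k) (coarse (e.NN k) v)) :
    e.ps k v = 0 := (e.ZS k).supp v h

open Classical in
/-- Positive contributions of different levels use different directions. -/
theorem sum_le (v : Site d) (k : ℕ) (s : Finset ℕ) (hs : ∀ m ∈ s, k ≤ m) :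
    ∑ m ∈ s, lap (e.ps m) v ≤ ((Finset.univ.filter (fun i => (e.NN k : ℤ) ∣ v i)).card : ℤ) := by
  have h1 : ∑ m ∈ s, lap (e.ps m) v ≤ ((s.filter (fun m => 0 < lap (e.ps m) v)).card : ℤ) := by
    rw [Finset.card_filter]
    push_cast
    apply Finset.sum_le_sum
    intro m _
    split_ifs with h
    · exact e.lap_le_one m v
    · omega
  refine le_trans h1 ?_
  have h2 : (s.filter (fun m => 0 < lap (e.ps m) v)).card ≤
      (Finset.univ.filter (fun i => (e.NN k : ℤ) ∣ v i)).card := by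
    have hch : ∀ m, ∃ i : Fin d, 0 < lap (e.ps m) v →
        (e.NN m : ℤ) ∣ v i ∧ ¬ (e.NN (m + 1) : ℤ) ∣ v i := by
      intro m
      by_cases h : 0 < lap (e.ps m) v
      · obtain ⟨i, hi⟩ := e.lap_pos m v h
        exact ⟨i, fun _ => hi⟩
      · have hd : 0 < d := by
          have := e.hr0
          omega
        exact ⟨⟨0, hd⟩, fun h' => absurd h' h⟩
    choose f hf using hch
    apply Finset.card_le_card_of_injOn f
    · intro m hm
      rw [Finset.mem_coe, Finset.mem_filter] at hm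
      rw [Finset.mem_coe, Finset.mem_filter]
      refine ⟨Finset.mem_univ _, ?_⟩
      have h3 := (hf m hm.2).1
      have h4 : (e.NN k : ℤ) ∣ (e.NN m : ℤ) := by exact_mod_cast e.NN_dvd (hs m hm.1)
      exact dvd_trans h4 h3
    · have aux : ∀ m m', m ∈ s.filter (fun m => 0 < lap (e.ps m) v) →
          m' ∈ s.filter (fun m => 0 < lap (e.ps m) v) → m < m' → f m ≠ f m' := by
        intro m m' hm hm' hlt heq
        rw [Finset.mem_filter] at hm hm'
        have h3 := (hf m hm.2).2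
        have h4 := (hf m' hm'.2).1
        rw [← heq] at h4
        apply h3
        have h5 : (e.NN (m + 1) : ℤ) ∣ (e.NN m' : ℤ) := by
          exact_mod_cast e.NN_dvd hlt
        exact dvd_trans h5 h4
      intro m hm m' hm' heq
      rw [Finset.mem_coe] at hm hm'
      rcases lt_trichotomy m m' with h | h | h
      · exact absurd heq (aux m m' hm hm' h)
      · exact h
      · exact absurd heq.symm (aux m' m hm' hm h)
  exact_mod_cast h2

/-- Coarse graining contracts distances. -/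
theorem coarse_dist (N : ℕ) (hN : 1 ≤ N) (a b : ℤ) (c : ℕ) (h : |a - b| ≤ c) :
    |a / (N : ℤ) - b / (N : ℤ)| ≤ c := by
  have hN0 : (0 : ℤ) < N := by exact_mod_cast hN
  rw [abs_le] at h ⊢
  have key : ∀ x y : ℤ, x ≤ y + c → x / (N : ℤ) ≤ y / (N : ℤ) + c := by
    intro x y hxy
    have h1 : x / (N : ℤ) ≤ (y + c) / N := Int.ediv_le_ediv hN0 hxy
    have h2 : (y + c) / (N : ℤ) ≤ (y + c * N) / N := by
      apply Int.ediv_le_ediv hN0
      nlinarith
    rw [Int.add_mul_ediv_right _ _ (ne_of_gt hN0)] at h2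
    omega
  have h1 := key a b (by omega)
  have h2 := key b a (by omega)
  omega

theorem free_far (v : Site d) : ∃ K, e.r0 ≤ K ∧
    (∀ k, K ≤ k → ∀ w, (∀ i, |w i - coarse (e.NN k) v i| ≤ 5) → ¬ e.Bad k w) ∧
    ∀ k, K ≤ k → ∀ w, (∀ i, |w i - coarse (e.NN k) v i| ≤ 5) → Free (e.Zn k) w := by
  obtain ⟨K, hK1, hK2⟩ := e.hloc v
  refine ⟨K, hK1, ?_, ?_⟩
  · intro k hk w hw
    apply hK2 k hk w
    intro i
    have := hw i
    omega
  · intro k hk w hw z hz hwz
    obtain ⟨y, hy1, hy2⟩ := (e.ZS k).meets z hz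
    apply hK2 k hk y _ hy1.1
    intro i
    have h1 := (mem_box.mp hwz) i
    have h2 := (mem_box.mp hy2) i
    have h3 := (e.ZS k).small z hz i
    have h4 := hw i
    rw [abs_le] at h4 ⊢
    omega

/-- A level from which on nothing happens near `v`. -/
noncomputable def Kf (v : Site d) : ℕ := (e.free_far v).choose

theorem Kf_r0 (v : Site d) : e.r0 ≤ e.Kf v := (e.free_far v).choose_spec.1

theorem Kf_bad (v : Site d) : ∀ k, e.Kf v ≤ k → ∀ w, (∀ i, |w i - coarse (e.NN k) v i| ≤ 5) →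
    ¬ e.Bad k w := (e.free_far v).choose_spec.2.1

theorem Kf_free (v : Site d) : ∀ k, e.Kf v ≤ k → ∀ w, (∀ i, |w i - coarse (e.NN k) v i| ≤ 5) →
    Free (e.Zn k) w := (e.free_far v).choose_spec.2.2

theorem free_near (v w : Site d) (hw : ∀ i, |w i - v i| ≤ 5) (k : ℕ) (hk : e.Kf v ≤ k) :
    Free (e.Zn k) (coarse (e.NN k) w) := by
  apply e.Kf_free v k hk
  intro i
  have := coarse_dist (e.NN k) (e.NN_pos k) (w i) (v i) 5 (by exact_mod_cast hw i)
  exact_mod_cast this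

theorem ps_far (v w : Site d) (hw : ∀ i, |w i - v i| ≤ 5) (k : ℕ) (hk : e.Kf v ≤ k) :
    e.ps k w = 0 := e.supp k w (e.free_near v w hw k hk)

/-- The total barrier function. -/
noncomputable def Psi (v : Site d) : ℤ := ∑ m ∈ Finset.range (e.Kf v), e.ps m v

theorem sum_range_eq_of_zero (f : ℕ → ℤ) (K K' : ℕ) (h : ∀ m, K ≤ m → f m = 0)
    (h' : ∀ m, K' ≤ m → f m = 0) : ∑ m ∈ Finset.range K, f m = ∑ m ∈ Finset.range K', f m := by
  rcases le_total K K' with hle | hle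
  · rw [← Finset.sum_range_add_sum_Ico f hle]
    rw [Finset.sum_eq_zero (s := Finset.Ico K K'), add_zero]
    intro m hm
    exact h m (Finset.mem_Ico.mp hm).1
  · rw [← Finset.sum_range_add_sum_Ico f hle]
    rw [Finset.sum_eq_zero (s := Finset.Ico K' K), add_zero]
    intro m hm
    exact h' m (Finset.mem_Ico.mp hm).1

theorem Psi_eq (v w : Site d) (hw : ∀ i, |w i - v i| ≤ 5) (K : ℕ) (hK : e.Kf v ≤ K) :
    e.Psi w = ∑ m ∈ Finset.range K, e.ps m w := by
  apply sum_range_eq_of_zero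
  · intro m hm
    exact e.ps_far w w (fun i => by simp) m hm
  · intro m hm
    exact e.ps_far v w hw m (le_trans hK hm)

theorem lap_Psi (v : Site d) (K : ℕ) (hK : e.Kf v ≤ K) :
    lap e.Psi v = ∑ m ∈ Finset.range K, lap (e.ps m) v := by
  rw [← lap_sum]
  unfold lap
  apply Finset.sum_congr rfl
  intro i _
  rw [e.Psi_eq v v (fun j => by simp) K hK]
  rw [e.Psi_eq v (v + ee i) _ K hK, e.Psi_eq v (v - ee i) _ K hK]
  · intro j
    rw [sub_ee_apply]
    split_ifs <;> simp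
  · intro j
    rw [add_ee_apply]
    split_ifs <;> simp

theorem Psi_nonneg (v : Site d) : 0 ≤ e.Psi v :=
  Finset.sum_nonneg (fun m _ => e.ps_nonneg m v)

/-- Contribution of the levels at least `k`. -/
noncomputable def dl (k : ℕ) (v : Site d) : ℤ :=
  lap e.Psi v - ∑ m ∈ Finset.range k, lap (e.ps m) v

theorem dl_zero (v : Site d) : e.dl 0 v = lap e.Psi v := by
  simp [dl]

theorem dl_succ (k : ℕ) (v : Site d) : e.dl k v = lap (e.ps k) v + e.dl (k + 1) v := by
  unfold dl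
  rw [Finset.sum_range_succ]
  ring

theorem dl_eq (k : ℕ) (v : Site d) (K : ℕ) (hK : e.Kf v ≤ K) (hk : k ≤ K) :
    e.dl k v = ∑ m ∈ Finset.Ico k K, lap (e.ps m) v := by
  unfold dl
  rw [e.lap_Psi v K hK, ← Finset.sum_range_add_sum_Ico _ hk]
  ring

open Classical in
theorem dl_le (k : ℕ) (v : Site d) :
    e.dl k v ≤ 1 + ((Finset.univ.filter (fun i => (e.NN (k + 1) : ℤ) ∣ v i)).card : ℤ) := by
  rw [e.dl_succ]
  have h1 := e.lap_le_one k v
  have h2 : e.dl (k + 1) v ≤ ((Finset.univ.filter (fun i => (e.NN (k + 1) : ℤ) ∣ v i)).card : ℤ) := by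
    rw [e.dl_eq (k + 1) v (max (e.Kf v) (k + 1)) (le_max_left _ _) (le_max_right _ _)]
    apply e.sum_le
    intro m hm
    exact (Finset.mem_Ico.mp hm).1
  omega

theorem lap_Psi_le (v : Site d) : lap e.Psi v ≤ d := by
  classical
  rw [e.lap_Psi v (e.Kf v) le_rfl]
  have h1 := e.sum_le v 0 (Finset.range (e.Kf v)) (fun m _ => Nat.zero_le m)
  have h2 : (Finset.univ.filter (fun i => (e.NN 0 : ℤ) ∣ v i)).card ≤ d := by
    calc _ ≤ (Finset.univ : Finset (Fin d)).card := Finset.card_filter_le _ _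
      _ = d := by rw [Finset.card_univ, Fintype.card_fin]
  have h3 : ((Finset.univ.filter (fun i => (e.NN 0 : ℤ) ∣ v i)).card : ℤ) ≤ d := by
    exact_mod_cast h2
  exact le_trans h1 h3

theorem lap_Psi_dirty (v : Site d) (m : ℕ)
    (hm : e.Bad m (coarse (e.NN m) v) ∧ ¬ e.Bad (m + 1) (coarse (e.nn m) (coarse (e.NN m) v))) :
    lap e.Psi v ≤ -(6 * d) := by
  classical
  rw [e.lap_Psi v (max (e.Kf v) (m + 1)) (le_max_left _ _)]
  have hmem : m ∈ Finset.range (max (e.Kf v) (m + 1)) := by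
    rw [Finset.mem_range]
    exact lt_of_lt_of_le (Nat.lt_succ_self m) (le_max_right _ _)
  rw [← Finset.add_sum_erase _ _ hmem]
  have h0 : lap (e.ps m) v ≤ -((7 * d : ℕ) : ℤ) := (e.ZS m).lap_dirty v hm
  have h1 := e.sum_le v 0 ((Finset.range (max (e.Kf v) (m + 1))).erase m) (fun m _ => Nat.zero_le m)
  have h2 : (Finset.univ.filter (fun i => (e.NN 0 : ℤ) ∣ v i)).card ≤ d := by
    calc _ ≤ (Finset.univ : Finset (Fin d)).card := Finset.card_filter_le _ _
      _ = d := by rw [Finset.card_univ, Fintype.card_fin]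
  have h3 : ((Finset.univ.filter (fun i => (e.NN 0 : ℤ) ∣ v i)).card : ℤ) ≤ d := by
    exact_mod_cast h2
  push_cast at h0
  linarith

end Env

end Pool.Agent.Helper94.Sand
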