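import Pool.Agent.Helper94.Sand.Lemmas

namespace Pool.Agent.Helper94.Sand

variable {d : ℕ}

/-- Connectivity of a box minus a nonspanning sub-box. -/
theorem ring_conn (a b a' b' : Site d) (Sc : Finset (Fin d)) (hSc : 2 ≤ Sc.card)
    (hc : ∀ i ∈ Sc, ∃ c, a i ≤ c ∧ c ≤ b i ∧ (c < a' i ∨ b' i < c))
    (P : Site d → Prop)
    (hP : ∀ y ∈ Set.Icc a b, ∀ (j : Fin d) (t : ℤ), (t = 1 ∨ t = -1) →
      y + t • ee j ∈ Set.Icc a b → (∃ i ∈ Sc, y i < a' i ∨ b' i < y i) →
      (∃ i ∈ Sc, (y + t • ee j) i < a' i ∨ b' i < (y + t • ee j) i) → P y → P (y + t • ee j))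
    (y y' : Site d) (hy : y ∈ Set.Icc a b) (hy' : y' ∈ Set.Icc a b)
    (hR : ∃ i ∈ Sc, y i < a' i ∨ b' i < y i) (hR' : ∃ i ∈ Sc, y' i < a' i ∨ b' i < y' i)
    (h : P y) : P y' := by
  classical
  -- slab connectivity
  have slab : ∀ i ∈ Sc, ∀ c, (c < a' i ∨ b' i < c) → ∀ w w' : Site d, w ∈ Set.Icc a b →
      w' ∈ Set.Icc a b → w i = c → w' i = c → P w → P w' := by
    intro i hi c hcc w w' hw hw' hwi hwi' hPw
    apply box_conn (Function.update a i c) (Function.update b i c) P _ w w' _ _ hPw
    · intro z hz j t ht hz' hPz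
      rw [mem_box] at hz hz' hw
      have h1 : z ∈ Set.Icc a b := by
        rw [mem_box]
        intro k
        by_cases hk : k = i
        · subst hk
          have h2 := hz k
          rw [Function.update_self, Function.update_self] at h2
          have h3 := hw k
          omega
        · have h2 := hz k
          rw [Function.update_of_ne hk, Function.update_of_ne hk] at h2
          exact h2
      have h1' : z + t • ee j ∈ Set.Icc a b := by
        rw [mem_box]
        intro k
        by_cases hk : k = i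
        · subst hk
          have h2 := hz' k
          rw [Function.update_self, Function.update_self] at h2
          have h3 := hw k
          omega
        · have h2 := hz' k
          rw [Function.update_of_ne hk, Function.update_of_ne hk] at h2
          exact h2
      apply hP z h1 j t ht h1' _ _ hPz
      · refine ⟨i, hi, ?_⟩
        have h2 := hz i
        rw [Function.update_self, Function.update_self] at h2
        omega
      · refine ⟨i, hi, ?_⟩
        have h2 := hz' i
        rw [Function.update_self, Function.update_self] at h2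
        omega
    · rw [mem_box] at hw ⊢
      intro k
      by_cases hk : k = i
      · subst hk
        rw [Function.update_self, Function.update_self]
        omega
      · rw [Function.update_of_ne hk, Function.update_of_ne hk]
        exact hw k
    · rw [mem_box] at hw' ⊢
      intro k
      by_cases hk : k = i
      · subst hk
        rw [Function.update_self, Function.update_self]
        omega
      · rw [Function.update_of_ne hk, Function.update_of_ne hk]
        exact hw' k
  have upd : ∀ (w : Site d) (i : Fin d) (c : ℤ), w ∈ Set.Icc a b → a i ≤ c → c ≤ b i →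
      Function.update w i c ∈ Set.Icc a b := by
    intro w i c hw h1 h2
    rw [mem_box] at hw ⊢
    intro k
    by_cases hk : k = i
    · subst hk
      rw [Function.update_self]; exact ⟨h1, h2⟩
    · rw [Function.update_of_ne hk]; exact hw k
  obtain ⟨i, hi, hyi⟩ := hR
  obtain ⟨j, hj, hyj⟩ := hR'
  by_cases hij : i = j
  · subst hij
    obtain ⟨j', hj', hne⟩ : ∃ j' ∈ Sc, j' ≠ i := by
      have := Finset.one_lt_card.mp (by omega : 1 < Sc.card)
      obtain ⟨p, hp, q, hq, hpq⟩ := this
      by_cases h1 : p = i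
      · exact ⟨q, hq, fun h2 => hpq (by rw [h1, h2])⟩
      · exact ⟨p, hp, h1⟩
    obtain ⟨c', hc1, hc2, hc3⟩ := hc j' hj'
    have h1 : P (Function.update y j' c') := by
      apply slab i hi (y i) hyi y _ hy (upd y j' c' hy hc1 hc2) rfl _ h
      rw [Function.update_of_ne (Ne.symm hne)]
    have h2 : P (Function.update y' j' c') := by
      apply slab j' hj' c' hc3 _ _ (upd y j' c' hy hc1 hc2) (upd y' j' c' hy' hc1 hc2) _ _ h1
      · rw [Function.update_self]
      · rw [Function.update_self]
    apply slab i hi (y' i) hyj _ _ (upd y' j' c' hy' hc1 hc2) hy' _ rfl h2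
    rw [Function.update_of_ne (Ne.symm hne)]
  · have hyj' := (mem_box.mp hy') j
    have h1 : P (Function.update y j (y' j)) := by
      apply slab i hi (y i) hyi y _ hy (upd y j (y' j) hy hyj'.1 hyj'.2) rfl _ h
      rw [Function.update_of_ne hij]
    apply slab j hj (y' j) hyj _ _ (upd y j (y' j) hy hyj'.1 hyj'.2) hy' _ rfl h1
    rw [Function.update_self]

/-- M4b. Filling a zone from outside. -/
theorem zone_fill (n : ℕ) (z : Site d × Site d) (hz : ∀ i, z.2 i - z.1 i + 2 ≤ (n : ℤ))
    (F : Site d → Prop)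
    (rule : ∀ y ∈ Set.Icc z.1 z.2, ∀ (J : Finset (Fin d)) (σ : Fin d → ℤ),
      (∀ i, σ i = 1 ∨ σ i = -1) → (∀ i, F (y + σ i • ee i)) →
      (∀ i ∈ J, F (y + ee i) ∧ F (y - ee i)) →
      (∀ i, (n : ℤ) ∣ y i → i ∈ J) → F y)
    (out : ∀ y ∈ Set.Icc z.1 z.2, ∀ i,
      (y + ee i ∉ Set.Icc z.1 z.2 → F (y + ee i)) ∧
      (y - ee i ∉ Set.Icc z.1 z.2 → F (y - ee i))) :
    ∀ y ∈ Set.Icc z.1 z.2, F y := by
  classical
  -- the centre
  let t : Site d := fun i => if h : ∃ s, z.1 i ≤ s ∧ s ≤ z.2 i ∧ (n : ℤ) ∣ s then h.choose else z.1 i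
  have ht1 : ∀ i s, z.1 i ≤ s → s ≤ z.2 i → (n : ℤ) ∣ s → t i = s := by
    intro i s h1 h2 h3
    have hex : ∃ s, z.1 i ≤ s ∧ s ≤ z.2 i ∧ (n : ℤ) ∣ s := ⟨s, h1, h2, h3⟩
    have h4 : t i = hex.choose := dif_pos hex
    obtain ⟨h5, h6, h7⟩ := hex.choose_spec
    rw [← h4] at h5 h6 h7
    have h8 := hz i
    have h9 : (n : ℤ) ∣ t i - s := dvd_sub h7 h3
    have h10 : t i - s = 0 := by
      apply Int.eq_zero_of_abs_lt_dvd h9
      rw [abs_lt]; constructor <;> omega
    omega
  have ht2 : ∀ i s, z.1 i ≤ s → s ≤ z.2 i → ¬ (s < t i) ∨ (z.1 i ≤ t i ∧ t i ≤ z.2 i) := by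
    intro i s h1 h2
    by_cases hex : ∃ s, z.1 i ≤ s ∧ s ≤ z.2 i ∧ (n : ℤ) ∣ s
    · right
      have h4 : t i = hex.choose := dif_pos hex
      obtain ⟨h5, h6, h7⟩ := hex.choose_spec
      rw [h4]; exact ⟨h5, h6⟩
    · left
      have h4 : t i = z.1 i := dif_neg hex
      omega
  have ht3 : ∀ i s, z.1 i ≤ s → s ≤ z.2 i → z.1 i ≤ t i ∧ t i ≤ z.2 i := by
    intro i s h1 h2
    by_cases hex : ∃ s, z.1 i ≤ s ∧ s ≤ z.2 i ∧ (n : ℤ) ∣ s
    · have h4 : t i = hex.choose := dif_pos hex
      obtain ⟨h5, h6, h7⟩ := hex.choose_spec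
      rw [h4]; exact ⟨h5, h6⟩
    · have h4 : t i = z.1 i := dif_neg hex
      omega
  -- main induction
  have key : ∀ (m : ℕ) (y : Site d), y ∈ Set.Icc z.1 z.2 →
      (∑ i, ((z.2 i - z.1 i).natAbs - (y i - t i).natAbs)) ≤ m → F y := by
    intro m
    induction m using Nat.strong_induction_on with
    | _ m ih =>
    intro y hy hsum
    have hyb := mem_box.mp hy
    -- moving outward
    have move : ∀ (i : Fin d) (s : ℤ), (s = 1 ∧ t i ≤ y i ∨ s = -1 ∧ y i ≤ t i) →
        F (y + s • ee i) := by
      intro i s hs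
      by_cases hin : y + s • ee i ∈ Set.Icc z.1 z.2
      · have hib := mem_box.mp hin
        have h1 := hib i
        rw [add_smul_ee_apply, if_pos rfl] at h1
        have h2 := hyb i
        have h3 := ht3 i (y i) h2.1 h2.2
        have hlt : (∑ j, ((z.2 j - z.1 j).natAbs - ((y + s • ee i) j - t j).natAbs)) <
            (∑ j, ((z.2 j - z.1 j).natAbs - (y j - t j).natAbs)) := by
          apply Finset.sum_lt_sum
          · intro j _
            rw [add_smul_ee_apply]
            by_cases hj : j = i
            · subst hj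
              rw [if_pos rfl]
              rcases hs with ⟨rfl, hs⟩ | ⟨rfl, hs⟩ <;> omega
            · rw [if_neg hj]
          · refine ⟨i, Finset.mem_univ i, ?_⟩
            rw [add_smul_ee_apply, if_pos rfl]
            rcases hs with ⟨rfl, hs⟩ | ⟨rfl, hs⟩ <;> omega
        exact ih _ (by omega) _ hin le_rfl
      · rcases hs with ⟨rfl, hs⟩ | ⟨rfl, hs⟩
        · rw [one_smul_ee] at hin ⊢
          exact (out y hy i).1 hin
        · rw [neg_one_smul_ee] at hin ⊢
          exact (out y hy i).2 hin
    apply rule y hy (Finset.univ.filter (fun i => (n : ℤ) ∣ y i))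
      (fun i => if t i ≤ y i then 1 else -1)
    · intro i
      split_ifs
      · left; rfl
      · right; rfl
    · intro i
      by_cases h1 : t i ≤ y i
      · simp only [if_pos h1]
        exact move i 1 (Or.inl ⟨rfl, h1⟩)
      · simp only [if_neg h1]
        exact move i (-1) (Or.inr ⟨rfl, by omega⟩)
    · intro i hi
      rw [Finset.mem_filter] at hi
      have h1 := ht1 i (y i) (hyb i).1 (hyb i).2 hi.2
      constructor
      · rw [← one_smul_ee]
        exact move i 1 (Or.inl ⟨rfl, by omega⟩)
      · rw [← neg_one_smul_ee]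
        exact move i (-1) (Or.inr ⟨rfl, by omega⟩)
    · intro i hi
      rw [Finset.mem_filter]
      exact ⟨Finset.mem_univ i, hi⟩
  intro y hy
  exact key _ y hy le_rfl

end Pool.Agent.Helper94.Sand
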