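import Pool.Agent.Helper94.Sand.Fill1

namespace Pool.Agent.Helper94.Sand

variable {d : ℕ}

/-- A block is free if it is in no zone. -/
def Free (Z : Set (Site d × Site d)) (y : Site d) : Prop := ∀ z ∈ Z, y ∉ Set.Icc z.1 z.2

theorem not_free {Z : Set (Site d × Site d)} {y : Site d} :
    ¬ Free Z y ↔ ∃ z ∈ Z, y ∈ Set.Icc z.1 z.2 := by
  unfold Free
  push Not
  rfl

/-- If `y` is free and its neighbour in direction `i` is in a zone then `y` is at the face. -/
theorem face_of_adj {Z : Set (Site d × Site d)} {y : Site d} (hy : Free Z y) {z : Site d × Site d}
    (hz : z ∈ Z) (i : Fin d) (s : ℤ) (hs : s = 1 ∨ s = -1) (h : y + s • ee i ∈ Set.Icc z.1 z.2) :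
    (s = 1 ∧ y i = z.1 i - 1) ∨ (s = -1 ∧ y i = z.2 i + 1) := by
  have h1 := not_mem_box.mp (hy z hz)
  rw [mem_box] at h
  obtain ⟨j, hj⟩ := h1
  have h2 := h j
  have h3 := h i
  rw [add_smul_ee_apply] at h2 h3
  rw [if_pos rfl] at h3
  by_cases hji : j = i
  · subst hji
    rw [if_pos rfl] at h2
    omega
  · rw [if_neg hji] at h2
    omega

/-- Two blocked directions coincide. -/
theorem blocked_unique {Z : Set (Site d × Site d)}
    (sep : ∀ z ∈ Z, ∀ z' ∈ Z, z ≠ z' → ∃ i, z.2 i + 5 ≤ z'.1 i ∨ z'.2 i + 5 ≤ z.1 i)
    {y : Site d} (hy : Free Z y) {z z' : Site d × Site d} (hz : z ∈ Z) (hz' : z' ∈ Z)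
    (i j : Fin d) (s s' : ℤ) (hs : s = 1 ∨ s = -1) (hs' : s' = 1 ∨ s' = -1)
    (h : y + s • ee i ∈ Set.Icc z.1 z.2) (h' : y + s' • ee j ∈ Set.Icc z'.1 z'.2) :
    z = z' ∧ i = j := by
  have hzz : z = z' := by
    by_contra hne
    obtain ⟨k, hk⟩ := sep z hz z' hz' hne
    have h1 := (mem_box.mp h) k
    have h2 := (mem_box.mp h') k
    rw [add_smul_ee_apply] at h1 h2
    split_ifs at h1 h2 <;> omega
  subst hzz
  refine ⟨rfl, ?_⟩
  by_contra hij
  apply hy z hz
  rw [mem_box]
  intro k
  have h1 := (mem_box.mp h) k
  have h2 := (mem_box.mp h') k
  rw [add_smul_ee_apply] at h1 h2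
  by_cases hk : k = i
  · rw [if_neg (fun h3 => hij (by rw [← hk, h3]))] at h2
    exact h2
  · rw [if_neg hk] at h1
    exact h1

theorem fill_core (lo : Site d) (n ρ r : ℕ) (hn : 10 * (ρ + 10) ≤ n)
    (Z : Set (Site d × Site d))
    (sep : ∀ z ∈ Z, ∀ z' ∈ Z, z ≠ z' → ∃ i, z.2 i + 5 ≤ z'.1 i ∨ z'.2 i + 5 ≤ z.1 i)
    (small : ∀ z ∈ Z, ∀ i, z.2 i - z.1 i + 2 ≤ (ρ : ℤ))
    (face : ∀ z ∈ Z, ∀ i, z.1 i - 1 ≠ lo i ∧ z.2 i + 1 ≠ lo i)
    (S J : Finset (Fin d)) (σ : Fin d → ℤ) (hσ : ∀ i, σ i = 1 ∨ σ i = -1)
    (hσJ : ∀ i ∈ J, σ i = 1)
    (hJS : J ⊆ S) (hr : r ≤ S.card + 1) (hrd : r + 2 ≤ d)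
    (F : Site d → Prop)
    (rule : ∀ y : Site d, (∀ j, lo j ≤ y j ∧ y j < lo j + n) → Free Z y →
      ∀ (S' J' : Finset (Fin d)) (σ' : Fin d → ℤ), (∀ i, σ' i = 1 ∨ σ' i = -1) →
      J' ⊆ S' → r ≤ S'.card → (∀ i ∈ S', F (y + σ' i • ee i)) →
      (∀ i ∈ J', F (y + ee i) ∧ F (y - ee i)) →
      (∀ i ∈ J, y i = lo i → i ∈ J') → F y)
    (outS : ∀ i ∈ S, ∀ y : Site d, (∀ j, lo j ≤ y j ∧ y j < lo j + n) →
      ¬ (lo i ≤ y i + σ i ∧ y i + σ i < lo i + n) → Free Z (y + σ i • ee i) →
      F (y + σ i • ee i))
    (outJ : ∀ i ∈ J, ∀ y : Site d, (∀ j, lo j ≤ y j ∧ y j < lo j + n) → y i = lo i →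
      Free Z (y - ee i) → F (y - ee i))
    (seed : ∀ y : Site d, (∀ j, lo j ≤ y j ∧ y j < lo j + n) → ∀ i,
      ∃ y' : Site d, (∀ j, lo j ≤ y' j ∧ y' j < lo j + n) ∧ (∀ j, j ≠ i → y' j = y j) ∧
      F y' ∧ ∀ z ∈ Z, ∃ j, y' j + 2 ≤ z.1 j ∨ z.2 j + 2 ≤ y' j) :
    ∀ y : Site d, (∀ j, lo j ≤ y j ∧ y j < lo j + n) → Free Z y → F y := by
  classical
  -- distance to the upstream side
  let μ : Site d → ℕ := fun y =>
    ∑ i ∈ S, (if σ i = 1 then (lo i + n - y i).natAbs else (y i - lo i + 1).natAbs)
  have main : ∀ (m : ℕ) (y : Site d), (∀ j, lo j ≤ y j ∧ y j < lo j + n) → μ y ≤ m →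
      Free Z y → F y := by
    intro m
    induction m using Nat.strong_induction_on with
    | _ m ih =>
    intro y₀ hy₀ hμ₀ hfree₀
    -- flat
    let Fl : Site d → Prop := fun y => (∀ j, lo j ≤ y j ∧ y j < lo j + n) ∧ ∀ i ∈ S, y i = y₀ i
    have hFlμ : ∀ y, Fl y → μ y = μ y₀ := by
      intro y hy
      apply Finset.sum_congr rfl
      intro i hi
      rw [hy.2 i hi]
    -- Step A : upstream neighbours
    have up : ∀ y, Fl y → ∀ i ∈ S, Free Z (y + σ i • ee i) → F (y + σ i • ee i) := by
      intro y hy i hi hfr
      by_cases hin : lo i ≤ y i + σ i ∧ y i + σ i < lo i + n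
      · have hbox : ∀ j, lo j ≤ (y + σ i • ee i) j ∧ (y + σ i • ee i) j < lo j + n := by
          intro j
          rw [add_smul_ee_apply]
          by_cases hj : j = i
          · subst hj; rw [if_pos rfl]; exact hin
          · rw [if_neg hj]; exact hy.1 j
        have hlt : μ (y + σ i • ee i) < μ y := by
          apply Finset.sum_lt_sum
          · intro j hj
            rw [add_smul_ee_apply]
            by_cases hji : j = i
            · subst hji
              rw [if_pos rfl]
              have h1 := hy.1 j
              rcases hσ j with h2 | h2
              · rw [if_pos h2, if_pos h2]; omega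
              · rw [if_neg (by omega), if_neg (by omega)]; omega
            · rw [if_neg hji]
          · refine ⟨i, hi, ?_⟩
            rw [add_smul_ee_apply, if_pos rfl]
            have h1 := hy.1 i
            rcases hσ i with h2 | h2
            · rw [if_pos h2, if_pos h2]; omega
            · rw [if_neg (by omega), if_neg (by omega)]; omega
        rw [hFlμ y hy] at hlt
        exact ih _ (by omega) _ hbox le_rfl hfr
      · exact outS i hi y hy.1 hin hfr
    -- Step B : both neighbours in direction of J
    have both : ∀ y, Fl y → Free Z y → ∀ i ∈ J, y i = lo i → F (y + ee i) ∧ F (y - ee i) := by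
      intro y hy hfr i hi hyi
      have hfp : Free Z (y + (1 : ℤ) • ee i) := by
        by_contra hcon
        obtain ⟨z, hz, hyz⟩ := not_free.mp hcon
        have h1 := face_of_adj hfr hz i 1 (Or.inl rfl) hyz
        have h2 := (face z hz i)
        omega
      have hfm : Free Z (y + (-1 : ℤ) • ee i) := by
        by_contra hcon
        obtain ⟨z, hz, hyz⟩ := not_free.mp hcon
        have h1 := face_of_adj hfr hz i (-1) (Or.inr rfl) hyz
        have h2 := (face z hz i)
        omega
      constructor
      · have h1 := up y hy i (hJS hi)
        rw [hσJ i hi, one_smul_ee] at h1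
        rw [one_smul_ee] at hfp
        exact h1 hfp
      · rw [neg_one_smul_ee] at hfm
        exact outJ i hi y hy.1 hyi hfm
    have hFl₀ : Fl y₀ := ⟨hy₀, fun _ _ => rfl⟩
    by_cases hcase : d ≤ S.card + 1
    · -- all but at most one direction
      apply rule y₀ hy₀ hfree₀ (S.filter (fun i => Free Z (y₀ + σ i • ee i)))
        (J.filter (fun i => y₀ i = lo i)) σ hσ
      · intro i hi
        rw [Finset.mem_filter] at hi ⊢
        refine ⟨hJS hi.1, ?_⟩
        rw [hσJ i hi.1]
        by_contra hcon
        obtain ⟨z, hz, hyz⟩ := not_free.mp hcon
        have h1 := face_of_adj hfree₀ hz i 1 (Or.inl rfl) hyz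
        have h2 := (face z hz i)
        have h3 := hi.2
        omega
      · -- cardinality
        have h1 : (S.filter (fun i => ¬ Free Z (y₀ + σ i • ee i))).card ≤ 1 := by
          rw [Finset.card_le_one]
          intro i hi j hj
          rw [Finset.mem_filter] at hi hj
          obtain ⟨z, hz, hyz⟩ := not_free.mp hi.2
          obtain ⟨z', hz', hyz'⟩ := not_free.mp hj.2
          exact (blocked_unique sep hfree₀ hz hz' i j (σ i) (σ j) (hσ i) (hσ j) hyz hyz').2
        have h2 := Finset.card_filter_add_card_filter_not (s := S)
          (fun i => Free Z (y₀ + σ i • ee i))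
        omega
      · intro i hi
        rw [Finset.mem_filter] at hi
        exact up y₀ hFl₀ i hi.1 hi.2
      · intro i hi
        rw [Finset.mem_filter] at hi
        exact both y₀ hFl₀ hfree₀ i hi.1 hi.2
      · intro i hi h1
        rw [Finset.mem_filter]
        exact ⟨hi, h1⟩
    · push Not at hcase
      -- strong blocks
      let Strong : Site d → Prop := fun y => Free Z y ∧ ∀ i ∈ S, Free Z (y + σ i • ee i)
      have D1 : ∀ y, Fl y → Strong y → ∀ j, j ∉ S → ∀ t : ℤ, (t = 1 ∨ t = -1) →
          F (y + t • ee j) → F y := by
        intro y hy hst j hj t ht hF
        apply rule y hy.1 hst.1 (insert j S) (J.filter (fun i => y i = lo i))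
          (Function.update σ j t)
        · intro i
          by_cases hi : i = j
          · subst hi; rw [Function.update_self]; exact ht
          · rw [Function.update_of_ne hi]; exact hσ i
        · intro i hi
          rw [Finset.mem_filter] at hi
          exact Finset.mem_insert_of_mem (hJS hi.1)
        · rw [Finset.card_insert_of_notMem hj]; exact hr
        · intro i hi
          by_cases hij : i = j
          · subst hij; rw [Function.update_self]; exact hF
          · rw [Function.update_of_ne hij]
            rcases Finset.mem_insert.mp hi with h1 | h1
            · exact absurd h1 hij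
            · exact up y hy i h1 (hst.2 i h1)
        · intro i hi
          rw [Finset.mem_filter] at hi
          exact both y hy hst.1 i hi.1 hi.2
        · intro i hi h1
          rw [Finset.mem_filter]
          exact ⟨hi, h1⟩
      -- traces of zones on the flat
      let Cz : Site d × Site d → Prop := fun z =>
        (∀ i ∈ S, z.1 i ≤ y₀ i ∧ y₀ i ≤ z.2 i) ∨
        ∃ m ∈ S, ∀ i ∈ S, z.1 i ≤ (if i = m then y₀ i + σ i else y₀ i) ∧
          (if i = m then y₀ i + σ i else y₀ i) ≤ z.2 i
      let Tr : Site d × Site d → Site d → Prop := fun z y =>
        Cz z ∧ ∀ i, i ∉ S → z.1 i ≤ y i ∧ y i ≤ z.2 i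
      let Rg : Site d × Site d → Site d → Prop := fun z y =>
        Cz z ∧ (∀ i, i ∉ S → z.1 i - 1 ≤ y i ∧ y i ≤ z.2 i + 1) ∧
          ∃ i, i ∉ S ∧ (y i < z.1 i ∨ z.2 i < y i)
      have trace_of_not_strong : ∀ y, Fl y → ¬ Strong y → ∃ z ∈ Z, Tr z y := by
        intro y hy hns
        by_cases hfr : Free Z y
        · have h1 : ∃ i ∈ S, ¬ Free Z (y + σ i • ee i) := by
            by_contra hcon
            push Not at hcon
            exact hns ⟨hfr, hcon⟩
          obtain ⟨m, hm, hm2⟩ := h1
          obtain ⟨z, hz, hyz⟩ := not_free.mp hm2
          rw [mem_box] at hyz
          refine ⟨z, hz, Or.inr ⟨m, hm, ?_⟩, ?_⟩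
          · intro i hi
            have h2 := hyz i
            rw [add_smul_ee_apply, hy.2 i hi] at h2
            by_cases him : i = m
            · subst him
              rw [if_pos rfl] at h2 ⊢
              exact h2
            · rw [if_neg him] at h2 ⊢
              exact h2
          · intro i hi
            have h2 := hyz i
            rw [add_smul_ee_apply, if_neg (fun h3 => hi (by rw [h3]; exact hm))] at h2
            exact h2
        · obtain ⟨z, hz, hyz⟩ := not_free.mp hfr
          rw [mem_box] at hyz
          refine ⟨z, hz, Or.inl ?_, ?_⟩
          · intro i hi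
            have h2 := hyz i
            rw [hy.2 i hi] at h2
            exact h2
          · intro i _
            exact hyz i
      have not_strong_of_trace : ∀ y, Fl y → ∀ z ∈ Z, Tr z y → ¬ Strong y := by
        intro y hy z hz hT hst
        obtain ⟨hC, hT⟩ := hT
        rcases hC with hC | ⟨m, hm, hC⟩
        · apply hst.1 z hz
          rw [mem_box]
          intro i
          by_cases hi : i ∈ S
          · rw [hy.2 i hi]; exact hC i hi
          · exact hT i hi
        · apply hst.2 m hm z hz
          rw [mem_box]
          intro i
          rw [add_smul_ee_apply]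
          by_cases hi : i ∈ S
          · have h2 := hC i hi
            rw [hy.2 i hi]
            by_cases him : i = m
            · subst him
              rw [if_pos rfl] at h2 ⊢
              exact h2
            · rw [if_neg him] at h2 ⊢
              exact h2
          · rw [if_neg (fun h3 => hi (by rw [h3]; exact hm))]
            exact hT i hi
      have Cz_near : ∀ z, Cz z → ∀ i ∈ S, z.1 i - 1 ≤ y₀ i ∧ y₀ i ≤ z.2 i + 1 := by
        intro z hz i hi
        rcases hz with hC | ⟨m, hm, hC⟩
        · have := hC i hi
          omega
        · have h1 := hC i hi
          have h2 := hσ i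
          split_ifs at h1 <;> omega
      have ring_strong : ∀ y, Fl y → ∀ z ∈ Z, Rg z y → Strong y := by
        intro y hy z hz hR
        by_contra hns
        obtain ⟨z', hz', hT'⟩ := trace_of_not_strong y hy hns
        obtain ⟨hC, hR1, i, hi, hR2⟩ := hR
        obtain ⟨hC', hT1⟩ := hT'
        by_cases hzz : z = z'
        · subst hzz
          have := hT1 i hi
          omega
        · obtain ⟨k, hk⟩ := sep z hz z' hz' hzz
          by_cases hkS : k ∈ S
          · have h1 := Cz_near z hC k hkS
            have h2 := Cz_near z' hC' k hkS
            omega
          · have h1 := hR1 k hkS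
            have h2 := hT1 k hkS
            omega
      have ring_closed : ∀ z ∈ Z, ∀ w, Fl w → Tr z w → ∀ y y', Fl y → Fl y' → Rg z y → Rg z y' →
          F y → F y' := by
        intro z hz w hw hTw y y' hy hy' hR hR' hF
        have hmem : ∀ v, Fl v → Rg z v → v ∈ Set.Icc
            (fun i => if i ∈ S then y₀ i else max (lo i) (z.1 i - 1))
            (fun i => if i ∈ S then y₀ i else min (lo i + n - 1) (z.2 i + 1)) := by
          intro v hv hRv
          rw [mem_box]
          intro i
          by_cases hi : i ∈ S
          · simp only [if_pos hi]
            rw [hv.2 i hi]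
            exact ⟨le_rfl, le_rfl⟩
          · simp only [if_neg hi]
            have h1 := hv.1 i
            have h2 := hRv.2.1 i hi
            constructor
            · apply max_le <;> omega
            · apply le_min <;> omega
        have hback : ∀ v, v ∈ Set.Icc
            (fun i => if i ∈ S then y₀ i else max (lo i) (z.1 i - 1))
            (fun i => if i ∈ S then y₀ i else min (lo i + n - 1) (z.2 i + 1)) →
            (∃ i ∈ Sᶜ, v i < z.1 i ∨ z.2 i < v i) → Fl v ∧ Rg z v := by
          intro v hv hvR
          rw [mem_box] at hv
          have h1 : Fl v := by
            constructor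
            · intro i
              have h2 := hv i
              by_cases hi : i ∈ S
              · simp only [if_pos hi] at h2
                have h3 := hy₀ i
                omega
              · simp only [if_neg hi] at h2
                have h3 := le_trans (le_max_left (lo i) (z.1 i - 1)) h2.1
                have h4 := le_trans h2.2 (min_le_left (lo i + n - 1) (z.2 i + 1))
                omega
            · intro i hi
              have h2 := hv i
              simp only [if_pos hi] at h2
              omega
          refine ⟨h1, hTw.1, ?_, ?_⟩
          · intro i hi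
            have h2 := hv i
            simp only [if_neg hi] at h2
            have h3 := le_trans (le_max_right (lo i) (z.1 i - 1)) h2.1
            have h4 := le_trans h2.2 (min_le_right (lo i + n - 1) (z.2 i + 1))
            omega
          · obtain ⟨i, hi, h2⟩ := hvR
            exact ⟨i, Finset.mem_compl.mp hi, h2⟩
        apply ring_conn (fun i => if i ∈ S then y₀ i else max (lo i) (z.1 i - 1))
            (fun i => if i ∈ S then y₀ i else min (lo i + n - 1) (z.2 i + 1)) z.1 z.2 Sᶜ
            _ _ F _ y y' (hmem y hy hR) (hmem y' hy' hR') _ _ hF
        · rw [Finset.card_compl, Fintype.card_fin]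
          omega
        · intro i hi
          rw [Finset.mem_compl] at hi
          simp only [if_neg hi]
          have h1 := hTw.2 i hi
          have h2 := hw.1 i
          have h3 := small z hz i
          by_cases h4 : lo i ≤ z.1 i - 1
          · refine ⟨z.1 i - 1, ?_, ?_, Or.inl (by omega)⟩
            · apply max_le <;> omega
            · apply le_min <;> omega
          · refine ⟨z.2 i + 1, ?_, ?_, Or.inr (by omega)⟩
            · apply max_le <;> omega
            · apply le_min <;> omega
        · intro v hv j t ht hv' hvR hvR' hFv
          obtain ⟨hFl1, hRg1⟩ := hback v hv hvR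
          obtain ⟨hFl2, hRg2⟩ := hback _ hv' hvR'
          have hj : j ∉ S := by
            intro hj
            have h1 := hFl1.2 j hj
            have h2 := hFl2.2 j hj
            rw [add_smul_ee_apply, if_pos rfl] at h2
            omega
          apply D1 _ hFl2 (ring_strong _ hFl2 z hz hRg2) j hj (-t) (by omega)
          rw [neg_smul, add_neg_cancel_right]
          exact hFv
        · obtain ⟨i, hi, h2⟩ := hR.2.2
          exact ⟨i, Finset.mem_compl.mpr hi, h2⟩
        · obtain ⟨i, hi, h2⟩ := hR'.2.2
          exact ⟨i, Finset.mem_compl.mpr hi, h2⟩
      -- a direction inside the flat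
      obtain ⟨i0, hi0⟩ : ∃ i, i ∉ S := by
        by_contra hcon
        push Not at hcon
        have : S = Finset.univ := Finset.eq_univ_iff_forall.mpr hcon
        rw [this, Finset.card_univ, Fintype.card_fin] at hcase
        omega
      -- the starting seed
      obtain ⟨ys, hys1, hys2, hys3, hys4⟩ := seed y₀ hy₀ i0
      have hFls : Fl ys := ⟨hys1, fun i hi => hys2 i (fun h3 => hi0 (by rw [← h3]; exact hi))⟩
      have hsts : Strong ys := by
        constructor
        · intro z hz hmem
          obtain ⟨j, hj⟩ := hys4 z hz
          have := (mem_box.mp hmem) j
          omega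
        · intro i hi z hz hmem
          obtain ⟨j, hj⟩ := hys4 z hz
          have h1 := (mem_box.mp hmem) j
          rw [add_smul_ee_apply] at h1
          have h2 := hσ i
          split_ifs at h1 <;> omega
      -- propagation
      have D3 : ∀ y, Fl y → Strong y → F y := by
        let W : Site d → Prop := fun y => (Strong y → F y) ∧
          ∀ z ∈ Z, Tr z y → ∀ y'', Fl y'' → Rg z y'' → F y''
        have hW : ∀ y, Fl y → W y := by
          intro y hy
          have hbox : ∀ v, v ∈ Set.Icc (fun i => if i ∈ S then y₀ i else lo i)
              (fun i => if i ∈ S then y₀ i else lo i + n - 1) ↔ Fl v := by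
            intro v
            rw [mem_box]
            constructor
            · intro h
              constructor
              · intro i
                have h2 := h i
                by_cases hi : i ∈ S
                · simp only [if_pos hi] at h2
                  have h3 := hy₀ i
                  omega
                · simp only [if_neg hi] at h2
                  omega
              · intro i hi
                have h2 := h i
                simp only [if_pos hi] at h2
                omega
            · intro h i
              by_cases hi : i ∈ S
              · simp only [if_pos hi]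
                rw [h.2 i hi]
                exact ⟨le_rfl, le_rfl⟩
              · simp only [if_neg hi]
                have := h.1 i
                omega
          apply box_conn (fun i => if i ∈ S then y₀ i else lo i)
              (fun i => if i ∈ S then y₀ i else lo i + n - 1) W _ ys y ((hbox ys).mpr hFls)
              ((hbox y).mpr hy)
          · refine ⟨fun _ => hys3, ?_⟩
            intro z hz hT
            exact absurd hsts (not_strong_of_trace ys hFls z hz hT)
          · intro v hv j t ht hv' hWv
            rw [hbox] at hv hv'
            have hj : j ∉ S := by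
              intro hj
              have h1 := hv.2 j hj
              have h2 := hv'.2 j hj
              rw [add_smul_ee_apply, if_pos rfl] at h2
              omega
            constructor
            · intro hst
              by_cases hsv : Strong v
              · apply D1 _ hv' hst j hj (-t) (by omega)
                rw [neg_smul, add_neg_cancel_right]
                exact hWv.1 hsv
              · obtain ⟨z, hz, hT⟩ := trace_of_not_strong v hv hsv
                apply hWv.2 z hz hT _ hv'
                refine ⟨hT.1, ?_, ?_⟩
                · intro i hi
                  have h1 := hT.2 i hi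
                  rw [add_smul_ee_apply]
                  split_ifs <;> omega
                · by_contra hcon
                  push Not at hcon
                  exact not_strong_of_trace _ hv' z hz ⟨hT.1, fun i hi => by
                    have := hcon i hi; omega⟩ hst
            · intro z hz hT' y'' hy'' hR''
              by_cases hTv : Tr z v
              · exact hWv.2 z hz hTv y'' hy'' hR''
              · have hRv : Rg z v := by
                  refine ⟨hT'.1, ?_, ?_⟩
                  · intro i hi
                    have h1 := hT'.2 i hi
                    rw [add_smul_ee_apply] at h1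
                    split_ifs at h1 <;> omega
                  · by_contra hcon
                    push Not at hcon
                    exact hTv ⟨hT'.1, fun i hi => by have := hcon i hi; omega⟩
                exact ring_closed z hz _ hv' hT' v y'' hv hy'' hRv hR''
                  (hWv.1 (ring_strong v hv z hz hRv))
        intro y hy hst
        exact (hW y hy).1 hst
      by_cases hst₀ : Strong y₀
      · exact D3 y₀ hFl₀ hst₀
      · -- weak case
        have h1 : ∃ m ∈ S, ¬ Free Z (y₀ + σ m • ee m) := by
          by_contra hcon
          push Not at hcon
          exact hst₀ ⟨hfree₀, hcon⟩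
        obtain ⟨m, hm, hm2⟩ := h1
        obtain ⟨z, hz, hyz⟩ := not_free.mp hm2
        have hyface := face_of_adj hfree₀ hz m (σ m) (hσ m) hyz
        rw [mem_box] at hyz
        let τ : Fin d → ℤ := fun i => if i ∈ S then σ i else
          (if z.2 i + 1 < lo i + n then 1 else -1)
        have hτ : ∀ i, τ i = 1 ∨ τ i = -1 := by
          intro i
          by_cases hi : i ∈ S
          · simp only [τ, if_pos hi]; exact hσ i
          · simp only [τ, if_neg hi]
            split_ifs
            · left; rfl
            · right; rfl
        have hCz : Cz z := by
          refine Or.inr ⟨m, hm, ?_⟩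
          intro i hi
          have h2 := hyz i
          rw [add_smul_ee_apply] at h2
          by_cases him : i = m
          · subst him
            rw [if_pos rfl] at h2 ⊢
            exact h2
          · rw [if_neg him] at h2 ⊢
            exact h2
        have weak : ∀ (l : ℕ) (y : Site d), Fl y → (∀ i, i ∉ S → z.1 i ≤ y i ∧ y i ≤ z.2 i) →
            (∑ i ∈ Sᶜ, (if τ i = 1 then (z.2 i - y i).natAbs else (y i - z.1 i).natAbs)) ≤ l →
            F y := by
          intro l
          induction l using Nat.strong_induction_on with
          | _ l ihl =>
          intro y hy hyT hsum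
          -- y + σ m e m ∈ z
          have hymz : y + σ m • ee m ∈ Set.Icc z.1 z.2 := by
            rw [mem_box]
            intro i
            rw [add_smul_ee_apply]
            by_cases hi : i ∈ S
            · have h2 := hyz i
              rw [add_smul_ee_apply] at h2
              rw [hy.2 i hi]
              exact h2
            · rw [if_neg (fun h3 => hi (by rw [h3]; exact hm))]
              exact hyT i hi
          have hfr : Free Z y := by
            intro z' hz' hmem
            rw [mem_box] at hmem
            by_cases hzz : z = z'
            · subst hzz
              have h2 := hmem m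
              rw [hy.2 m hm] at h2
              omega
            · obtain ⟨k, hk⟩ := sep z hz z' hz' hzz
              have h2 := hmem k
              have h3 := (mem_box.mp hymz) k
              rw [add_smul_ee_apply] at h3
              have h4 := hσ m
              split_ifs at h3 <;> omega
          have hym : y m = y₀ m := hy.2 m hm
          apply rule y hy.1 hfr (Finset.univ.erase m) (J.filter (fun i => y i = lo i)) τ hτ
          · intro i hi
            rw [Finset.mem_filter] at hi
            rw [Finset.mem_erase]
            refine ⟨?_, Finset.mem_univ i⟩
            intro him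
            subst him
            have h2 := face z hz i
            have h3 := hi.2
            omega
          · rw [Finset.card_erase_of_mem (Finset.mem_univ m), Finset.card_univ, Fintype.card_fin]
            omega
          · intro i hi
            rw [Finset.mem_erase] at hi
            by_cases hiS : i ∈ S
            · have hτi : τ i = σ i := by simp only [τ, if_pos hiS]
              rw [hτi]
              apply up y hy i hiS
              by_contra hcon
              obtain ⟨z', hz', hyz'⟩ := not_free.mp hcon
              exact hi.1 (blocked_unique sep hfr hz' hz i m (σ i) (σ m) (hσ i) (hσ m) hyz' hymz).2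
            · -- in-flat direction
              have hτi : τ i = if z.2 i + 1 < lo i + n then 1 else -1 := by
                simp only [τ, if_neg hiS]
              have hsm := small z hz i
              have hyi := hyT i hiS
              have hbi := hy.1 i
              have hFl' : Fl (y + τ i • ee i) := by
                constructor
                · intro k
                  rw [add_smul_ee_apply]
                  by_cases hk : k = i
                  · subst hk
                    rw [if_pos rfl, hτi]
                    split_ifs <;> omega
                  · rw [if_neg hk]; exact hy.1 k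
                · intro k hk
                  rw [add_smul_ee_apply, if_neg (fun h3 => hiS (by rw [← h3]; exact hk))]
                  exact hy.2 k hk
              by_cases hTin : z.1 i ≤ y i + τ i ∧ y i + τ i ≤ z.2 i
              · -- still in the trace
                have hlt : (∑ k ∈ Sᶜ, (if τ k = 1 then (z.2 k - (y + τ i • ee i) k).natAbs
                    else ((y + τ i • ee i) k - z.1 k).natAbs)) <
                    (∑ k ∈ Sᶜ, (if τ k = 1 then (z.2 k - y k).natAbs
                      else (y k - z.1 k).natAbs)) := by
                  apply Finset.sum_lt_sum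
                  · intro k _
                    rw [add_smul_ee_apply]
                    by_cases hk : k = i
                    · subst hk
                      rw [if_pos rfl]
                      rcases hτ k with h2 | h2
                      · rw [if_pos h2, if_pos h2]; omega
                      · rw [if_neg (by omega), if_neg (by omega)]; omega
                    · rw [if_neg hk]
                  · refine ⟨i, Finset.mem_compl.mpr hiS, ?_⟩
                    rw [add_smul_ee_apply, if_pos rfl]
                    rcases hτ i with h2 | h2
                    · rw [if_pos h2, if_pos h2]; omega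
                    · rw [if_neg (by omega), if_neg (by omega)]; omega
                apply ihl _ (by omega) _ hFl' _ le_rfl
                intro k hk
                rw [add_smul_ee_apply]
                by_cases hki : k = i
                · subst hki; rw [if_pos rfl]; exact hTin
                · rw [if_neg hki]; exact hyT k hk
              · -- in the ring
                apply D3 _ hFl'
                apply ring_strong _ hFl' z hz
                refine ⟨hCz, ?_, ?_⟩
                · intro k hk
                  rw [add_smul_ee_apply]
                  have h2 := hyT k hk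
                  have h3 := hτ i
                  split_ifs <;> omega
                · refine ⟨i, hiS, ?_⟩
                  rw [add_smul_ee_apply, if_pos rfl]
                  omega
          · intro i hi
            rw [Finset.mem_filter] at hi
            exact both y hy hfr i hi.1 hi.2
          · intro i hi h2
            rw [Finset.mem_filter]
            exact ⟨hi, h2⟩
        apply weak _ y₀ hFl₀ _ le_rfl
        intro i hi
        have h2 := hyz i
        rw [add_smul_ee_apply, if_neg (fun h3 => hi (by rw [h3]; exact hm))] at h2
        exact h2
  intro y hy hfr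
  exact main (μ y) y hy le_rfl hfr

end Pool.Agent.Helper94.Sand
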