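import Pool.Agent.Helper94.Sand.Basic

namespace Pool.Agent.Helper94.Sand

variable {d : ℕ}

theorem ee_apply (i j : Fin d) : ee i j = if j = i then (1 : ℤ) else 0 := by
  unfold ee
  rw [Pi.single_apply]

theorem add_smul_ee_apply (y : Site d) (t : ℤ) (i j : Fin d) :
    (y + t • ee i) j = if j = i then y j + t else y j := by
  rw [Pi.add_apply, Pi.smul_apply, ee_apply]
  split_ifs <;> simp

theorem add_ee_apply (y : Site d) (i j : Fin d) :
    (y + ee i) j = if j = i then y j + 1 else y j := by
  rw [Pi.add_apply, ee_apply]
  split_ifs <;> simp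

theorem sub_ee_apply (y : Site d) (i j : Fin d) :
    (y - ee i) j = if j = i then y j - 1 else y j := by
  rw [Pi.sub_apply, ee_apply]
  split_ifs <;> simp

theorem one_smul_ee (y : Site d) (i : Fin d) : y + (1 : ℤ) • ee i = y + ee i := by
  rw [one_smul]

theorem neg_one_smul_ee (y : Site d) (i : Fin d) : y + (-1 : ℤ) • ee i = y - ee i := by
  rw [neg_one_smul, ← sub_eq_add_neg]

theorem mem_box {a b y : Site d} : y ∈ Set.Icc a b ↔ ∀ i, a i ≤ y i ∧ y i ≤ b i := by
  rw [Set.mem_Icc, Pi.le_def, Pi.le_def, forall_and]

theorem not_mem_box {a b y : Site d} : y ∉ Set.Icc a b ↔ ∃ i, y i < a i ∨ b i < y i := by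
  rw [mem_box]
  push Not
  constructor
  · rintro ⟨i, hi⟩
    refine ⟨i, ?_⟩
    by_cases h : a i ≤ y i
    · right; exact hi h
    · left; omega
  · rintro ⟨i, hi⟩
    refine ⟨i, fun h => ?_⟩
    omega

theorem coarse_apply (n : ℕ) (v : Site d) (i : Fin d) : coarse n v i = v i / (n : ℤ) := rfl

theorem coarse_eq_iff {n : ℕ} (hn : 1 ≤ n) {y x : Site d} :
    coarse n y = x ↔ ∀ i, (n : ℤ) * x i ≤ y i ∧ y i < n * x i + n := by
  constructor
  · rintro rfl i
    have h0 : (0 : ℤ) < n := by exact_mod_cast hn
    rw [coarse_apply]
    have h1 := Int.emod_add_mul_ediv (y i) n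
    have h2 := Int.emod_nonneg (y i) (ne_of_gt h0)
    have h3 := Int.emod_lt_of_pos (y i) h0
    constructor <;> linarith
  · intro h
    funext i
    have h0 : (0 : ℤ) < n := by exact_mod_cast hn
    obtain ⟨h1, h2⟩ := h i
    rw [coarse_apply]
    apply le_antisymm
    · apply Int.le_of_lt_add_one
      apply Int.ediv_lt_of_lt_mul h0
      linarith
    · apply Int.le_ediv_of_mul_le h0
      linarith

theorem coarse_one (v : Site d) : coarse 1 v = v := by
  funext i
  simp [coarse]

theorem coarse_mul (N n : ℕ) (v : Site d) : coarse (N * n) v = coarse n (coarse N v) := by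
  funext i
  simp only [coarse]
  push_cast
  rw [Int.ediv_ediv_of_nonneg (by positivity)]

/-- Connectivity of a box. -/
theorem box_conn (a b : Site d) (P : Site d → Prop)
    (hP : ∀ y ∈ Set.Icc a b, ∀ (j : Fin d) (t : ℤ), (t = 1 ∨ t = -1) →
      y + t • ee j ∈ Set.Icc a b → P y → P (y + t • ee j))
    (y y' : Site d) (hy : y ∈ Set.Icc a b) (hy' : y' ∈ Set.Icc a b) (h : P y) : P y' := by
  -- induction on the ℓ1 distance
  have key : ∀ (m : ℕ) (w : Site d), w ∈ Set.Icc a b → P w →
      (∑ i, (y' i - w i).natAbs) = m → P y' := by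
    intro m
    induction m with
    | zero =>
      intro w hw hPw hsum
      have : w = y' := by
        funext i
        have h1 := (Finset.sum_eq_zero_iff.mp hsum) i (Finset.mem_univ i)
        omega
      rwa [this] at hPw
    | succ m ih =>
      intro w hw hPw hsum
      -- there is a coordinate where they differ
      have hex : ∃ i, y' i ≠ w i := by
        by_contra hcon
        push Not at hcon
        have : (∑ i, (y' i - w i).natAbs) = 0 := by
          apply Finset.sum_eq_zero
          intro i _
          rw [hcon i]; simp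
        omega
      obtain ⟨i, hi⟩ := hex
      set t : ℤ := if w i < y' i then 1 else -1 with ht
      have ht1 : t = 1 ∨ t = -1 := by
        by_cases h1 : w i < y' i
        · left; rw [ht, if_pos h1]
        · right; rw [ht, if_neg h1]
      have hw' : w + t • ee i ∈ Set.Icc a b := by
        rw [mem_box] at hw hy' ⊢
        intro j
        rw [add_smul_ee_apply]
        by_cases hj : j = i
        · subst hj
          rw [if_pos rfl]
          have h1 := hw j
          have h2 := hy' j
          by_cases h3 : w j < y' j
          · rw [ht, if_pos h3]; omega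
          · rw [ht, if_neg h3]; omega
        · rw [if_neg hj]; exact hw j
      apply ih (w + t • ee i) hw' (hP w hw i t ht1 hw' hPw)
      have h2 : (∑ j, (y' j - (w + t • ee i) j).natAbs) + 1 = ∑ j, (y' j - w j).natAbs := by
        rw [← Finset.add_sum_erase Finset.univ (fun j => (y' j - (w + t • ee i) j).natAbs)
          (Finset.mem_univ i), ← Finset.add_sum_erase Finset.univ (fun j => (y' j - w j).natAbs)
          (Finset.mem_univ i)]
        have h3 : ∑ j ∈ Finset.univ.erase i, (y' j - (w + t • ee i) j).natAbs
            = ∑ j ∈ Finset.univ.erase i, (y' j - w j).natAbs := by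
          apply Finset.sum_congr rfl
          intro j hj
          rw [add_smul_ee_apply, if_neg (Finset.ne_of_mem_erase hj)]
        rw [h3]
        have h4 : (y' i - (w + t • ee i) i).natAbs + 1 = (y' i - w i).natAbs := by
          rw [add_smul_ee_apply, if_pos rfl]
          by_cases h3 : w i < y' i
          · rw [ht, if_pos h3]; omega
          · rw [ht, if_neg h3]; omega
        omega
      omega
  exact key _ y hy h rfl

end Pool.Agent.Helper94.Sand
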