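import Pool.Agent.Helper94.Sand.Lemmas

open MeasureTheory ProbabilityTheory
open scoped NNReal

namespace Pool.Agent.Helper94.Sand

variable {d : ℕ}

/-- `v` topples in the update from time `t` to time `t + 1`. -/
def Tp (A : Site d → ℤ) (t : ℕ) (v : Site d) : Prop := 2 * (d : ℤ) ≤ height A t v

/-- Before time `T`, `w` toppled at or after the time of the last toppling of `v` (at any time if
`v` has not toppled). -/
def After (A : Site d → ℤ) : ℕ → Site d → Site d → Prop
  | 0, _, _ => False
  | T + 1, v, w => (Tp A T v ∧ Tp A T w) ∨ (¬ Tp A T v ∧ (After A T v w ∨ Tp A T w))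

/-- `v` toppled before time `T`. -/
def Toppled (A : Site d → ℤ) (T : ℕ) (v : Site d) : Prop := ∃ t, t < T ∧ Tp A t v

open Classical in
/-- indicator -/
noncomputable def ind (P : Prop) : ℝ := if P then 1 else 0

theorem ind_nonneg (P : Prop) : 0 ≤ ind P := by
  unfold ind; split_ifs <;> simp

theorem ind_le_one (P : Prop) : ind P ≤ 1 := by
  unfold ind; split_ifs <;> simp

theorem height_succ (A : Site d → ℤ) (t : ℕ) (v : Site d) :
    ((height A (t + 1) v : ℤ) : ℝ) = (height A t v : ℝ) - 2 * d * ind (Tp A t v) +
      ∑ i, (ind (Tp A t (v + ee i)) + ind (Tp A t (v - ee i))) := by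
  unfold ind Tp
  simp only [height, step]
  push_cast
  congr 1
  · split_ifs <;> simp
  · apply Finset.sum_congr rfl
    intro i _
    split_ifs <;> simp

theorem after_or (A : Site d → ℤ) (T : ℕ) (v w : Site d) (h : Toppled A T v) :
    After A T v w ∨ After A T w v := by
  have key : ∀ T, (Toppled A T v ∨ Toppled A T w) → After A T v w ∨ After A T w v := by
    intro T
    induction T with
    | zero =>
      rintro (⟨t, ht, -⟩ | ⟨t, ht, -⟩) <;> omega
    | succ T ih =>
      intro h
      simp only [After]
      by_cases hv : Tp A T v
      · by_cases hw : Tp A T w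
        · exact Or.inl (Or.inl ⟨hv, hw⟩)
        · exact Or.inr (Or.inr ⟨hw, Or.inr hv⟩)
      · by_cases hw : Tp A T w
        · exact Or.inl (Or.inr ⟨hv, Or.inr hw⟩)
        · have h' : Toppled A T v ∨ Toppled A T w := by
            rcases h with ⟨t, ht, h⟩ | ⟨t, ht, h⟩
            · left
              refine ⟨t, ?_, h⟩
              rcases Nat.lt_succ_iff_lt_or_eq.mp ht with h1 | h1
              · exact h1
              · subst h1; exact absurd h hv
            · right
              refine ⟨t, ?_, h⟩
              rcases Nat.lt_succ_iff_lt_or_eq.mp ht with h1 | h1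
              · exact h1
              · subst h1; exact absurd h hw
          rcases ih h' with h1 | h1
          · exact Or.inl (Or.inr ⟨hv, Or.inl h1⟩)
          · exact Or.inr (Or.inr ⟨hw, Or.inl h1⟩)
  exact key T (Or.inl h)

theorem height_ge (A : Site d → ℤ) (hA : ∀ v, 0 ≤ A v) (T : ℕ) (v : Site d) :
    ∑ i, (ind (After A T v (v + ee i)) + ind (After A T v (v - ee i))) ≤
      (height A T v : ℝ) := by
  induction T with
  | zero =>
    have h1 : ((0 : ℤ) : ℝ) ≤ ((A v : ℤ) : ℝ) := by exact_mod_cast hA v
    simp only [After, height, ind, if_false]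
    simpa using h1
  | succ T ih =>
    rw [height_succ]
    by_cases hv : Tp A T v
    · have h1 : (2 * (d : ℝ)) ≤ (height A T v : ℝ) := by
        have : 2 * (d : ℤ) ≤ height A T v := hv
        exact_mod_cast this
      have h2 : ∀ w, After A (T + 1) v w ↔ Tp A T w := by
        intro w
        simp only [After]
        constructor
        · rintro (h | h)
          · exact h.2
          · exact absurd hv h.1
        · intro h
          exact Or.inl ⟨hv, h⟩
      simp only [h2]
      have h3 : ind (Tp A T v) = 1 := by unfold ind; rw [if_pos hv]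
      rw [h3]
      linarith
    · have h2 : ∀ w, ind (After A (T + 1) v w) ≤ ind (After A T v w) + ind (Tp A T w) := by
        intro w
        simp only [After]
        unfold ind
        split_ifs <;> simp_all
      have h3 : ind (Tp A T v) = 0 := by unfold ind; rw [if_neg hv]
      rw [h3]
      calc ∑ i, (ind (After A (T + 1) v (v + ee i)) + ind (After A (T + 1) v (v - ee i)))
          ≤ ∑ i, ((ind (After A T v (v + ee i)) + ind (Tp A T (v + ee i))) +
              (ind (After A T v (v - ee i)) + ind (Tp A T (v - ee i)))) :=
            Finset.sum_le_sum (fun i _ => add_le_add (h2 _) (h2 _))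
        _ = ∑ i, (ind (After A T v (v + ee i)) + ind (After A T v (v - ee i))) +
              ∑ i, (ind (Tp A T (v + ee i)) + ind (Tp A T (v - ee i))) := by
            rw [← Finset.sum_add_distrib]
            apply Finset.sum_congr rfl
            intro i _
            ring
        _ ≤ _ := by linarith

/-- Shifted configuration. -/
theorem height_shift (A : Site d → ℤ) (u : Site d) (t : ℕ) (v : Site d) :
    height (fun v => A (v + u)) t v = height A t (v + u) := by
  induction t generalizing v with
  | zero => rfl
  | succ t ih =>
    simp only [height, step, ih]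
    congr 1
    apply Finset.sum_congr rfl
    intro i _
    rw [show v + ee i + u = v + u + ee i by abel, show v - ee i + u = v + u - ee i by abel]

theorem tp_shift (A : Site d → ℤ) (u : Site d) (t : ℕ) (v : Site d) :
    Tp (fun v => A (v + u)) t v ↔ Tp A t (v + u) := by
  unfold Tp
  rw [height_shift]

theorem after_shift (A : Site d → ℤ) (u : Site d) (t : ℕ) (v w : Site d) :
    After (fun v => A (v + u)) t v w ↔ After A t (v + u) (w + u) := by
  induction t with
  | zero => rfl
  | succ t ih => simp only [After, tp_shift, ih]

/-- The configuration space. -/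
abbrev Conf (d : ℕ) := Site d → ℕ

/-- The heights as function of the initial configuration. -/
abbrev cst (A : Conf d) : Site d → ℤ := fun v => (A v : ℤ)

theorem measurable_height (t : ℕ) (v : Site d) :
    Measurable (fun A : Conf d => height (cst A) t v) := by
  induction t generalizing v with
  | zero =>
    simp only [height]
    exact (measurable_of_countable (fun n : ℕ => (n : ℤ))).comp (measurable_pi_apply v)
  | succ t ih =>
    simp only [height, step]
    apply Measurable.add
    · exact (measurable_of_countable
        (fun x : ℤ => x - (if 2 * (d : ℤ) ≤ x then 2 * (d : ℤ) else 0))).comp (ih v)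
    · apply Finset.measurable_sum
      intro i _
      apply Measurable.add
      · exact (measurable_of_countable
          (fun x : ℤ => (if 2 * (d : ℤ) ≤ x then (1 : ℤ) else 0))).comp (ih _)
      · exact (measurable_of_countable
          (fun x : ℤ => (if 2 * (d : ℤ) ≤ x then (1 : ℤ) else 0))).comp (ih _)

theorem measurableSet_tp (t : ℕ) (v : Site d) :
    MeasurableSet {A : Conf d | Tp (cst A) t v} := by
  have h1 : MeasurableSet {x : ℤ | 2 * (d : ℤ) ≤ x} := MeasurableSet.of_discrete
  exact measurable_height t v h1

theorem measurableSet_after (t : ℕ) (v w : Site d) :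
    MeasurableSet {A : Conf d | After (cst A) t v w} := by
  induction t with
  | zero =>
    simp only [After]
    exact MeasurableSet.const _
  | succ t ih =>
    have h1 : {A : Conf d | After (cst A) (t + 1) v w} =
        ({A : Conf d | Tp (cst A) t v} ∩ {A : Conf d | Tp (cst A) t w}) ∪
        ({A : Conf d | Tp (cst A) t v}ᶜ ∩
          ({A : Conf d | After (cst A) t v w} ∪ {A : Conf d | Tp (cst A) t w})) := rfl
    rw [h1]
    exact ((measurableSet_tp t v).inter (measurableSet_tp t w)).union
      ((measurableSet_tp t v).compl.inter (ih.union (measurableSet_tp t w)))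

theorem measurableSet_toppled (T : ℕ) (v : Site d) :
    MeasurableSet {A : Conf d | Toppled (cst A) T v} := by
  have h1 : {A : Conf d | Toppled (cst A) T v} =
      ⋃ t, ⋃ (_ : t < T), {A : Conf d | Tp (cst A) t v} := by
    ext A
    simp only [Set.mem_iUnion, Toppled, Set.mem_ofPred_eq, exists_prop]
  rw [h1]
  exact MeasurableSet.iUnion (fun t => MeasurableSet.iUnion (fun _ => measurableSet_tp t v))

theorem ind_eq_indicator (P : Conf d → Prop) :
    (fun A => ind (P A)) = Set.indicator {A | P A} (fun _ => (1 : ℝ)) := by
  classical
  funext A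
  unfold ind Set.indicator
  simp only [Set.mem_ofPred_eq]

theorem integrable_ind (μ : Measure (Conf d)) [IsFiniteMeasure μ] (P : Conf d → Prop)
    (hP : MeasurableSet {A | P A}) : Integrable (fun A => ind (P A)) μ := by
  rw [ind_eq_indicator]
  exact (integrable_const 1).indicator hP

theorem integral_ind (μ : Measure (Conf d)) [IsFiniteMeasure μ] (P : Conf d → Prop)
    (hP : MeasurableSet {A | P A}) : ∫ A, ind (P A) ∂μ = μ.real {A | P A} := by
  rw [ind_eq_indicator, integral_indicator_const _ hP]
  simp

/-- Mean of the Poisson law. -/
theorem poisson_mean (l : ℝ≥0) :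
    Integrable (fun n : ℕ => (n : ℝ)) (poissonMeasure l) ∧
      ∫ n : ℕ, (n : ℝ) ∂(poissonMeasure l) = l := by
  have h1 : HasSum (fun n : ℕ => Real.exp (-l) * (l : ℝ) ^ n / (n.factorial : ℝ) * (n : ℝ)) l := by
    have h2 := (hasSum_one_poissonMeasure l).mul_left (l : ℝ)
    have e : (fun n : ℕ => Real.exp (-l) * (l : ℝ) ^ (n + 1) / ((n + 1).factorial : ℝ) *
        ((n + 1 : ℕ) : ℝ)) = fun n : ℕ => (l : ℝ) * (Real.exp (-l) * (l : ℝ) ^ n / (n.factorial : ℝ)) := by
      funext n
      have h4 : ((n.factorial : ℕ) : ℝ) ≠ 0 := by exact_mod_cast Nat.factorial_ne_zero n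
      have h5 : ((n + 1 : ℕ) : ℝ) ≠ 0 := by exact_mod_cast Nat.succ_ne_zero n
      rw [Nat.factorial_succ]
      push_cast at h5 ⊢
      field_simp
      ring
    have h3 : HasSum (fun n : ℕ => Real.exp (-l) * (l : ℝ) ^ (n + 1) / ((n + 1).factorial : ℝ) *
        ((n + 1 : ℕ) : ℝ)) ((l : ℝ) * 1) := by
      rw [e]
      exact h2
    have h4 := (hasSum_nat_add_iff (f := fun n : ℕ =>
      Real.exp (-l) * (l : ℝ) ^ n / (n.factorial : ℝ) * (n : ℝ)) 1).mp h3
    simpa using h4
  have h2 : Integrable (fun n : ℕ => (n : ℝ)) (poissonMeasure l) := by
    rw [integrable_poissonMeasure_iff]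
    simpa using h1.summable
  refine ⟨h2, ?_⟩
  rw [integral_poissonMeasure]
  simpa using h1.tsum_eq

/-- The law of the initial configuration. -/
noncomputable abbrev law (d : ℕ) (l : ℝ≥0) : Measure (Conf d) :=
  Measure.infinitePi (fun _ : Site d => poissonMeasure l)

theorem map_shift (l : ℝ≥0) (u : Site d) :
    (law d l).map (fun (A : Conf d) v => A (v + u)) = law d l := by
  have h1 := Measure.infinitePi_map_piCongrLeft (μ := fun _ : Site d => poissonMeasure l)
    (Equiv.addRight (-u) : Site d ≃ Site d)
  have h2 : (⇑(MeasurableEquiv.piCongrLeft (fun _ : Site d => ℕ)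
      (Equiv.addRight (-u) : Site d ≃ Site d))) = (fun (A : Conf d) v => A (v + u)) := by
    funext A v
    have h3 : v = (Equiv.addRight (-u) : Site d ≃ Site d) (v + u) := by simp
    conv_lhs => rw [h3]
    rw [MeasurableEquiv.coe_piCongrLeft, Equiv.piCongrLeft_apply_apply]
  rw [h2] at h1
  exact h1

theorem measurable_shift (u : Site d) : Measurable (fun (A : Conf d) v => A (v + u)) :=
  measurable_pi_lambda _ (fun v => measurable_pi_apply (v + u))

theorem integral_shift (l : ℝ≥0) (u : Site d) (f : Conf d → ℝ) (hf : Measurable f) :
    ∫ A, f (fun v => A (v + u)) ∂(law d l) = ∫ A, f A ∂(law d l) := by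
  conv_rhs => rw [← map_shift l u]
  rw [integral_map (measurable_shift u).aemeasurable hf.aestronglyMeasurable]

theorem measurable_ind (P : Conf d → Prop) (hP : MeasurableSet {A | P A}) :
    Measurable (fun A => ind (P A)) := by
  rw [ind_eq_indicator]
  exact measurable_const.indicator hP

theorem integral_tp (l : ℝ≥0) (t : ℕ) (v : Site d) :
    ∫ A, ind (Tp (cst A) t v) ∂(law d l) = ∫ A, ind (Tp (cst A) t 0) ∂(law d l) := by
  rw [← integral_shift l v (fun A => ind (Tp (cst A) t 0)) (measurable_ind _ (measurableSet_tp t 0))]
  congr 1
  funext A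
  congr 1
  have := tp_shift (cst A) v t 0
  rw [zero_add] at this
  exact propext this.symm

theorem integral_after (l : ℝ≥0) (t : ℕ) (i : Fin d) :
    ∫ A, ind (After (cst A) t 0 (0 - ee i)) ∂(law d l) =
      ∫ A, ind (After (cst A) t (ee i) 0) ∂(law d l) := by
  rw [← integral_shift l (ee i) (fun A => ind (After (cst A) t 0 (0 - ee i)))
    (measurable_ind _ (measurableSet_after t 0 _))]
  congr 1
  funext A
  congr 1
  have := after_shift (cst A) (ee i) t 0 (0 - ee i)
  rw [zero_add, sub_add_cancel] at this
  exact propext this

theorem integrable_height (l : ℝ≥0) (t : ℕ) (v : Site d) :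
    Integrable (fun A : Conf d => (height (cst A) t v : ℝ)) (law d l) := by
  induction t generalizing v with
  | zero =>
    simp only [height]
    have h1 := (measurePreserving_eval_infinitePi (fun _ : Site d => poissonMeasure l) v)
    have h2 := h1.integrable_comp_of_integrable (poisson_mean l).1
    simpa [Function.comp_def] using h2
  | succ t ih =>
    simp only [height_succ]
    apply Integrable.add
    · exact (ih v).sub ((integrable_ind _ _ (measurableSet_tp t v)).const_mul _)
    · apply integrable_finsetSum
      intro i _
      exact (integrable_ind _ _ (measurableSet_tp t _)).add (integrable_ind _ _ (measurableSet_tp t _))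

theorem integral_height (l : ℝ≥0) (t : ℕ) :
    ∫ A : Conf d, (height (cst A) t 0 : ℝ) ∂(law d l) = l := by
  induction t with
  | zero =>
    simp only [height]
    have h1 := (measurePreserving_eval_infinitePi (fun _ : Site d => poissonMeasure l) 0)
    have h2 := (poisson_mean l).2
    rw [← h1.map_eq, integral_map (measurable_pi_apply _).aemeasurable
      (measurable_of_countable _).aestronglyMeasurable] at h2
    simpa using h2
  | succ t ih =>
    simp only [height_succ]
    rw [integral_add, integral_sub, integral_const_mul, ih, integral_finsetSum]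
    · have h1 : ∀ i ∈ (Finset.univ : Finset (Fin d)),
          ∫ A : Conf d, (ind (Tp (cst A) t (0 + ee i)) + ind (Tp (cst A) t (0 - ee i))) ∂(law d l) =
          2 * ∫ A, ind (Tp (cst A) t 0) ∂(law d l) := by
        intro i _
        rw [integral_add, integral_tp, integral_tp l t (0 - ee i)]
        · ring
        · exact integrable_ind _ _ (measurableSet_tp t _)
        · exact integrable_ind _ _ (measurableSet_tp t _)
      rw [Finset.sum_congr rfl h1]
      simp
      ring
    · intro i _
      exact (integrable_ind _ _ (measurableSet_tp t _)).add (integrable_ind _ _ (measurableSet_tp t _))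
    · exact integrable_height l t 0
    · exact (integrable_ind _ _ (measurableSet_tp t 0)).const_mul _
    · exact (integrable_height l t 0).sub ((integrable_ind _ _ (measurableSet_tp t 0)).const_mul _)
    · apply integrable_finsetSum
      intro i _
      exact (integrable_ind _ _ (measurableSet_tp t _)).add (integrable_ind _ _ (measurableSet_tp t _))

theorem toppled_le (l : ℝ≥0) (T : ℕ) :
    (d : ℝ) * (law d l).real {A | Toppled (cst A) T 0} ≤ l := by
  rw [← integral_height (d := d) l T]
  have h1 : ∫ A : Conf d, (∑ i, (ind (After (cst A) T 0 (0 + ee i)) +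
      ind (After (cst A) T 0 (0 - ee i)))) ∂(law d l) ≤
      ∫ A : Conf d, (height (cst A) T 0 : ℝ) ∂(law d l) := by
    apply integral_mono
    · apply integrable_finsetSum
      intro i _
      exact (integrable_ind _ _ (measurableSet_after T _ _)).add
        (integrable_ind _ _ (measurableSet_after T _ _))
    · exact integrable_height l T 0
    · intro A
      exact height_ge (cst A) (fun v => Int.natCast_nonneg _) T 0
  refine le_trans ?_ h1
  rw [integral_finsetSum]
  · have h2 : ∀ i ∈ (Finset.univ : Finset (Fin d)),
        (law d l).real {A | Toppled (cst A) T 0} ≤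
        ∫ A : Conf d, (ind (After (cst A) T 0 (0 + ee i)) +
          ind (After (cst A) T 0 (0 - ee i))) ∂(law d l) := by
      intro i _
      rw [integral_add, integral_after, ← integral_add, ← integral_ind _ _ (measurableSet_toppled T 0)]
      · apply integral_mono
        · exact integrable_ind _ _ (measurableSet_toppled T 0)
        · exact (integrable_ind _ _ (measurableSet_after T _ _)).add
            (integrable_ind _ _ (measurableSet_after T _ _))
        · intro A
          simp only
          by_cases hA : Toppled (cst A) T 0
          · have h3 := after_or (cst A) T 0 (0 + ee i) hA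
            rw [zero_add] at h3 ⊢
            have h4 : ind (Toppled (cst A) T 0) = 1 := by unfold ind; rw [if_pos hA]
            rw [h4]
            rcases h3 with h3 | h3
            · have h5 : ind (After (cst A) T 0 (ee i)) = 1 := by unfold ind; rw [if_pos h3]
              rw [h5]
              linarith [ind_nonneg (After (cst A) T (ee i) 0)]
            · have h5 : ind (After (cst A) T (ee i) 0) = 1 := by unfold ind; rw [if_pos h3]
              rw [h5]
              linarith [ind_nonneg (After (cst A) T 0 (ee i))]
          · have h4 : ind (Toppled (cst A) T 0) = 0 := by unfold ind; rw [if_neg hA]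
            rw [h4]
            exact add_nonneg (ind_nonneg _) (ind_nonneg _)
      · exact integrable_ind _ _ (measurableSet_after T _ _)
      · exact integrable_ind _ _ (measurableSet_after T _ _)
      · exact integrable_ind _ _ (measurableSet_after T _ _)
      · exact integrable_ind _ _ (measurableSet_after T _ _)
    have h3 := Finset.card_nsmul_le_sum Finset.univ _ _ h2
    rw [Finset.card_univ, Fintype.card_fin, nsmul_eq_mul] at h3
    exact h3
  · intro i _
    exact (integrable_ind _ _ (measurableSet_after T _ _)).add
      (integrable_ind _ _ (measurableSet_after T _ _))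

/-- M7. If the i.i.d. Poisson(l) sandpile percolates almost surely then l ≥ d. -/
theorem le_of_percolates (d : ℕ) (hd : 1 ≤ d) (l : ℝ≥0)
    (h : Measure.infinitePi (fun _ : Site d => poissonMeasure l)
      {A : Site d → ℕ | Percolates (fun v => (A v : ℤ))} = 1) : (d : ℝ) ≤ l := by
  have hmono : Monotone (fun T => {A : Conf d | Toppled (cst A) T 0}) := by
    intro T T' hTT A hA
    obtain ⟨t, ht, h1⟩ := hA
    exact ⟨t, lt_of_lt_of_le ht hTT, h1⟩
  have h1 := tendsto_measure_iUnion_atTop (μ := law d l) hmono
  have h2 : law d l (⋃ T, {A : Conf d | Toppled (cst A) T 0}) = 1 := by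
    apply le_antisymm prob_le_one
    rw [← h]
    apply measure_mono
    intro A hA
    rw [Set.mem_iUnion]
    obtain ⟨t, -, ht⟩ := hA 0 0
    exact ⟨t + 1, t, Nat.lt_succ_self t, ht⟩
  rw [h2] at h1
  have h3 : Filter.Tendsto (fun T => (law d l).real {A : Conf d | Toppled (cst A) T 0})
      Filter.atTop (nhds 1) := by
    have := (ENNReal.tendsto_toReal ENNReal.one_ne_top).comp h1
    simpa [Function.comp_def, Measure.real] using this
  have h4 := (h3.const_mul (d : ℝ))
  rw [mul_one] at h4
  exact le_of_tendsto' h4 (fun T => toppled_le l T)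

end Pool.Agent.Helper94.Sand
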