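import Pool.Agent.Helper94.Sand.Lemmas

namespace Pool.Agent.Helper94.Sand

variable {d : ℕ}

/-- Two boxes are near each other. -/
def BoxNear (g : ℕ) (a a' b b' : Site d) : Prop :=
  ∀ i, a i - (g : ℤ) ≤ b' i ∧ b i - (g : ℤ) ≤ a' i

open Classical in
/-- The boxes that can be generated by merging. -/
inductive Gen (E : Set (Site d)) (g : ℕ) : Site d → Site d → Finset (Site d) → Prop
  | pt (x : Site d) (hx : x ∈ E) : Gen E g x x {x}
  | merge (a a' b b' : Site d) (P Q : Finset (Site d)) (h1 : Gen E g a a' P)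
      (h2 : Gen E g b b' Q) (hPQ : Disjoint P Q) (hn : BoxNear g a a' b b') :
      Gen E g (fun i => min (a i) (b i)) (fun i => max (a' i) (b' i)) (P ∪ Q)

theorem Gen.nonempty {E : Set (Site d)} {g : ℕ} {a a' : Site d} {P : Finset (Site d)}
    (h : Gen E g a a' P) : P.Nonempty := by
  induction h with
  | pt x hx => simp
  | merge a a' b b' P Q h1 h2 hPQ hn ih1 ih2 =>
    obtain ⟨x, hx⟩ := ih1
    exact ⟨x, Finset.mem_union_left _ hx⟩

theorem Gen.sub {E : Set (Site d)} {g : ℕ} {a a' : Site d} {P : Finset (Site d)}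
    (h : Gen E g a a' P) : ∀ x ∈ P, x ∈ E ∧ ∀ i, a i ≤ x i ∧ x i ≤ a' i := by
  induction h with
  | pt x hx =>
    intro y hy
    rw [Finset.mem_singleton] at hy
    subst hy
    exact ⟨hx, fun i => ⟨le_rfl, le_rfl⟩⟩
  | merge a a' b b' P Q h1 h2 hPQ hn ih1 ih2 =>
    intro y hy
    rcases Finset.mem_union.mp hy with hy | hy
    · obtain ⟨h3, h4⟩ := ih1 y hy
      exact ⟨h3, fun i => ⟨(min_le_left _ _).trans (h4 i).1, (h4 i).2.trans (le_max_left _ _)⟩⟩
    · obtain ⟨h3, h4⟩ := ih2 y hy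
      exact ⟨h3, fun i => ⟨(min_le_right _ _).trans (h4 i).1, (h4 i).2.trans (le_max_right _ _)⟩⟩

theorem Gen.le {E : Set (Site d)} {g : ℕ} {a a' : Site d} {P : Finset (Site d)}
    (h : Gen E g a a' P) (i : Fin d) : a i ≤ a' i := by
  obtain ⟨x, hx⟩ := h.nonempty
  have := (h.sub x hx).2 i
  exact this.1.trans this.2

theorem Gen.side {E : Set (Site d)} {g : ℕ} {a a' : Site d} {P : Finset (Site d)}
    (h : Gen E g a a' P) (i : Fin d) : a' i - a i + (g : ℤ) ≤ (g : ℤ) * P.card := by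
  induction h with
  | pt x hx => simp
  | merge a a' b b' P Q h1 h2 hPQ hn ih1 ih2 =>
    rw [Finset.card_union_of_disjoint hPQ]
    push_cast
    have h3 := hn i
    have h4 := h1.le i
    have h5 := h2.le i
    rw [mul_add]
    have h6 : max (a' i) (b' i) - min (a i) (b i) ≤ (a' i - a i) + (b' i - b i) + g := by
      rcases le_total (a' i) (b' i) with h | h <;> rcases le_total (a i) (b i) with h' | h' <;>
        simp only [max_eq_left, max_eq_right, min_eq_left, min_eq_right, h, h'] <;> linarith [h3.1, h3.2]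
    linarith

/-- Finite count bound. -/
theorem card_le_of_window {E : Set (Site d)} {ρ b : ℕ}
    (hsp : ∀ y ∈ E, (E ∩ Set.Icc (fun i => y i - (ρ : ℤ)) (fun i => y i + (ρ : ℤ))).ncard ≤ b)
    {y : Site d} (hy : y ∈ E) (S : Set (Site d)) (hS : S ⊆ E)
    (hS' : ∀ x ∈ S, ∀ i, y i - (ρ : ℤ) ≤ x i ∧ x i ≤ y i + (ρ : ℤ)) :
    S.ncard ≤ b := by
  refine le_trans (Set.ncard_le_ncard ?_ ?_) (hsp y hy)
  · intro x hx
    refine ⟨hS hx, ?_⟩
    rw [mem_box]
    exact hS' x hx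
  · exact Set.Finite.inter_of_right (Set.finite_Icc _ _) _

theorem Gen.card {E : Set (Site d)} {ρ b g : ℕ} (hg : 2 * g * b ≤ ρ)
    (hsp : ∀ y ∈ E, (E ∩ Set.Icc (fun i => y i - (ρ : ℤ)) (fun i => y i + (ρ : ℤ))).ncard ≤ b)
    {a a' : Site d} {P : Finset (Site d)}
    (h : Gen E g a a' P) : P.card ≤ b := by
  have hg' : (2 : ℤ) * g * b ≤ ρ := by exact_mod_cast hg
  induction h with
  | pt x hx =>
    have h1 := card_le_of_window hsp hx {x} (by simpa using hx) (by
      intro y hy i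
      have : y = x := hy
      subst this
      constructor <;> linarith [Int.natCast_nonneg ρ])
    simpa using h1
  | merge a a' b₁ b₁' P Q h1 h2 hPQ hn ih1 ih2 =>
    have hG := Gen.merge a a' b₁ b₁' P Q h1 h2 hPQ hn
    obtain ⟨y, hy⟩ := h1.nonempty
    have hyE := (h1.sub y hy).1
    have h3 : ∀ i, max (a' i) (b₁' i) - min (a i) (b₁ i) ≤ (ρ : ℤ) := by
      intro i
      have h4 := hG.side i
      have h5 : ((P ∪ Q).card : ℤ) ≤ 2 * b := by
        rw [Finset.card_union_of_disjoint hPQ]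
        push_cast
        have : (P.card : ℤ) ≤ b := by exact_mod_cast ih1
        have : (Q.card : ℤ) ≤ b := by exact_mod_cast ih2
        linarith
      have h6 : (g : ℤ) * ((P ∪ Q).card : ℤ) ≤ g * (2 * b) :=
        mul_le_mul_of_nonneg_left h5 (Int.natCast_nonneg g)
      have h7 : (0 : ℤ) ≤ g := Int.natCast_nonneg g
      have h8 : (g : ℤ) * (2 * b) = 2 * g * b := by ring
      linarith
    have h4 := card_le_of_window hsp hyE (↑(P ∪ Q)) (by
      intro x hx
      exact (hG.sub x (by exact_mod_cast hx)).1) (by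
      intro x hx i
      have h5 := (hG.sub x (by exact_mod_cast hx)).2 i
      have h6 := (hG.sub y (Finset.mem_union_left _ hy)).2 i
      have h7 := h3 i
      constructor <;> linarith [h5.1, h5.2, h6.1, h6.2])
    rwa [Set.ncard_coe_finset] at h4

/-- Two near generated boxes lie in a common generated box. -/
theorem Gen.exists_super {E : Set (Site d)} {g : ℕ} {b b' : Site d} {Q : Finset (Site d)}
    (h' : Gen E g b b' Q) : ∀ (a a' : Site d) (P : Finset (Site d)), Gen E g a a' P →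
      BoxNear g a a' b b' →
      ∃ c c' R, Gen E g c c' R ∧ (∀ i, c i ≤ a i ∧ a' i ≤ c' i) ∧
        (∀ i, c i ≤ b i ∧ b' i ≤ c' i) := by
  induction h' with
  | pt x hx =>
    intro a a' P h hn
    by_cases hd : Disjoint P {x}
    · exact ⟨_, _, _, Gen.merge a a' x x P {x} h (Gen.pt x hx) hd hn,
        fun i => ⟨min_le_left _ _, le_max_left _ _⟩, fun i => ⟨min_le_right _ _, le_max_right _ _⟩⟩
    · rw [Finset.disjoint_singleton_right, not_not] at hd
      exact ⟨a, a', P, h, fun i => ⟨le_rfl, le_rfl⟩, fun i => (h.sub x hd).2 i⟩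
  | merge b b' c c' Q1 Q2 h1 h2 hQ hn' ih1 ih2 =>
    intro a a' P h hn
    by_cases hd : Disjoint P (Q1 ∪ Q2)
    · exact ⟨_, _, _, Gen.merge _ _ _ _ _ _ h (Gen.merge _ _ _ _ _ _ h1 h2 hQ hn') hd hn,
        fun i => ⟨min_le_left _ _, le_max_left _ _⟩, fun i => ⟨min_le_right _ _, le_max_right _ _⟩⟩
    · rw [Finset.not_disjoint_iff] at hd
      obtain ⟨z, hzP, hz⟩ := hd
      have hzP' := (h.sub z hzP).2
      have hg0 : (0 : ℤ) ≤ g := Int.natCast_nonneg g
      rcases Finset.mem_union.mp hz with hz | hz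
      · have hz' := (h1.sub z hz).2
        obtain ⟨u, u', R, hR, hR1, hR2⟩ := ih1 a a' P h (fun i => by
          have := hzP' i; have := hz' i
          constructor <;> linarith [(hzP' i).1, (hzP' i).2, (hz' i).1, (hz' i).2])
        obtain ⟨w, w', R', hR', hR'1, hR'2⟩ := ih2 u u' R hR (fun i => by
          have h3 := hR2 i
          have h4 := hn' i
          constructor <;> linarith [h3.1, h3.2, h4.1, h4.2])
        refine ⟨w, w', R', hR', fun i => ?_, fun i => ?_⟩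
        · exact ⟨(hR'1 i).1.trans (hR1 i).1, (hR1 i).2.trans (hR'1 i).2⟩
        · constructor
          · exact le_min ((hR'1 i).1.trans (hR2 i).1) (hR'2 i).1
          · exact max_le ((hR2 i).2.trans (hR'1 i).2) (hR'2 i).2
      · have hz' := (h2.sub z hz).2
        obtain ⟨u, u', R, hR, hR1, hR2⟩ := ih2 a a' P h (fun i => by
          constructor <;> linarith [(hzP' i).1, (hzP' i).2, (hz' i).1, (hz' i).2])
        obtain ⟨w, w', R', hR', hR'1, hR'2⟩ := ih1 u u' R hR (fun i => by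
          have h3 := hR2 i
          have h4 := hn' i
          constructor <;> linarith [h3.1, h3.2, h4.1, h4.2])
        refine ⟨w, w', R', hR', fun i => ?_, fun i => ?_⟩
        · exact ⟨(hR'1 i).1.trans (hR1 i).1, (hR1 i).2.trans (hR'1 i).2⟩
        · constructor
          · exact le_min (hR'2 i).1 ((hR'1 i).1.trans (hR2 i).1)
          · exact max_le (hR'2 i).2 ((hR2 i).2.trans (hR'1 i).2)

/-- M1. Merging: a sparse set can be covered by well separated small boxes `Icc B.1 B.2`. -/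
theorem exists_core_boxes (E : Set (Site d)) (ρ b g : ℕ) (hg : 2 * g * b ≤ ρ)
    (hsp : ∀ y ∈ E, (E ∩ Set.Icc (fun i => y i - (ρ : ℤ)) (fun i => y i + (ρ : ℤ))).ncard ≤ b) :
    ∃ K : Set (Site d × Site d),
      (∀ y ∈ E, ∃ B ∈ K, y ∈ Set.Icc B.1 B.2) ∧
      (∀ B ∈ K, ∀ B' ∈ K, B ≠ B' → ∃ i, B.2 i + (g : ℤ) < B'.1 i ∨ B'.2 i + (g : ℤ) < B.1 i) ∧
      (∀ B ∈ K, ∀ i, B.1 i ≤ B.2 i ∧ B.2 i - B.1 i + (g : ℤ) ≤ (g : ℤ) * b) ∧
      (∀ B ∈ K, ∃ y ∈ E, y ∈ Set.Icc B.1 B.2) ∧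
      (∀ B ∈ K, (E ∩ Set.Icc B.1 B.2).ncard ≤ b) := by
  have hg' : (2 : ℤ) * g * b ≤ ρ := by exact_mod_cast hg
  have hg0 : (0 : ℤ) ≤ g := Int.natCast_nonneg g
  -- uniform side bound
  have hside : ∀ a a' P, Gen E g a a' P → ∀ i, a' i - a i + (g : ℤ) ≤ (g : ℤ) * b := by
    intro a a' P h i
    have h1 := h.side i
    have h2 : (P.card : ℤ) ≤ b := by exact_mod_cast h.card hg hsp
    have h3 := mul_le_mul_of_nonneg_left h2 hg0
    linarith
  let K : Set (Site d × Site d) := {B | (∃ P, Gen E g B.1 B.2 P) ∧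
    ∀ c c' R, Gen E g c c' R → (∀ i, c i ≤ B.1 i ∧ B.2 i ≤ c' i) → c = B.1 ∧ c' = B.2}
  refine ⟨K, ?_, ?_, ?_, ?_, ?_⟩
  · intro y hy
    -- choose the box with maximal total size
    have hex : ∃ m : ℕ, ∀ a a' P, Gen E g a a' P → (∀ i, a i ≤ y i ∧ y i ≤ a' i) →
        ∑ i, (a' i - a i).toNat ≤ m := by
      refine ⟨∑ _i : Fin d, g * b, ?_⟩
      intro a a' P h _
      apply Finset.sum_le_sum
      intro i _
      have h1 := hside a a' P h i
      have h2 : (a' i - a i) ≤ ((g * b : ℕ) : ℤ) := by push_cast; linarith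
      exact Int.toNat_le.mpr h2
    have hne : ∃ s : ℕ, ∃ a a' P, Gen E g a a' P ∧ (∀ i, a i ≤ y i ∧ y i ≤ a' i) ∧
        ∑ i, (a' i - a i).toNat = s := ⟨_, y, y, {y}, Gen.pt y hy, fun i => ⟨le_rfl, le_rfl⟩, rfl⟩
    obtain ⟨m, hm⟩ := hex
    classical
    obtain ⟨s, ⟨a, a', P, h1, h2, h3⟩, hmax⟩ : ∃ s : ℕ, (∃ a a' P, Gen E g a a' P ∧
        (∀ i, a i ≤ y i ∧ y i ≤ a' i) ∧ ∑ i, (a' i - a i).toNat = s) ∧
        ∀ a a' P, Gen E g a a' P → (∀ i, a i ≤ y i ∧ y i ≤ a' i) →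
          ∑ i, (a' i - a i).toNat ≤ s := by
      obtain ⟨s0, hs0⟩ := hne
      have hb : ∃ s ≤ m, (∃ a a' P, Gen E g a a' P ∧
        (∀ i, a i ≤ y i ∧ y i ≤ a' i) ∧ ∑ i, (a' i - a i).toNat = s) := by
        obtain ⟨a, a', P, h1, h2, h3⟩ := hs0
        exact ⟨s0, h3 ▸ hm a a' P h1 h2, a, a', P, h1, h2, h3⟩
      refine ⟨Nat.findGreatest (fun s => ∃ a a' P, Gen E g a a' P ∧
        (∀ i, a i ≤ y i ∧ y i ≤ a' i) ∧ ∑ i, (a' i - a i).toNat = s) m, ?_, ?_⟩
      · obtain ⟨s, hs, hs'⟩ := hb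
        exact Nat.findGreatest_spec (P := fun s => ∃ a a' P, Gen E g a a' P ∧
          (∀ i, a i ≤ y i ∧ y i ≤ a' i) ∧ ∑ i, (a' i - a i).toNat = s) hs hs'
      · intro a a' P h1 h2
        exact Nat.le_findGreatest (hm a a' P h1 h2) ⟨a, a', P, h1, h2, rfl⟩
    refine ⟨(a, a'), ⟨⟨P, h1⟩, ?_⟩, ?_⟩
    · intro c c' R hR hc
      simp only at hc
      have h4 : ∀ i, c i ≤ y i ∧ y i ≤ c' i := fun i =>
        ⟨(hc i).1.trans (h2 i).1, (h2 i).2.trans (hc i).2⟩
      have h5 := hmax c c' R hR h4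
      rw [← h3] at h5
      have h6 : ∀ i ∈ Finset.univ, (a' i - a i).toNat ≤ (c' i - c i).toNat := by
        intro i _
        apply Int.toNat_le_toNat
        linarith [(hc i).1, (hc i).2]
      have h7 : ∀ i, (a' i - a i).toNat = (c' i - c i).toNat := by
        have h8 := Finset.sum_le_sum h6
        have h9 := le_antisymm h8 h5
        rw [Finset.sum_eq_sum_iff_of_le h6] at h9
        intro i
        exact h9 i (Finset.mem_univ i)
      have h8 : ∀ i, c i = a i ∧ c' i = a' i := by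
        intro i
        have h9 := h7 i
        have h10 := h1.le i
        have h11 := hR.le i
        have h12 := hc i
        omega
      exact ⟨funext fun i => (h8 i).1, funext fun i => (h8 i).2⟩
    · rw [mem_box]
      exact h2
  · rintro ⟨a, a'⟩ ⟨⟨P, hP⟩, hm⟩ ⟨b₁, b₁'⟩ ⟨⟨Q, hQ⟩, hm'⟩ hne
    simp only at hP hm hQ hm' ⊢
    by_contra hcon
    push Not at hcon
    have hnear : BoxNear g a a' b₁ b₁' := by
      intro i
      have := hcon i
      constructor <;> linarith [this.1, this.2]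
    obtain ⟨c, c', R, hR, hR1, hR2⟩ := hQ.exists_super a a' P hP hnear
    have h1 := hm c c' R hR hR1
    have h2 := hm' c c' R hR hR2
    exact hne (Prod.ext (h1.1.symm.trans h2.1) (h1.2.symm.trans h2.2))
  · rintro ⟨a, a'⟩ ⟨⟨P, hP⟩, -⟩ i
    exact ⟨hP.le i, hside a a' P hP i⟩
  · rintro ⟨a, a'⟩ ⟨⟨P, hP⟩, -⟩
    obtain ⟨y, hy⟩ := hP.nonempty
    exact ⟨y, (hP.sub y hy).1, mem_box.mpr (hP.sub y hy).2⟩
  · rintro ⟨a, a'⟩ ⟨⟨P, hP⟩, -⟩
    obtain ⟨y, hy⟩ := hP.nonempty
    obtain ⟨hyE, hy'⟩ := hP.sub y hy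
    apply card_le_of_window hsp hyE
    · exact Set.inter_subset_left
    · rintro x ⟨-, hx⟩ i
      rw [mem_box] at hx
      have h1 := hside a a' P hP i
      have h2 := hx i
      have h3 := hy' i
      simp only at h2
      have h4 : (g : ℤ) * b ≤ ρ := by
        have : (0 : ℤ) ≤ g * b := by positivity
        linarith
      constructor <;> linarith [h2.1, h2.2, h3.1, h3.2]

end Pool.Agent.Helper94.Sand
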