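import Pool.Agent.Helper94.Sand.Basic

namespace Pool.Agent.Helper94.Sand

/-- Side (in sites) of a level `k` block. -/
def NN (d : ℕ) : ℕ → ℕ
  | 0 => 1
  | k + 1 => NN d k * 2 ^ (100 * d * (NN d k) ^ d)

/-- Side of a level `k+1` block in units of level `k` blocks. -/
def nn (d k : ℕ) : ℕ := 2 ^ (100 * d * (NN d k) ^ d)

/-- Number of colours at level `k`. -/
def MM (d k : ℕ) : ℕ := if k = 0 then 2 * d + 1 else 3 ^ d

def BB (d k : ℕ) : ℕ := 1000 * d ^ 2 * (NN d k) ^ d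

def bb (d k : ℕ) : ℕ := MM d k * BB d k

def rho (d k : ℕ) : ℕ := 50 * d * NN d k * (bb d k) ^ 2

/-- Exponent of the error probability. -/
def CC (d : ℕ) : ℕ := 2 * d ^ 2 + 2 * d

/-- The error probability at level `k ≥ 1` is at most `1 / (NN d k) ^ (CC d)`; at level `0`
it is `η0`. -/
noncomputable def eta (d : ℕ) (η0 : ℝ) (k : ℕ) : ℝ :=
  if k = 0 then η0 else 1 / ((NN d k : ℝ) ^ (CC d))

variable {d : ℕ}

theorem NN_zero : NN d 0 = 1 := rfl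

theorem NN_succ (k : ℕ) : NN d (k + 1) = NN d k * nn d k := rfl

theorem NN_pos' (d k : ℕ) : 1 ≤ NN d k := by
  induction k with
  | zero => exact le_rfl
  | succ k ih => exact Nat.mul_pos ih (Nat.two_pow_pos _)

/-- The basic exponent. -/
def DD (d k : ℕ) : ℕ := d * (NN d k) ^ d

theorem DD_d (k : ℕ) : d ≤ DD d k :=
  Nat.le_mul_of_pos_right d (Nat.pow_pos (NN_pos' d k))

theorem DD_P (hd : 1 ≤ d) (k : ℕ) : (NN d k) ^ d ≤ DD d k :=
  Nat.le_mul_of_pos_left _ hd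

theorem DD_N (hd : 1 ≤ d) (k : ℕ) : NN d k ≤ DD d k := by
  refine le_trans ?_ (DD_P hd k)
  calc NN d k = (NN d k) ^ 1 := (pow_one _).symm
    _ ≤ (NN d k) ^ d := Nat.pow_le_pow_right (NN_pos' d k) hd

theorem DD_pos (hd : 1 ≤ d) (k : ℕ) : 1 ≤ DD d k := le_trans hd (DD_d k)

theorem nn_eq (k : ℕ) : nn d k = 2 ^ (100 * DD d k) := by
  unfold nn DD
  congr 1
  ring

theorem MM_le (hd : 1 ≤ d) (k : ℕ) : MM d k ≤ 3 ^ d := by
  unfold MM
  split_ifs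
  · have : ∀ m : ℕ, 2 * (m + 1) + 1 ≤ 3 ^ (m + 1) := by
      intro m
      induction m with
      | zero => norm_num
      | succ m ih =>
        rw [pow_succ]
        omega
    obtain ⟨m, rfl⟩ : ∃ m, d = m + 1 := ⟨d - 1, by omega⟩
    exact this m
  · exact le_rfl

theorem MM_pos (hd : 1 ≤ d) (k : ℕ) : 1 ≤ MM d k := by
  unfold MM
  split_ifs
  · omega
  · exact Nat.one_le_pow _ _ (by norm_num)

theorem BB_pos (hd : 1 ≤ d) (k : ℕ) : 1 ≤ BB d k := by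
  unfold BB
  have h5 : 1 ≤ (NN d k) ^ d := Nat.one_le_pow _ _ (NN_pos' d k)
  have h6 : 1 ≤ d ^ 2 := Nat.one_le_pow _ _ hd
  have h7 : 1 ≤ 1000 * d ^ 2 := by omega
  exact Nat.mul_pos h7 h5

theorem bb_pos' (hd : 1 ≤ d) (k : ℕ) : 1 ≤ bb d k := Nat.mul_pos (MM_pos hd k) (BB_pos hd k)

theorem le_two_pow' (a b : ℕ) (h : a ≤ b) : a ≤ 2 ^ b :=
  le_trans h (Nat.lt_two_pow_self).le

theorem bb_le (hd : 1 ≤ d) (k : ℕ) : bb d k ≤ 2 ^ (15 * DD d k) := by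
  have hD := DD_pos hd k
  have h1 : MM d k ≤ 2 ^ (2 * DD d k) := by
    calc MM d k ≤ 3 ^ d := MM_le hd k
      _ ≤ 4 ^ d := Nat.pow_le_pow_left (by norm_num) d
      _ = 2 ^ (2 * d) := by rw [pow_mul]; norm_num
      _ ≤ 2 ^ (2 * DD d k) := Nat.pow_le_pow_right (by norm_num) (Nat.mul_le_mul_left 2 (DD_d k))
  have h2 : (1000 : ℕ) ≤ 2 ^ (10 * DD d k) := by
    calc (1000 : ℕ) ≤ 2 ^ 10 := by norm_num
      _ ≤ 2 ^ (10 * DD d k) := Nat.pow_le_pow_right (by norm_num) (by omega)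
  have h3 : d ^ 2 ≤ 2 ^ (2 * DD d k) := by
    calc d ^ 2 ≤ (2 ^ (DD d k)) ^ 2 := Nat.pow_le_pow_left (le_two_pow' _ _ (DD_d k)) 2
      _ = 2 ^ (2 * DD d k) := by rw [← pow_mul]; congr 1; ring
  have h4 : (NN d k) ^ d ≤ 2 ^ (DD d k) := le_two_pow' _ _ (DD_P hd k)
  unfold bb BB
  calc MM d k * (1000 * d ^ 2 * (NN d k) ^ d)
      ≤ 2 ^ (2 * DD d k) * (2 ^ (10 * DD d k) * 2 ^ (2 * DD d k) * 2 ^ (DD d k)) :=
        Nat.mul_le_mul h1 (Nat.mul_le_mul (Nat.mul_le_mul h2 h3) h4)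
    _ = 2 ^ (15 * DD d k) := by
        rw [← pow_add, ← pow_add, ← pow_add]
        congr 1
        ring

theorem rho_le (hd : 1 ≤ d) (k : ℕ) : rho d k ≤ 2 ^ (38 * DD d k) := by
  have hD := DD_pos hd k
  have h2 : (50 : ℕ) ≤ 2 ^ (6 * DD d k) := by
    calc (50 : ℕ) ≤ 2 ^ 6 := by norm_num
      _ ≤ 2 ^ (6 * DD d k) := Nat.pow_le_pow_right (by norm_num) (by omega)
  unfold rho
  calc 50 * d * NN d k * (bb d k) ^ 2
      ≤ 2 ^ (6 * DD d k) * 2 ^ (DD d k) * 2 ^ (DD d k) * (2 ^ (15 * DD d k)) ^ 2 :=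
        Nat.mul_le_mul (Nat.mul_le_mul (Nat.mul_le_mul h2 (le_two_pow' _ _ (DD_d k)))
          (le_two_pow' _ _ (DD_N hd k))) (Nat.pow_le_pow_left (bb_le hd k) 2)
    _ = 2 ^ (38 * DD d k) := by
        rw [← pow_mul, ← pow_add, ← pow_add, ← pow_add]
        congr 1
        ring

theorem rho_pos (hd : 1 ≤ d) (k : ℕ) : 1 ≤ rho d k := by
  unfold rho
  have h1 := NN_pos' d k
  have h2 := bb_pos' hd k
  have h3 : 1 ≤ (bb d k) ^ 2 := Nat.one_le_pow _ _ h2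
  have h4 : 1 ≤ 50 * d := by omega
  exact Nat.mul_pos (Nat.mul_pos h4 h1) h3

theorem NN_ge (hd : 1 ≤ d) (k : ℕ) : 2 ^ (100 * d * k) ≤ NN d k := by
  induction k with
  | zero => simp [NN]
  | succ k ih =>
    have h1 : 100 * d * 1 ≤ 100 * d * (NN d k) ^ d :=
      Nat.mul_le_mul_left _ (Nat.one_le_pow _ _ (NN_pos' d k))
    calc 2 ^ (100 * d * (k + 1)) = 2 ^ (100 * d * k) * 2 ^ (100 * d * 1) := by
          rw [← pow_add]
          congr 1
          ring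
      _ ≤ NN d k * 2 ^ (100 * d * (NN d k) ^ d) :=
          Nat.mul_le_mul ih (Nat.pow_le_pow_right (by norm_num) h1)

/-- N1 -/
theorem num_rho (hd : 1 ≤ d) (k : ℕ) :
    2 * (2 * (7 * d * NN d k * bb d k) + 11) * bb d k ≤ rho d k := by
  unfold rho
  have h1 := NN_pos' d k
  have h2 := bb_pos' hd k
  have h3 : 1 ≤ d * NN d k * bb d k := Nat.mul_pos (Nat.mul_pos hd h1) h2
  have h4 : bb d k ≤ d * NN d k * bb d k * bb d k := Nat.le_mul_of_pos_left _ h3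
  calc 2 * (2 * (7 * d * NN d k * bb d k) + 11) * bb d k
      = 28 * (d * NN d k * bb d k * bb d k) + 22 * bb d k := by ring
    _ ≤ 28 * (d * NN d k * bb d k * bb d k) + 22 * (d * NN d k * bb d k * bb d k) := by omega
    _ = 50 * d * NN d k * bb d k ^ 2 := by ring

/-- N2 -/
theorem num_nn (hd : 1 ≤ d) (k : ℕ) : 10 * (rho d k + 10) ≤ nn d k := by
  have hD := DD_pos hd k
  have h1 := rho_le hd k
  have h2 := rho_pos hd k
  rw [nn_eq]
  calc 10 * (rho d k + 10) ≤ 2 ^ 7 * rho d k := by omega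
    _ ≤ 2 ^ (7 * DD d k) * 2 ^ (38 * DD d k) := by
        apply Nat.mul_le_mul _ h1
        exact Nat.pow_le_pow_right (by norm_num) (by omega)
    _ = 2 ^ (45 * DD d k) := by rw [← pow_add]; congr 1; ring
    _ ≤ 2 ^ (100 * DD d k) := Nat.pow_le_pow_right (by norm_num) (by omega)

/-- A bound used at levels at least one. -/
theorem rho_bound (hd : 1 ≤ d) (k : ℕ) (hk : 1 ≤ k) :
    2 ^ k * (23 * rho d k) ≤ (NN d k) ^ (2 * d + 2) := by
  have hN := NN_ge hd k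
  have h1 : 2 ^ k * (23 * (50 * 1000 ^ 2)) * (d ^ 5 * 9 ^ d) ≤ NN d k := by
    refine le_trans ?_ hN
    have e1 : (23 * (50 * 1000 ^ 2) : ℕ) ≤ 2 ^ 31 := by norm_num
    have e2 : d ^ 5 ≤ 2 ^ (5 * d) := by
      calc d ^ 5 ≤ (2 ^ d) ^ 5 := Nat.pow_le_pow_left (Nat.lt_two_pow_self).le 5
        _ = 2 ^ (5 * d) := by rw [← pow_mul]; congr 1; ring
    have e3 : 9 ^ d ≤ 2 ^ (4 * d) := by
      calc 9 ^ d ≤ (2 ^ 4) ^ d := Nat.pow_le_pow_left (by norm_num) d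
        _ = 2 ^ (4 * d) := by rw [← pow_mul]
    calc 2 ^ k * (23 * (50 * 1000 ^ 2)) * (d ^ 5 * 9 ^ d)
        ≤ 2 ^ k * 2 ^ 31 * (2 ^ (5 * d) * 2 ^ (4 * d)) :=
          Nat.mul_le_mul (Nat.mul_le_mul_left _ e1) (Nat.mul_le_mul e2 e3)
      _ = 2 ^ (k + 31 + (5 * d + 4 * d)) := by rw [← pow_add, ← pow_add, ← pow_add]
      _ ≤ 2 ^ (100 * d * k) := by
          apply Nat.pow_le_pow_right (by norm_num)
          have f1 : k ≤ d * k := Nat.le_mul_of_pos_left k hd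
          have f2 : d ≤ d * k := Nat.le_mul_of_pos_right d hk
          have f3 : 1 ≤ d * k := Nat.mul_pos hd hk
          calc k + 31 + (5 * d + 4 * d) ≤ d * k + 31 * (d * k) + (5 * (d * k) + 4 * (d * k)) := by
                omega
            _ = 41 * (d * k) := by ring
            _ ≤ 100 * (d * k) := by omega
            _ = 100 * d * k := by ring
  have h2 : rho d k ≤ (50 * 1000 ^ 2) * (d ^ 5 * 9 ^ d) * (NN d k) ^ (2 * d + 1) := by
    unfold rho bb BB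
    calc 50 * d * NN d k * (MM d k * (1000 * d ^ 2 * NN d k ^ d)) ^ 2
        ≤ 50 * d * NN d k * (3 ^ d * (1000 * d ^ 2 * NN d k ^ d)) ^ 2 := by
          apply Nat.mul_le_mul_left
          apply Nat.pow_le_pow_left
          exact Nat.mul_le_mul_right _ (MM_le hd k)
      _ = (50 * 1000 ^ 2) * (d ^ 5 * 9 ^ d) * (NN d k) ^ (2 * d + 1) := by
          have : (9 : ℕ) ^ d = 3 ^ d * 3 ^ d := by
            rw [← mul_pow]
            norm_num
          rw [this, pow_succ (NN d k) (2 * d), two_mul d, pow_add (NN d k) d d]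
          ring
  calc 2 ^ k * (23 * rho d k)
      ≤ 2 ^ k * (23 * ((50 * 1000 ^ 2) * (d ^ 5 * 9 ^ d) * (NN d k) ^ (2 * d + 1))) :=
        Nat.mul_le_mul_left _ (Nat.mul_le_mul_left _ h2)
    _ = (2 ^ k * (23 * (50 * 1000 ^ 2)) * (d ^ 5 * 9 ^ d)) * (NN d k) ^ (2 * d + 1) := by ring
    _ ≤ NN d k * (NN d k) ^ (2 * d + 1) := Nat.mul_le_mul_right _ h1
    _ = (NN d k) ^ (2 * d + 2) := by ring

theorem CC_eq (d : ℕ) : CC d = (2 * d + 2) * d := by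
  unfold CC
  ring

/-- N3 (levels at least one) -/
theorem num_eta (hd : 1 ≤ d) (k : ℕ) (hk : 1 ≤ k) (η0 : ℝ) :
    ((2 * rho d k + 1 : ℕ) : ℝ) ^ d * eta d η0 k ≤ (1 / 2 : ℝ) ^ d := by
  have hN : (0 : ℝ) < NN d k := by exact_mod_cast NN_pos' d k
  unfold eta
  rw [if_neg (by omega), CC_eq, pow_mul, ← one_div_pow, ← mul_pow]
  apply pow_le_pow_left₀ (by positivity)
  rw [mul_one_div, div_le_iff₀ (by positivity)]
  have h1 := rho_bound hd k hk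
  have h2 := rho_pos hd k
  have h3 : 2 * (2 * rho d k + 1) ≤ (NN d k) ^ (2 * d + 2) := by
    refine le_trans ?_ h1
    have h4 : 1 ≤ 2 ^ k := Nat.one_le_two_pow
    calc 2 * (2 * rho d k + 1) ≤ 1 * (23 * rho d k) := by omega
      _ ≤ _ := Nat.mul_le_mul_right _ h4
  have h5 : (2 : ℝ) * ((2 * rho d k + 1 : ℕ) : ℝ) ≤ (NN d k : ℝ) ^ (2 * d + 2) := by
    exact_mod_cast h3
  linarith

theorem exp_total (hd : 1 ≤ d) (k : ℕ) (r : ℕ) (hr : r ≤ 2 ^ (DD d k)) :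
    4 * (nn d k) ^ d * r * (NN d (k + 1)) ^ (CC d) ≤ 2 ^ (507 * (d ^ 2 * DD d k)) := by
  have hD := DD_pos hd k
  have h1 : NN d (k + 1) ≤ 2 ^ (101 * DD d k) := by
    rw [NN_succ, nn_eq]
    calc NN d k * 2 ^ (100 * DD d k) ≤ 2 ^ (DD d k) * 2 ^ (100 * DD d k) :=
          Nat.mul_le_mul_right _ (le_two_pow' _ _ (DD_N hd k))
      _ = 2 ^ (101 * DD d k) := by rw [← pow_add]; congr 1; ring
  have hd2 : d ≤ d ^ 2 := by nlinarith
  have hd1 : 1 ≤ d ^ 2 := Nat.one_le_pow _ _ hd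
  have hdD : 1 ≤ d ^ 2 * DD d k := Nat.mul_pos hd1 hD
  calc 4 * (nn d k) ^ d * r * (NN d (k + 1)) ^ (CC d)
      ≤ 2 ^ 2 * (2 ^ (100 * DD d k)) ^ d * 2 ^ (DD d k) * (2 ^ (101 * DD d k)) ^ (CC d) := by
        rw [nn_eq]
        exact Nat.mul_le_mul (Nat.mul_le_mul_left _ hr) (Nat.pow_le_pow_left h1 _)
    _ = 2 ^ (2 + 100 * DD d k * d + DD d k + 101 * DD d k * CC d) := by
        rw [← pow_mul, ← pow_mul, ← pow_add, ← pow_add, ← pow_add]
    _ ≤ 2 ^ (507 * (d ^ 2 * DD d k)) := by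
        apply Nat.pow_le_pow_right (by norm_num)
        have f1 : DD d k * d ≤ d ^ 2 * DD d k := by
          rw [mul_comm]
          exact Nat.mul_le_mul_right _ hd2
        have f2 : DD d k ≤ d ^ 2 * DD d k := Nat.le_mul_of_pos_left _ hd1
        have f3 : DD d k * CC d ≤ 4 * (d ^ 2 * DD d k) := by
          have : CC d ≤ 4 * d ^ 2 := by unfold CC; omega
          calc DD d k * CC d ≤ DD d k * (4 * d ^ 2) := Nat.mul_le_mul_left _ this
            _ = 4 * (d ^ 2 * DD d k) := by ring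
        have e1 : 100 * DD d k * d = 100 * (DD d k * d) := by ring
        have e2 : 101 * DD d k * CC d = 101 * (DD d k * CC d) := by ring
        rw [e1, e2]
        omega

/-- N4 -/
theorem num_C1 (hd : 1 ≤ d) (k : ℕ) (t : ℝ) (ht0 : 0 ≤ t) (ht : t ≤ (1 / 2 : ℝ) ^ d) :
    (nn d k : ℝ) ^ d * t ^ (BB d k) ≤ (1 / 4) * (1 / ((NN d (k + 1) : ℝ) ^ (CC d))) := by
  have hN : (0 : ℝ) < NN d (k + 1) := by exact_mod_cast NN_pos' d (k + 1)
  have h1 : t ^ (BB d k) ≤ (1 / 2 : ℝ) ^ (507 * (d ^ 2 * DD d k)) := by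
    calc t ^ (BB d k) ≤ ((1 / 2 : ℝ) ^ d) ^ (BB d k) := pow_le_pow_left₀ ht0 ht _
      _ = (1 / 2 : ℝ) ^ (d * BB d k) := by rw [← pow_mul]
      _ ≤ (1 / 2 : ℝ) ^ (507 * (d ^ 2 * DD d k)) := by
          apply pow_le_pow_of_le_one (by norm_num) (by norm_num)
          unfold BB DD
          calc 507 * (d ^ 2 * (d * NN d k ^ d)) ≤ 1000 * (d ^ 2 * (d * NN d k ^ d)) :=
                Nat.mul_le_mul_right _ (by norm_num)
            _ = d * (1000 * d ^ 2 * NN d k ^ d) := by ring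
  have h2 := exp_total hd k 1 Nat.one_le_two_pow
  have h3 : (4 : ℝ) * (nn d k : ℝ) ^ d * (NN d (k + 1) : ℝ) ^ (CC d) ≤
      2 ^ (507 * (d ^ 2 * DD d k)) := by
    have : 4 * (nn d k) ^ d * (NN d (k + 1)) ^ (CC d) ≤ 2 ^ (507 * (d ^ 2 * DD d k)) := by
      simpa using h2
    exact_mod_cast this
  rw [mul_one_div, le_div_iff₀ (by positivity)]
  have h4 : (1 / 2 : ℝ) ^ (507 * (d ^ 2 * DD d k)) * 2 ^ (507 * (d ^ 2 * DD d k)) = 1 := by
    rw [← mul_pow]; norm_num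
  have h5 : (0 : ℝ) ≤ (nn d k : ℝ) ^ d * (NN d (k + 1) : ℝ) ^ (CC d) := by positivity
  have h6 : (0 : ℝ) < (1 / 2 : ℝ) ^ (507 * (d ^ 2 * DD d k)) := by positivity
  calc (nn d k : ℝ) ^ d * t ^ BB d k * (NN d (k + 1) : ℝ) ^ CC d
      = ((nn d k : ℝ) ^ d * (NN d (k + 1) : ℝ) ^ CC d) * t ^ BB d k := by ring
    _ ≤ ((nn d k : ℝ) ^ d * (NN d (k + 1) : ℝ) ^ CC d) * (1 / 2 : ℝ) ^ (507 * (d ^ 2 * DD d k)) :=
        mul_le_mul_of_nonneg_left h1 h5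
    _ = (1 / 4) * ((4 * (nn d k : ℝ) ^ d * (NN d (k + 1) : ℝ) ^ CC d) *
          (1 / 2 : ℝ) ^ (507 * (d ^ 2 * DD d k))) := by ring
    _ ≤ (1 / 4) * (2 ^ (507 * (d ^ 2 * DD d k)) * (1 / 2 : ℝ) ^ (507 * (d ^ 2 * DD d k))) := by
        apply mul_le_mul_of_nonneg_left _ (by norm_num)
        exact mul_le_mul_of_nonneg_right h3 h6.le
    _ = 1 / 4 := by rw [mul_comm (2 ^ _ : ℝ), h4]; norm_num

/-- N5 -/
theorem num_C2 (hd : 1 ≤ d) (k : ℕ) (p : ℝ) (hp : (1 / 2 : ℝ) ^ (27 * d * (NN d k) ^ d) ≤ p)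
    (hp1 : p ≤ 1) :
    (nn d k : ℝ) ^ d * d * (1 - p / 2) ^ (nn d k / (3 * rho d k)) ≤
      (1 / 4) * (1 / ((NN d (k + 1) : ℝ) ^ (CC d))) := by
  have hD := DD_pos hd k
  have hN : (0 : ℝ) < NN d (k + 1) := by exact_mod_cast NN_pos' d (k + 1)
  have hp0 : 0 ≤ p := le_trans (by positivity) hp
  set m := nn d k / (3 * rho d k) with hm
  have hm1 : 2 ^ (60 * DD d k) ≤ m := by
    have h1 : 3 * rho d k ≤ 2 ^ (40 * DD d k) := by
      calc 3 * rho d k ≤ 2 ^ (2 * DD d k) * 2 ^ (38 * DD d k) := by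
            apply Nat.mul_le_mul _ (rho_le hd k)
            calc 3 ≤ 2 ^ 2 := by norm_num
              _ ≤ 2 ^ (2 * DD d k) := Nat.pow_le_pow_right (by norm_num) (by omega)
        _ = 2 ^ (40 * DD d k) := by rw [← pow_add]; congr 1; ring
    have h2 := rho_pos hd k
    rw [hm, Nat.le_div_iff_mul_le (by omega), nn_eq]
    calc 2 ^ (60 * DD d k) * (3 * rho d k) ≤ 2 ^ (60 * DD d k) * 2 ^ (40 * DD d k) :=
          Nat.mul_le_mul_left _ h1
      _ = 2 ^ (100 * DD d k) := by rw [← pow_add]; congr 1; ring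
  set E := 507 * (d ^ 2 * DD d k) with hE
  have hE1 : E ≤ 2 ^ (12 * DD d k) := by
    have h3 : d ^ 2 ≤ 2 ^ (2 * DD d k) := by
      calc d ^ 2 ≤ (2 ^ (DD d k)) ^ 2 := Nat.pow_le_pow_left (le_two_pow' _ _ (DD_d k)) 2
        _ = 2 ^ (2 * DD d k) := by rw [← pow_mul]; congr 1; ring
    have h4 : (507 : ℕ) ≤ 2 ^ (9 * DD d k) := by
      calc (507 : ℕ) ≤ 2 ^ 9 := by norm_num
        _ ≤ 2 ^ (9 * DD d k) := Nat.pow_le_pow_right (by norm_num) (by omega)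
    calc E ≤ 2 ^ (9 * DD d k) * (2 ^ (2 * DD d k) * 2 ^ (DD d k)) :=
          Nat.mul_le_mul h4 (Nat.mul_le_mul h3 (Nat.lt_two_pow_self).le)
      _ = 2 ^ (12 * DD d k) := by
          rw [← pow_add, ← pow_add]
          congr 1
          ring
  have hpm : (E : ℝ) ≤ p / 2 * m := by
    have e1 : (1 / 2 : ℝ) ^ (27 * DD d k) ≤ p := by
      have : 27 * DD d k = 27 * d * (NN d k) ^ d := by unfold DD; ring
      rw [this]; exact hp
    have e2 : ((2 : ℝ) ^ (60 * DD d k)) ≤ m := by exact_mod_cast hm1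
    have e3 : (E : ℝ) ≤ 2 ^ (12 * DD d k) := by exact_mod_cast hE1
    have e4 : (2 : ℝ) ^ (60 * DD d k) = 2 ^ (27 * DD d k) * 2 ^ (33 * DD d k) := by
      rw [← pow_add]; congr 1; ring
    have e5 : (1 / 2 : ℝ) ^ (27 * DD d k) * 2 ^ (27 * DD d k) = 1 := by
      rw [← mul_pow]; norm_num
    have e6 : (2 : ℝ) ^ (33 * DD d k) ≤ p * m := by
      calc (2 : ℝ) ^ (33 * DD d k) = (1 / 2 : ℝ) ^ (27 * DD d k) * 2 ^ (27 * DD d k) *
              2 ^ (33 * DD d k) := by rw [e5, one_mul]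
        _ = (1 / 2 : ℝ) ^ (27 * DD d k) * 2 ^ (60 * DD d k) := by rw [e4]; ring
        _ ≤ p * m := mul_le_mul e1 e2 (by positivity) hp0
    have e7 : (2 : ℝ) * 2 ^ (12 * DD d k) ≤ 2 ^ (33 * DD d k) := by
      calc (2 : ℝ) * 2 ^ (12 * DD d k) = 2 ^ (12 * DD d k + 1) := by rw [pow_succ]; ring
        _ ≤ 2 ^ (33 * DD d k) := pow_le_pow_right₀ (by norm_num) (by omega)
    linarith
  have h1 : (1 - p / 2) ^ m ≤ (1 / 2 : ℝ) ^ E := by
    calc (1 - p / 2) ^ m ≤ (Real.exp (-(p / 2))) ^ m := by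
          apply pow_le_pow_left₀ (by linarith)
          have := Real.add_one_le_exp (-(p / 2))
          linarith
      _ = Real.exp (-(p / 2 * m)) := by
          rw [← Real.exp_nat_mul]
          congr 1
          ring
      _ ≤ Real.exp (-(E : ℝ)) := Real.exp_le_exp.mpr (by linarith)
      _ = (Real.exp (-1)) ^ E := by
          rw [← Real.exp_nat_mul]
          congr 1
          ring
      _ ≤ (1 / 2 : ℝ) ^ E := by
          apply pow_le_pow_left₀ (Real.exp_pos _).le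
          rw [Real.exp_neg, one_div]
          apply inv_anti₀ (by norm_num)
          have := Real.add_one_le_exp (1 : ℝ)
          linarith
  have h2 := exp_total hd k d (le_two_pow' _ _ (DD_d k))
  have h3 : (4 : ℝ) * (nn d k : ℝ) ^ d * d * (NN d (k + 1) : ℝ) ^ (CC d) ≤ 2 ^ E := by
    exact_mod_cast h2
  rw [mul_one_div, le_div_iff₀ (by positivity)]
  have h4 : (1 / 2 : ℝ) ^ E * 2 ^ E = 1 := by
    rw [← mul_pow]; norm_num
  have h5 : (0 : ℝ) ≤ (nn d k : ℝ) ^ d * d * (NN d (k + 1) : ℝ) ^ (CC d) := by positivity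
  have h6 : (0 : ℝ) < (1 / 2 : ℝ) ^ E := by positivity
  calc (nn d k : ℝ) ^ d * d * (1 - p / 2) ^ m * (NN d (k + 1) : ℝ) ^ CC d
      = ((nn d k : ℝ) ^ d * d * (NN d (k + 1) : ℝ) ^ CC d) * (1 - p / 2) ^ m := by ring
    _ ≤ ((nn d k : ℝ) ^ d * d * (NN d (k + 1) : ℝ) ^ CC d) * (1 / 2 : ℝ) ^ E :=
        mul_le_mul_of_nonneg_left h1 h5
    _ = (1 / 4) * ((4 * (nn d k : ℝ) ^ d * d * (NN d (k + 1) : ℝ) ^ CC d) *
          (1 / 2 : ℝ) ^ E) := by ring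
    _ ≤ (1 / 4) * (2 ^ E * (1 / 2 : ℝ) ^ E) := by
        apply mul_le_mul_of_nonneg_left _ (by norm_num)
        exact mul_le_mul_of_nonneg_right h3 h6.le
    _ = 1 / 4 := by rw [mul_comm (2 ^ _ : ℝ), h4]; norm_num

/-- N6 (summability for Borel-Cantelli; levels at least one) -/
theorem num_BC (hd : 1 ≤ d) (k : ℕ) (hk : 1 ≤ k) (η0 : ℝ) :
    ((2 * (rho d k + 10) + 1 : ℕ) : ℝ) ^ d * eta d η0 k ≤ (1 / 2 : ℝ) ^ k := by
  have hN : (0 : ℝ) < NN d k := by exact_mod_cast NN_pos' d k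
  unfold eta
  rw [if_neg (by omega), CC_eq, pow_mul, ← one_div_pow, ← mul_pow]
  have h0 : ((2 * (rho d k + 10) + 1 : ℕ) : ℝ) * (1 / (NN d k : ℝ) ^ (2 * d + 2)) ≤
      (1 / 2 : ℝ) ^ k := by
    rw [mul_one_div, div_le_iff₀ (by positivity)]
    have h1 := rho_bound hd k hk
    have h2 := rho_pos hd k
    have h3 : 2 ^ k * (2 * (rho d k + 10) + 1) ≤ (NN d k) ^ (2 * d + 2) := by
      refine le_trans ?_ h1
      apply Nat.mul_le_mul_left
      omega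
    have h5 : (2 : ℝ) ^ k * ((2 * (rho d k + 10) + 1 : ℕ) : ℝ) ≤ (NN d k : ℝ) ^ (2 * d + 2) := by
      exact_mod_cast h3
    have h4 : (1 / 2 : ℝ) ^ k * 2 ^ k = 1 := by
      rw [← mul_pow]; norm_num
    calc ((2 * (rho d k + 10) + 1 : ℕ) : ℝ) = (1 / 2 : ℝ) ^ k * (2 ^ k *
          ((2 * (rho d k + 10) + 1 : ℕ) : ℝ)) := by rw [← mul_assoc, h4, one_mul]
      _ ≤ (1 / 2 : ℝ) ^ k * (NN d k : ℝ) ^ (2 * d + 2) :=
          mul_le_mul_of_nonneg_left h5 (by positivity)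
  calc (((2 * (rho d k + 10) + 1 : ℕ) : ℝ) * (1 / (NN d k : ℝ) ^ (2 * d + 2))) ^ d
      ≤ ((1 / 2 : ℝ) ^ k) ^ d := pow_le_pow_left₀ (by positivity) h0 _
    _ = (1 / 2 : ℝ) ^ (k * d) := by rw [← pow_mul]
    _ ≤ (1 / 2 : ℝ) ^ k :=
        pow_le_pow_of_le_one (by norm_num) (by norm_num) (Nat.le_mul_of_pos_right k hd)

/-- N7 (level zero, this is where the dimension must be large) -/
theorem num_level0 (ε : ℝ) (hε : 0 < ε) :
    ∀ᶠ d : ℕ in Filter.atTop,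
      ((2 * rho d 0 + 1 : ℕ) : ℝ) ^ d *
        (4 ^ d * Real.exp (-(ε ^ 2 * d / 16)) ^ (⌊ε * d / 16⌋₊ + 1)) ≤ (1 / 2 : ℝ) ^ d := by
  set c : ℝ := ε ^ 3 / 256 with hc
  have hc0 : 0 < c := by positivity
  have ht : Filter.Tendsto (fun d : ℕ => (c * d) ^ 7 * Real.exp (-(c * d))) Filter.atTop (nhds 0) := by
    have h1 := Real.tendsto_pow_mul_exp_neg_atTop_nhds_zero 7
    have h2 : Filter.Tendsto (fun d : ℕ => c * (d : ℝ)) Filter.atTop Filter.atTop :=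
      Filter.Tendsto.const_mul_atTop hc0 tendsto_natCast_atTop_atTop
    exact h1.comp h2
  have hpos : (0 : ℝ) < c ^ 7 / (8 * 10 ^ 9) := by positivity
  filter_upwards [ht.eventually (gt_mem_nhds hpos), Filter.eventually_ge_atTop 1] with d h1 hd
  have hd0 : (1 : ℝ) ≤ d := by exact_mod_cast hd
  have hrho : ((2 * rho d 0 + 1 : ℕ) : ℝ) ≤ 10 ^ 9 * (d : ℝ) ^ 7 := by
    have h2 : 2 * rho d 0 + 1 ≤ 10 ^ 9 * d ^ 7 := by
      unfold rho bb MM BB
      simp only [if_true, NN, one_pow, mul_one]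
      have h3 : 2 * d + 1 ≤ 3 * d := by omega
      have h4 : 1 ≤ d ^ 7 := Nat.one_le_pow _ _ hd
      calc 2 * (50 * d * ((2 * d + 1) * (1000 * d ^ 2)) ^ 2) + 1
          ≤ 2 * (50 * d * ((3 * d) * (1000 * d ^ 2)) ^ 2) + 1 := by
            apply Nat.add_le_add_right
            apply Nat.mul_le_mul_left
            apply Nat.mul_le_mul_left
            apply Nat.pow_le_pow_left
            exact Nat.mul_le_mul_right _ h3
        _ = 900000000 * d ^ 7 + 1 := by ring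
        _ ≤ 10 ^ 9 * d ^ 7 := by
            norm_num
            omega
    exact_mod_cast h2
  have hexp : Real.exp (-(ε ^ 2 * d / 16)) ^ (⌊ε * d / 16⌋₊ + 1) ≤ Real.exp (-(c * d)) ^ d := by
    rw [← Real.exp_nat_mul, ← Real.exp_nat_mul]
    apply Real.exp_le_exp.mpr
    have h2 : ε * d / 16 ≤ ((⌊ε * d / 16⌋₊ + 1 : ℕ) : ℝ) := by
      push_cast
      exact (Nat.lt_floor_add_one _).le
    have h3 : (0 : ℝ) ≤ ε ^ 2 * d / 16 := by positivity
    have h4 : (ε * d / 16) * (ε ^ 2 * d / 16) ≤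
        ((⌊ε * d / 16⌋₊ + 1 : ℕ) : ℝ) * (ε ^ 2 * d / 16) :=
      mul_le_mul_of_nonneg_right h2 h3
    have h5 : (d : ℝ) * -(c * d) = -((ε * d / 16) * (ε ^ 2 * d / 16)) := by
      rw [hc]; ring
    rw [h5]
    linarith
  have hkey : ((2 * rho d 0 + 1 : ℕ) : ℝ) * (4 * Real.exp (-(c * d))) ≤ 1 / 2 := by
    have h2 : (d : ℝ) ^ 7 * Real.exp (-(c * d)) < 1 / (8 * 10 ^ 9) := by
      have h3 : (c * d) ^ 7 * Real.exp (-(c * d)) = c ^ 7 * ((d : ℝ) ^ 7 * Real.exp (-(c * d))) := by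
        ring
      rw [h3] at h1
      have h4 : c ^ 7 / (8 * 10 ^ 9) = c ^ 7 * (1 / (8 * 10 ^ 9)) := by ring
      rw [h4] at h1
      exact lt_of_mul_lt_mul_left h1 (by positivity)
    have h5 : 0 < Real.exp (-(c * d)) := Real.exp_pos _
    calc ((2 * rho d 0 + 1 : ℕ) : ℝ) * (4 * Real.exp (-(c * d)))
        ≤ (10 ^ 9 * (d : ℝ) ^ 7) * (4 * Real.exp (-(c * d))) :=
          mul_le_mul_of_nonneg_right hrho (by positivity)
      _ = 4 * 10 ^ 9 * ((d : ℝ) ^ 7 * Real.exp (-(c * d))) := by ring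
      _ ≤ 4 * 10 ^ 9 * (1 / (8 * 10 ^ 9)) := by
          apply mul_le_mul_of_nonneg_left h2.le (by positivity)
      _ = 1 / 2 := by norm_num
  calc ((2 * rho d 0 + 1 : ℕ) : ℝ) ^ d *
        (4 ^ d * Real.exp (-(ε ^ 2 * d / 16)) ^ (⌊ε * d / 16⌋₊ + 1))
      ≤ ((2 * rho d 0 + 1 : ℕ) : ℝ) ^ d * (4 ^ d * Real.exp (-(c * d)) ^ d) := by
        apply mul_le_mul_of_nonneg_left _ (by positivity)
        exact mul_le_mul_of_nonneg_left hexp (by positivity)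
    _ = (((2 * rho d 0 + 1 : ℕ) : ℝ) * (4 * Real.exp (-(c * d)))) ^ d := by
        rw [mul_pow, mul_pow]
    _ ≤ (1 / 2 : ℝ) ^ d := pow_le_pow_left₀ (by positivity) hkey _

end Pool.Agent.Helper94.Sand
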