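import Pool.Agent.Helper94.Sand.Basic

open MeasureTheory ProbabilityTheory
open scoped NNReal Nat

namespace Pool.Agent.Helper94.Sand

/-- P1. Chernoff bound for the lower tail. -/
theorem poisson_lower_tail (d : ℕ) (ε : ℝ) (hε : 0 < ε) (hε1 : ε ≤ 1) (l : ℝ≥0)
    (hl : (l : ℝ) = (1 + ε) * d) :
    (poissonMeasure l).real {n : ℕ | n < ⌈(1 + ε / 2) * d⌉₊} ≤ Real.exp (-(ε ^ 2 * d / 16)) := by
  have hset : {n : ℕ | n < ⌈(1 + ε / 2) * (d : ℝ)⌉₊} =
      ((Finset.range ⌈(1 + ε / 2) * (d : ℝ)⌉₊ : Finset ℕ) : Set ℕ) := by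
    ext n
    rw [Finset.mem_coe, Finset.mem_range]
    exact Iff.rfl
  rw [hset, ← sum_measureReal_singleton]
  set x : ℝ := (1 + ε / 2) * d with hx
  set θ : ℝ := ε / 4 with hθ
  have hθ0 : 0 ≤ θ := by positivity
  have hexp : Real.exp (-θ) ≤ 1 - θ + θ ^ 2 / 2 := by
    have h1 := Real.quadratic_le_exp_of_nonneg hθ0
    have h2 : 0 < 1 + θ + θ ^ 2 / 2 := by positivity
    rw [Real.exp_neg, inv_le_comm₀ (Real.exp_pos _) (by nlinarith)]
    refine le_trans ?_ h1
    rw [inv_le_iff_one_le_mul₀ (by nlinarith)]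
    nlinarith [sq_nonneg θ, sq_nonneg (θ ^ 2)]
  have hl0 : (0 : ℝ) ≤ l := l.2
  calc ∑ n ∈ Finset.range ⌈x⌉₊, (poissonMeasure l).real {n}
      ≤ ∑ n ∈ Finset.range ⌈x⌉₊, Real.exp (-l + θ * x) * ((l * Real.exp (-θ)) ^ n / n !) := by
        apply Finset.sum_le_sum
        intro n hn
        rw [Finset.mem_range, Nat.lt_ceil] at hn
        rw [poissonMeasure_real_singleton]
        have h1 : 1 ≤ Real.exp (θ * x - θ * n) := by
          apply Real.one_le_exp
          nlinarith
        have h2 : Real.exp (-l + θ * x) * ((l * Real.exp (-θ)) ^ n / n !) =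
            (Real.exp (-l) * l ^ n / n !) * Real.exp (θ * x - θ * n) := by
          rw [mul_pow, ← Real.exp_nat_mul, Real.exp_add]
          have : Real.exp (θ * x - θ * n) = Real.exp (θ * x) * Real.exp (n * -θ) := by
            rw [← Real.exp_add]
            congr 1
            ring
          rw [this]
          ring
        rw [h2]
        exact le_mul_of_one_le_right (by positivity) h1
    _ = Real.exp (-l + θ * x) * ∑ n ∈ Finset.range ⌈x⌉₊, ((l * Real.exp (-θ)) ^ n / n !) := by
        rw [Finset.mul_sum]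
    _ ≤ Real.exp (-l + θ * x) * Real.exp (l * Real.exp (-θ)) := by
        apply mul_le_mul_of_nonneg_left _ (Real.exp_pos _).le
        exact Real.sum_le_exp_of_nonneg (by positivity) _
    _ = Real.exp (-l + θ * x + l * Real.exp (-θ)) := by rw [← Real.exp_add]
    _ ≤ Real.exp (-(ε ^ 2 * d / 16)) := by
        apply Real.exp_le_exp.mpr
        have h1 : (l : ℝ) * Real.exp (-θ) ≤ l * (1 - θ + θ ^ 2 / 2) :=
          mul_le_mul_of_nonneg_left hexp hl0
        have h2 : -(l : ℝ) + θ * x + l * (1 - θ + θ ^ 2 / 2) =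
            d * (-(ε ^ 2) / 8 + (1 + ε) * ε ^ 2 / 32) := by
          rw [hl, hx, hθ]
          ring
        have hd0 : (0 : ℝ) ≤ d := Nat.cast_nonneg d
        have h3 : (d : ℝ) * (-(ε ^ 2) / 8 + (1 + ε) * ε ^ 2 / 32) ≤ d * (-(ε ^ 2) / 16) := by
          apply mul_le_mul_of_nonneg_left _ hd0
          nlinarith [sq_nonneg ε]
        linarith

/-- P2. Probability of a seed site. -/
theorem poisson_seed (d : ℕ) (hd : 1 ≤ d) (l : ℝ≥0) (hl : (d : ℝ) ≤ l) (hl2 : (l : ℝ) ≤ 2 * d) :
    (1 / 2 : ℝ) ^ (27 * d) ≤ (poissonMeasure l).real {n : ℕ | 8 * d ≤ n} := by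
  have hd0 : (0 : ℝ) < d := by exact_mod_cast hd
  calc (1 / 2 : ℝ) ^ (27 * d) = (1 / 2 : ℝ) ^ (3 * d) * (1 / 2) ^ (24 * d) := by
        rw [← pow_add]
        congr 1
        ring
    _ ≤ Real.exp (-l) * (1 / 2) ^ (24 * d) := by
        apply mul_le_mul_of_nonneg_right _ (by positivity)
        have h1 : Real.exp (-(2 * d : ℝ)) ≤ Real.exp (-l) := Real.exp_le_exp.mpr (by linarith)
        refine le_trans ?_ h1
        have h2 : Real.exp (-(2 * d : ℝ)) = (Real.exp (-2)) ^ d := by
          rw [← Real.exp_nat_mul]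
          congr 1
          ring
        rw [h2, pow_mul]
        apply pow_le_pow_left₀ (by positivity)
        have h3 : Real.exp 2 ≤ 8 := by
          have h4 := Real.exp_one_lt_d9
          have h5 : Real.exp 2 = Real.exp 1 * Real.exp 1 := by
            rw [← Real.exp_add]; norm_num
          rw [h5]
          nlinarith [Real.exp_pos 1]
        rw [Real.exp_neg]
        have h6 : (1 / 2 : ℝ) ^ 3 = (8 : ℝ)⁻¹ := by norm_num
        rw [h6]
        exact inv_anti₀ (Real.exp_pos 2) h3
    _ = Real.exp (-l) * ((d : ℝ) ^ (8 * d) / ((8 * d : ℕ) : ℝ) ^ (8 * d)) := by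
        congr 1
        rw [← div_pow]
        have h1 : (d : ℝ) / ((8 * d : ℕ) : ℝ) = (1 / 2) ^ 3 := by
          push_cast
          field_simp
          norm_num
        rw [h1, ← pow_mul]
        congr 1
        ring
    _ ≤ Real.exp (-l) * ((l : ℝ) ^ (8 * d) / ((8 * d)! : ℝ)) := by
        apply mul_le_mul_of_nonneg_left _ (Real.exp_pos _).le
        apply div_le_div₀ (by positivity)
        · exact pow_le_pow_left₀ hd0.le hl _
        · exact_mod_cast Nat.factorial_pos _
        · exact_mod_cast Nat.factorial_le_pow (8 * d)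
    _ = (poissonMeasure l).real {8 * d} := by
        rw [poissonMeasure_real_singleton]
        ring
    _ ≤ _ := by
        apply measureReal_mono _ (measure_ne_top _ _)
        intro n hn
        rw [Set.mem_singleton_iff] at hn
        show 8 * d ≤ n
        rw [hn]

end Pool.Agent.Helper94.Sand
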