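import Pool.Agent.Helper94.Sand.Colour

open MeasureTheory ProbabilityTheory

namespace Pool.Agent.Helper94.Sand

variable {d a0 κ : ℕ} (ν : Measure ℕ) [IsProbabilityMeasure ν]

theorem card_ball (y : Site d) (r : ℕ) :
    (Finset.Icc (fun i => y i - (r : ℤ)) (fun i => y i + (r : ℤ))).card = (2 * r + 1) ^ d := by
  rw [Pi.card_Icc]
  have : ∀ i ∈ (Finset.univ : Finset (Fin d)),
      (Finset.Icc (y i - (r : ℤ)) (y i + (r : ℤ))).card = 2 * r + 1 := by
    intro i _
    rw [Int.card_Icc]
    omega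
  rw [Finset.prod_congr rfl this, Finset.prod_const, Finset.card_univ, Fintype.card_fin]

theorem prob_G1 (hρ : ∀ k, rho d k + 1 ≤ nn d k) (k : ℕ) (η : ℝ)
    (hη : ∀ x, (muP d ν).real {A | Bad d a0 κ k A x} ≤ η) (y : Site d) :
    (muP d ν).real {A | bb d k < ({w | Bad d a0 κ k A w} ∩ Ball y (rho d k)).ncard} ≤
      (((2 * rho d k + 1 : ℕ) : ℝ) ^ d * η) ^ (BB d k) := by
  classical
  have hη0 : 0 ≤ η := le_trans measureReal_nonneg (hη y)
  set I : Finset (Site d) := Finset.Icc (fun i => y i - (rho d k : ℤ)) (fun i => y i + (rho d k : ℤ))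
    with hI
  set TT : Finset (Finset (Site d)) := (I.powersetCard (BB d k)).filter
    (fun T => ∀ w ∈ T, ∀ w' ∈ T, w ≠ w' → Disjoint (depSet d k w) (depSet d k w')) with hTT
  have hsub : {A | bb d k < ({w | Bad d a0 κ k A w} ∩ Ball y (rho d k)).ncard} ⊆
      ⋃ T ∈ TT, ⋂ w ∈ T, {A | Bad d a0 κ k A w} := by
    intro A hA
    have hfin : ({w | Bad d a0 κ k A w} ∩ Ball y (rho d k)).Finite :=
      (Ball_finite y (rho d k)).subset Set.inter_subset_right
    have hA' : MM d k * BB d k < hfin.toFinset.card := by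
      rw [← Set.ncard_eq_toFinset_card _ hfin]
      exact hA
    obtain ⟨T, hT1, hT2, hT3⟩ := colour k (BB d k) hfin.toFinset hA'
    rw [Set.mem_iUnion₂]
    refine ⟨T, ?_, ?_⟩
    · rw [hTT, Finset.mem_filter, Finset.mem_powersetCard]
      refine ⟨⟨?_, hT2⟩, hT3⟩
      intro w hw
      have h1 := (hfin.mem_toFinset.mp (hT1 hw)).2
      rw [hI, Finset.mem_Icc]
      exact h1
    · rw [Set.mem_iInter₂]
      intro w hw
      exact (hfin.mem_toFinset.mp (hT1 hw)).1
  calc (muP d ν).real {A | bb d k < ({w | Bad d a0 κ k A w} ∩ Ball y (rho d k)).ncard}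
      ≤ (muP d ν).real (⋃ T ∈ TT, ⋂ w ∈ T, {A | Bad d a0 κ k A w}) := measureReal_mono hsub (measure_ne_top _ _)
    _ ≤ ∑ T ∈ TT, (muP d ν).real (⋂ w ∈ T, {A | Bad d a0 κ k A w}) :=
        measureReal_biUnion_finset_le TT _
    _ ≤ ∑ T ∈ TT, η ^ (BB d k) := by
        apply Finset.sum_le_sum
        intro T hT
        rw [hTT, Finset.mem_filter, Finset.mem_powersetCard] at hT
        obtain ⟨⟨_, hT2⟩, hT3⟩ := hT
        rw [indep_finset ν T (fun w => depSet d k w) (fun w => {A | Bad d a0 κ k A w})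
          (fun w _ => depSet_finite k w) hT3 (fun w _ => Bad_depSet hρ k w)]
        calc ∏ w ∈ T, (muP d ν).real {A | Bad d a0 κ k A w} ≤ ∏ w ∈ T, η :=
              Finset.prod_le_prod (fun w _ => measureReal_nonneg) (fun w _ => hη w)
          _ = η ^ (BB d k) := by rw [Finset.prod_const, hT2]
    _ = (TT.card : ℝ) * η ^ (BB d k) := by rw [Finset.sum_const, nsmul_eq_mul]
    _ ≤ (((2 * rho d k + 1 : ℕ) : ℝ) ^ d) ^ (BB d k) * η ^ (BB d k) := by
        apply mul_le_mul_of_nonneg_right _ (pow_nonneg hη0 _)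
        have h1 : TT.card ≤ ((2 * rho d k + 1) ^ d) ^ (BB d k) := by
          calc TT.card ≤ (I.powersetCard (BB d k)).card := Finset.card_filter_le _ _
            _ = I.card.choose (BB d k) := Finset.card_powersetCard _ _
            _ ≤ I.card ^ (BB d k) := Nat.choose_le_pow _ _
            _ = ((2 * rho d k + 1) ^ d) ^ (BB d k) := by rw [hI, card_ball]
        exact_mod_cast h1
    _ = (((2 * rho d k + 1 : ℕ) : ℝ) ^ d * η) ^ (BB d k) := by rw [mul_pow]

/-- The seed event. -/
def seedEv (d N : ℕ) (y : Site d) : Set (Site d → ℕ) := {A | ∀ v, coarse N v = y → 8 * d ≤ A v}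

theorem prob_seed (N : ℕ) (hN : 1 ≤ N) (y : Site d) :
    (muP d ν).real (seedEv d N y) = (ν.real {n | 8 * d ≤ n}) ^ (N ^ d) := by
  classical
  set V : Finset (Site d) := Finset.Icc (fun i => (N : ℤ) * y i)
    (fun i => (N : ℤ) * y i + ((N : ℤ) - 1)) with hV
  have hmem : ∀ v, v ∈ V ↔ coarse N v = y := by
    intro v
    rw [coarse_eq_iff hN, hV, Finset.mem_Icc, Pi.le_def, Pi.le_def, ← forall_and]
    apply forall_congr'
    intro i
    constructor
    · intro h; omega
    · intro h; omega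
  have h1 : seedEv d N y = ⋂ v ∈ V, {A | A v ∈ {n | 8 * d ≤ n}} := by
    ext A
    rw [Set.mem_iInter₂]
    constructor
    · intro h v hv
      exact h v ((hmem v).mp hv)
    · intro h v hv
      exact h v ((hmem v).mpr hv)
  rw [h1, indep_finset ν V (fun v => {v}) (fun v => {A | A v ∈ {n | 8 * d ≤ n}})
    (fun v _ => Set.finite_singleton v) (fun v _ w _ hne => Set.disjoint_singleton.mpr hne)
    (fun v _ => depOn_eval v _)]
  rw [Finset.prod_congr rfl (fun v _ => real_eval ν v {n | 8 * d ≤ n}), Finset.prod_const]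
  congr 1
  rw [hV, Pi.card_Icc]
  have : ∀ i ∈ (Finset.univ : Finset (Fin d)),
      (Finset.Icc ((N : ℤ) * y i) ((N : ℤ) * y i + ((N : ℤ) - 1))).card = N := by
    intro i _
    rw [Int.card_Icc]
    omega
  rw [Finset.prod_congr rfl this, Finset.prod_const, Finset.card_univ, Fintype.card_fin]

/-- The clean seed event. -/
def cleanEv (d a0 κ k : ℕ) (y : Site d) : Set (Site d → ℕ) :=
  {A | A ∈ seedEv d (NN d k) y ∧ ∀ w ∈ Ball y (rho d k), ¬ Bad d a0 κ k A w}

theorem cleanEv_dep (hρ : ∀ k, rho d k + 1 ≤ nn d k) (k : ℕ) (y : Site d) :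
    DepOn (Near (NN d k) (rho d k + 1) y) (cleanEv d a0 κ k y) := by
  have key : ∀ A A' : Site d → ℕ, (∀ v ∈ Near (NN d k) (rho d k + 1) y, A v = A' v) →
      A ∈ cleanEv d a0 κ k y → A' ∈ cleanEv d a0 κ k y := by
    intro A A' h hA
    refine ⟨?_, ?_⟩
    · intro v hv
      rw [← h v _]
      · exact hA.1 v hv
      · intro i
        rw [hv]
        simp only [sub_self, abs_zero]
        positivity
    · intro w hw hbad
      apply hA.2 w hw
      apply (Bad_dep hρ k w A A' _).mpr hbad
      intro v hv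
      apply h
      intro i
      have h1 := hv i
      have h2 := (mem_Ball.mp hw) i
      rw [abs_le] at h1 h2 ⊢
      push_cast at h1 h2 ⊢
      omega
  intro A A' h
  exact ⟨key A A' h, key A' A (fun v hv => (h v hv).symm)⟩

theorem prob_clean (hρ : ∀ k, rho d k + 1 ≤ nn d k) (ha0 : a0 ≤ 8 * d) (k : ℕ) (η : ℝ)
    (hη : ∀ x, (muP d ν).real {A | Bad d a0 κ k A x} ≤ η) (y : Site d) :
    (ν.real {n | 8 * d ≤ n}) ^ ((NN d k) ^ d) * (1 - ((2 * rho d k + 1 : ℕ) : ℝ) ^ d * η) ≤
      (muP d ν).real (cleanEv d a0 κ k y) := by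
  classical
  -- the modification map
  let T : (Site d → ℕ) → (Site d → ℕ) := fun A v => if coarse (NN d k) v = y then 8 * d else A v
  set NB : Set (Site d → ℕ) := {A | ∀ w ∈ Ball y (rho d k), ¬ Bad d a0 κ k A w} with hNB
  set NBT : Set (Site d → ℕ) := {A | ∀ w ∈ Ball y (rho d k), ¬ Bad d a0 κ k (T A) w} with hNBT
  have h1 : seedEv d (NN d k) y ∩ NBT ⊆ cleanEv d a0 κ k y := by
    rintro A ⟨hA1, hA2⟩
    refine ⟨hA1, ?_⟩
    intro w hw hbad
    apply hA2 w hw
    apply Bad_mono ha0 k (T A) A _ w hbad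
    intro v
    by_cases hv : coarse (NN d k) v = y
    · exact le_trans (min_le_right _ _) (hA1 v hv)
    · simp only [T, if_neg hv]
      exact min_le_left _ _
  have h2 : NB ⊆ NBT := by
    intro A hA w hw hbad
    apply hA w hw
    apply Bad_mono ha0 k A (T A) _ w hbad
    intro v
    by_cases hv : coarse (NN d k) v = y
    · simp only [T, if_pos hv]
      exact min_le_right _ _
    · simp only [T, if_neg hv]
      exact min_le_left _ _
  have hdepNB : DepOn (Near (NN d k) (rho d k + 1) y) NB := by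
    have key : ∀ A A' : Site d → ℕ, (∀ v ∈ Near (NN d k) (rho d k + 1) y, A v = A' v) →
        A ∈ NB → A' ∈ NB := by
      intro A A' h hA w hw hbad
      apply hA w hw
      apply (Bad_dep hρ k w A A' _).mpr hbad
      intro v hv
      apply h
      intro i
      have h1 := hv i
      have h2 := (mem_Ball.mp hw) i
      rw [abs_le] at h1 h2 ⊢
      push_cast at h1 h2 ⊢
      omega
    intro A A' h
    exact ⟨key A A' h, key A' A (fun v hv => (h v hv).symm)⟩
  have h3 : DepOn (Near (NN d k) (rho d k + 1) y \ {v | coarse (NN d k) v = y}) NBT := by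
    intro A A' h
    have h4 : ∀ v ∈ Near (NN d k) (rho d k + 1) y, T A v = T A' v := by
      intro v hv
      by_cases hv2 : coarse (NN d k) v = y
      · simp only [T, if_pos hv2]
      · simp only [T, if_neg hv2]
        exact h v ⟨hv, hv2⟩
    exact hdepNB (T A) (T A') h4
  have h4 : DepOn {v | coarse (NN d k) v = y} (seedEv d (NN d k) y) := by
    intro A A' h
    constructor
    · intro hA v hv
      rw [← h v hv]; exact hA v hv
    · intro hA v hv
      rw [h v hv]; exact hA v hv
  have hfinNear := Near_finite (NN d k) (rho d k + 1) (NN_pos d k) y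
  have hfinBlock : ({v | coarse (NN d k) v = y} : Set (Site d)).Finite := by
    apply hfinNear.subset
    intro v hv i
    have : coarse (NN d k) v = y := hv
    rw [this]
    simp only [sub_self, abs_zero]
    positivity
  have h5 := indep_two ν hfinBlock (hfinNear.subset (Set.sdiff_subset (t := {v | coarse (NN d k) v = y})))
    Set.disjoint_sdiff_right h4 h3
  have h6 : 1 - ((2 * rho d k + 1 : ℕ) : ℝ) ^ d * η ≤ (muP d ν).real NB := by
    have hmeas : MeasurableSet NB := hdepNB.measurableSet hfinNear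
    have h7 : (muP d ν).real NBᶜ ≤ ((2 * rho d k + 1 : ℕ) : ℝ) ^ d * η := by
      have hsub : NBᶜ ⊆ ⋃ w ∈ Finset.Icc (fun i => y i - (rho d k : ℤ))
          (fun i => y i + (rho d k : ℤ)), {A | Bad d a0 κ k A w} := by
        intro A hA
        have : ∃ w ∈ Ball y (rho d k), Bad d a0 κ k A w := by
          by_contra hcon
          push Not at hcon
          exact hA hcon
        obtain ⟨w, hw, hbad⟩ := this
        rw [Set.mem_iUnion₂]
        exact ⟨w, Finset.mem_Icc.mpr hw, hbad⟩
      calc (muP d ν).real NBᶜ ≤ _ := measureReal_mono hsub (measure_ne_top _ _)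
        _ ≤ ∑ w ∈ Finset.Icc (fun i => y i - (rho d k : ℤ))
          (fun i => y i + (rho d k : ℤ)), (muP d ν).real {A | Bad d a0 κ k A w} :=
            measureReal_biUnion_finset_le _ _
        _ ≤ ∑ w ∈ Finset.Icc (fun i => y i - (rho d k : ℤ))
          (fun i => y i + (rho d k : ℤ)), η := Finset.sum_le_sum (fun w _ => hη w)
        _ = ((2 * rho d k + 1 : ℕ) : ℝ) ^ d * η := by
            rw [Finset.sum_const, card_ball, nsmul_eq_mul]
            push_cast
            ring
    rw [probReal_compl_eq_one_sub hmeas] at h7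
    linarith
  calc (ν.real {n | 8 * d ≤ n}) ^ ((NN d k) ^ d) * (1 - ((2 * rho d k + 1 : ℕ) : ℝ) ^ d * η)
      ≤ (ν.real {n | 8 * d ≤ n}) ^ ((NN d k) ^ d) * (muP d ν).real NBT := by
        apply mul_le_mul_of_nonneg_left _ (pow_nonneg measureReal_nonneg _)
        exact le_trans h6 (measureReal_mono h2)
    _ = (muP d ν).real (seedEv d (NN d k) y) * (muP d ν).real NBT := by
        rw [prob_seed ν (NN d k) (NN_pos d k) y]
    _ = (muP d ν).real (seedEv d (NN d k) y ∩ NBT) := h5.symm
    _ ≤ _ := measureReal_mono h1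

/-- No clean seed on a line. -/
theorem prob_line (hρ : ∀ k, rho d k + 1 ≤ nn d k) (k : ℕ) (hρ3 : 3 ≤ rho d k) (c : ℝ)
    (hc : ∀ y, c ≤ (muP d ν).real (cleanEv d a0 κ k y)) (x y : Site d)
    (hy : coarse (nn d k) y = x) (i : Fin d) :
    (muP d ν).real {A | ¬ ∃ y', coarse (nn d k) y' = x ∧ (∀ j, j ≠ i → y' j = y j) ∧
      A ∈ cleanEv d a0 κ k y'} ≤ (1 - c) ^ (nn d k / (3 * rho d k)) := by
  classical
  set m := nn d k / (3 * rho d k) with hm
  let pt : ℕ → Site d := fun j => Function.update y i ((nn d k : ℤ) * x i + 3 * rho d k * j)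
  have hpt : ∀ j ∈ Finset.range m, coarse (nn d k) (pt j) = x := by
    intro j hj
    rw [Finset.mem_range] at hj
    rw [coarse_eq_iff (nn_pos d k)] at hy ⊢
    intro l
    by_cases hl : l = i
    · subst hl
      simp only [pt, Function.update_self]
      have h1 : 3 * rho d k * j < nn d k := by
        have h2 : 3 * rho d k * m ≤ nn d k := Nat.mul_div_le _ _
        have h3 : 3 * rho d k * j < 3 * rho d k * m := by
          apply Nat.mul_lt_mul_of_pos_left hj
          omega
        omega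
      have h1' : (3 * rho d k * j : ℤ) < nn d k := by exact_mod_cast h1
      have h4 : (0 : ℤ) ≤ 3 * rho d k * j := by positivity
      constructor <;> linarith
    · simp only [pt, Function.update_of_ne hl]
      exact hy l
  have hsub : {A | ¬ ∃ y', coarse (nn d k) y' = x ∧ (∀ j, j ≠ i → y' j = y j) ∧
      A ∈ cleanEv d a0 κ k y'} ⊆ ⋂ j ∈ Finset.range m, (cleanEv d a0 κ k (pt j))ᶜ := by
    intro A hA
    rw [Set.mem_iInter₂]
    intro j hj hcl
    apply hA
    refine ⟨pt j, hpt j hj, ?_, hcl⟩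
    intro l hl
    simp only [pt, Function.update_of_ne hl]
  have hdep : ∀ j, DepOn (Near (NN d k) (rho d k + 1) (pt j)) (cleanEv d a0 κ k (pt j)) :=
    fun j => cleanEv_dep hρ k (pt j)
  have hfin : ∀ j, (Near (NN d k) (rho d k + 1) (pt j)).Finite :=
    fun j => Near_finite _ _ (NN_pos d k) _
  have hdis : ∀ j ∈ Finset.range m, ∀ l ∈ Finset.range m, j ≠ l →
      Disjoint (Near (NN d k) (rho d k + 1) (pt j)) (Near (NN d k) (rho d k + 1) (pt l)) := by
    intro j _ l _ hjl
    rw [Set.disjoint_left]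
    intro v hv hv'
    have h1 := hv i
    have h2 := hv' i
    simp only [pt, Function.update_self] at h1 h2
    rw [abs_le] at h1 h2
    push_cast at h1 h2
    have h3 : (3 : ℤ) ≤ rho d k := by exact_mod_cast hρ3
    rcases lt_or_gt_of_ne hjl with h | h
    · have h4 : (j : ℤ) + 1 ≤ l := by exact_mod_cast h
      have h5 : (rho d k : ℤ) * (j + 1) ≤ rho d k * l := by
        apply mul_le_mul_of_nonneg_left h4
        omega
      nlinarith
    · have h4 : (l : ℤ) + 1 ≤ j := by exact_mod_cast h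
      have h5 : (rho d k : ℤ) * (l + 1) ≤ rho d k * j := by
        apply mul_le_mul_of_nonneg_left h4
        omega
      nlinarith
  calc (muP d ν).real {A | ¬ ∃ y', coarse (nn d k) y' = x ∧ (∀ j, j ≠ i → y' j = y j) ∧
      A ∈ cleanEv d a0 κ k y'}
      ≤ (muP d ν).real (⋂ j ∈ Finset.range m, (cleanEv d a0 κ k (pt j))ᶜ) := measureReal_mono hsub (measure_ne_top _ _)
    _ = ∏ j ∈ Finset.range m, (muP d ν).real (cleanEv d a0 κ k (pt j))ᶜ :=
        indep_finset ν (Finset.range m) (fun j => Near (NN d k) (rho d k + 1) (pt j))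
          (fun j => (cleanEv d a0 κ k (pt j))ᶜ) (fun j _ => hfin j) hdis
          (fun j _ => (hdep j).compl)
    _ ≤ ∏ j ∈ Finset.range m, (1 - c) := by
        apply Finset.prod_le_prod
        · intro j _; exact measureReal_nonneg
        · intro j _
          rw [probReal_compl_eq_one_sub ((hdep j).measurableSet (hfin j))]
          have := hc (pt j)
          linarith
    _ = (1 - c) ^ m := by rw [Finset.prod_const, Finset.card_range]

/-- One step of the recursion. -/
theorem prob_step (hρ : ∀ k, rho d k + 1 ≤ nn d k) (ha0 : a0 ≤ 8 * d) (k : ℕ)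
    (hρ3 : 3 ≤ rho d k) (η : ℝ)
    (hη : ∀ x, (muP d ν).real {A | Bad d a0 κ k A x} ≤ η)
    (hη2 : ((2 * rho d k + 1 : ℕ) : ℝ) ^ d * η ≤ 1 / 2) (x : Site d) :
    (muP d ν).real {A | Bad d a0 κ (k + 1) A x} ≤
      (nn d k : ℝ) ^ d * (((2 * rho d k + 1 : ℕ) : ℝ) ^ d * η) ^ (BB d k) +
      (nn d k : ℝ) ^ d * d *
        (1 - (ν.real {n | 8 * d ≤ n}) ^ ((NN d k) ^ d) / 2) ^ (nn d k / (3 * rho d k)) := by
  classical
  set p := (ν.real {n | 8 * d ≤ n}) ^ ((NN d k) ^ d) with hp
  have hp0 : 0 ≤ p := pow_nonneg measureReal_nonneg _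
  set Q : Finset (Site d) := Finset.Icc (fun i => (nn d k : ℤ) * x i)
    (fun i => (nn d k : ℤ) * x i + ((nn d k : ℤ) - 1)) with hQ
  have hmem : ∀ v, v ∈ Q ↔ coarse (nn d k) v = x := by
    intro v
    rw [coarse_eq_iff (nn_pos d k), hQ, Finset.mem_Icc, Pi.le_def, Pi.le_def, ← forall_and]
    apply forall_congr'
    intro i
    constructor
    · intro h; omega
    · intro h; omega
  have hcard : Q.card = (nn d k) ^ d := by
    rw [hQ, Pi.card_Icc]
    have : ∀ i ∈ (Finset.univ : Finset (Fin d)),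
        (Finset.Icc ((nn d k : ℤ) * x i) ((nn d k : ℤ) * x i + ((nn d k : ℤ) - 1))).card
          = nn d k := by
      intro i _
      rw [Int.card_Icc]
      omega
    rw [Finset.prod_congr rfl this, Finset.prod_const, Finset.card_univ, Fintype.card_fin]
  have hsub : {A | Bad d a0 κ (k + 1) A x} ⊆
      (⋃ y ∈ Q, {A | bb d k < ({w | Bad d a0 κ k A w} ∩ Ball y (rho d k)).ncard}) ∪
      (⋃ y ∈ Q, ⋃ i ∈ (Finset.univ : Finset (Fin d)),
        {A | ¬ ∃ y', coarse (nn d k) y' = x ∧ (∀ j, j ≠ i → y' j = y j) ∧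
          A ∈ cleanEv d a0 κ k y'}) := by
    intro A hA
    by_contra hcon
    rw [Set.mem_union, not_or] at hcon
    obtain ⟨h1, h2⟩ := hcon
    apply hA
    constructor
    · intro y hy
      by_contra h3
      apply h1
      rw [Set.mem_iUnion₂]
      exact ⟨y, (hmem y).mpr hy, not_le.mp h3⟩
    · intro y hy i
      by_contra h3
      apply h2
      rw [Set.mem_iUnion₂]
      refine ⟨y, (hmem y).mpr hy, ?_⟩
      rw [Set.mem_iUnion₂]
      refine ⟨i, Finset.mem_univ i, ?_⟩
      rintro ⟨y', h4, h5, h6⟩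
      exact h3 ⟨y', h4, h5, h6.1, h6.2⟩
  have hclean : ∀ y : Site d, p / 2 ≤ (muP d ν).real (cleanEv d a0 κ k y) := by
    intro y
    refine le_trans ?_ (prob_clean ν hρ ha0 k η hη y)
    have : (1 : ℝ) / 2 ≤ 1 - ((2 * rho d k + 1 : ℕ) : ℝ) ^ d * η := by linarith
    calc p / 2 = p * (1 / 2) := by ring
      _ ≤ _ := mul_le_mul_of_nonneg_left this hp0
  calc (muP d ν).real {A | Bad d a0 κ (k + 1) A x} ≤ _ := measureReal_mono hsub (measure_ne_top _ _)
    _ ≤ _ := measureReal_union_le _ _
    _ ≤ (∑ y ∈ Q, (((2 * rho d k + 1 : ℕ) : ℝ) ^ d * η) ^ (BB d k)) +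
        (∑ y ∈ Q, ∑ i ∈ (Finset.univ : Finset (Fin d)), (1 - p / 2) ^ (nn d k / (3 * rho d k))) := by
        apply add_le_add
        · refine le_trans (measureReal_biUnion_finset_le Q _) ?_
          apply Finset.sum_le_sum
          intro y _
          exact prob_G1 ν hρ k η hη y
        · refine le_trans (measureReal_biUnion_finset_le Q _) ?_
          apply Finset.sum_le_sum
          intro y hy
          refine le_trans (measureReal_biUnion_finset_le Finset.univ _) ?_
          apply Finset.sum_le_sum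
          intro i _
          exact prob_line ν hρ k hρ3 (p / 2) hclean x y ((hmem y).mp hy) i
    _ = _ := by
        simp only [Finset.sum_const, hcard, Finset.card_univ, Fintype.card_fin, nsmul_eq_mul]
        push_cast
        ring

end Pool.Agent.Helper94.Sand
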