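import Pool.Agent.Helper94.Sand.Prob

open MeasureTheory ProbabilityTheory Filter

namespace Pool.Agent.Helper94.Sand

variable {d a0 κ : ℕ} (ν : Measure ℕ) [IsProbabilityMeasure ν]

/-- Neighbours indexed by directions and signs. -/
def nbpt (x : Site d) (t : Fin d × Bool) : Site d := if t.2 then x + ee t.1 else x - ee t.1

theorem nbpt_inj (x : Site d) : Function.Injective (nbpt x) := by
  rintro ⟨i, b⟩ ⟨j, c⟩ h
  have h1 : nbpt x (i, b) i = nbpt x (j, c) i := by rw [h]
  by_cases hij : i = j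
  · subst hij
    cases b <;> cases c
    · rfl
    · exfalso
      have e1 : nbpt x (i, false) = x - ee i := rfl
      have e2 : nbpt x (i, true) = x + ee i := rfl
      rw [e1, e2, sub_ee_apply, add_ee_apply, if_pos rfl, if_pos rfl] at h1
      omega
    · exfalso
      have e1 : nbpt x (i, false) = x - ee i := rfl
      have e2 : nbpt x (i, true) = x + ee i := rfl
      rw [e1, e2, sub_ee_apply, add_ee_apply, if_pos rfl, if_pos rfl] at h1
      omega
    · rfl
  · exfalso
    have e1 : ∀ j, nbpt x (j, false) = x - ee j := fun _ => rfl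
    have e2 : ∀ j, nbpt x (j, true) = x + ee j := fun _ => rfl
    cases b <;> cases c <;> simp only [e1, e2, sub_ee_apply, add_ee_apply, if_neg hij] at h1 <;>
      rw [if_pos trivial] at h1 <;> omega

open Classical in
theorem nbr_eq_card' (P : Site d → Prop) (x : Site d) :
    nbr P x = (Finset.univ.filter (fun t : Fin d × Bool => P (nbpt x t))).card := by
  rw [Finset.card_filter, Fintype.sum_prod_type]
  unfold nbr
  apply Finset.sum_congr rfl
  intro i _
  rw [Fintype.sum_bool]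
  simp [nbpt]

theorem nbr_eq_card (P : Site d → Prop) (x : Site d)
    [DecidablePred (fun t : Fin d × Bool => P (nbpt x t))] :
    nbr P x = (Finset.univ.filter (fun t : Fin d × Bool => P (nbpt x t))).card := by
  rw [nbr_eq_card']
  congr

theorem prob_level0 (x : Site d) :
    (muP d ν).real {A | Bad d a0 κ 0 A x} ≤ 4 ^ d * (ν.real {n | n < a0}) ^ (κ + 1) := by
  classical
  set TT : Finset (Finset (Fin d × Bool)) := (Finset.univ).powersetCard (κ + 1) with hTT
  have hsub : {A | Bad d a0 κ 0 A x} ⊆ ⋃ T ∈ TT, ⋂ t ∈ T, {A | A (nbpt x t) ∈ {n | n < a0}} := by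
    intro A hA
    have hA' : κ < nbr (fun w => A w < a0) x := hA
    rw [nbr_eq_card] at hA'
    obtain ⟨T, hT1, hT2⟩ := Finset.exists_subset_card_eq (Nat.succ_le_of_lt hA')
    rw [Set.mem_iUnion₂]
    refine ⟨T, ?_, ?_⟩
    · rw [hTT, Finset.mem_powersetCard]
      exact ⟨Finset.subset_univ _, hT2⟩
    · rw [Set.mem_iInter₂]
      intro t ht
      have h3 := hT1 ht
      rw [Finset.mem_filter] at h3
      exact h3.2
  calc (muP d ν).real {A | Bad d a0 κ 0 A x} ≤ _ := measureReal_mono hsub (measure_ne_top _ _)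
    _ ≤ ∑ T ∈ TT, (muP d ν).real (⋂ t ∈ T, {A | A (nbpt x t) ∈ {n | n < a0}}) :=
        measureReal_biUnion_finset_le TT _
    _ ≤ ∑ T ∈ TT, (ν.real {n | n < a0}) ^ (κ + 1) := by
        apply Finset.sum_le_sum
        intro T hT
        rw [hTT, Finset.mem_powersetCard] at hT
        rw [indep_finset ν T (fun t => {nbpt x t}) (fun t => {A | A (nbpt x t) ∈ {n | n < a0}})
          (fun t _ => Set.finite_singleton _)
          (fun s _ t _ hne => Set.disjoint_singleton.mpr (fun h => hne (nbpt_inj x h)))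
          (fun t _ => depOn_eval _ _)]
        rw [Finset.prod_congr rfl (fun t _ => real_eval ν (nbpt x t) {n | n < a0}),
          Finset.prod_const, hT.2]
    _ = (TT.card : ℝ) * (ν.real {n | n < a0}) ^ (κ + 1) := by rw [Finset.sum_const, nsmul_eq_mul]
    _ ≤ 4 ^ d * (ν.real {n | n < a0}) ^ (κ + 1) := by
        apply mul_le_mul_of_nonneg_right _ (pow_nonneg measureReal_nonneg _)
        have h1 : TT.card ≤ 4 ^ d := by
          calc TT.card = (Fintype.card (Fin d × Bool)).choose (κ + 1) := by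
                rw [hTT, Finset.card_powersetCard, Finset.card_univ]
            _ ≤ 2 ^ (Fintype.card (Fin d × Bool)) := Nat.choose_le_two_pow _ _
            _ = 4 ^ d := by
                rw [Fintype.card_prod, Fintype.card_fin, Fintype.card_bool, mul_comm, pow_mul]
                norm_num
        exact_mod_cast h1

theorem prob_bad (hd : 1 ≤ d) (ha0 : a0 ≤ 8 * d) (η0 : ℝ)
    (h0 : ∀ x, (muP d ν).real {A | Bad d a0 κ 0 A x} ≤ η0)
    (h00 : ((2 * rho d 0 + 1 : ℕ) : ℝ) ^ d * η0 ≤ (1 / 2 : ℝ) ^ d)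
    (hp : (1 / 2 : ℝ) ^ (27 * d) ≤ ν.real {n | 8 * d ≤ n}) (k : ℕ) :
    ∀ x, (muP d ν).real {A | Bad d a0 κ k A x} ≤ eta d η0 k := by
  have hρ : ∀ k, rho d k + 1 ≤ nn d k := by
    intro k
    have := num_nn hd k
    omega
  induction k with
  | zero =>
    intro x
    unfold eta
    rw [if_pos rfl]
    exact h0 x
  | succ k ih =>
    intro x
    have h1 : ((2 * rho d k + 1 : ℕ) : ℝ) ^ d * eta d η0 k ≤ (1 / 2 : ℝ) ^ d := by
      by_cases hk : k = 0
      · subst hk
        unfold eta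
        rw [if_pos rfl]
        exact h00
      · exact num_eta hd k (Nat.one_le_iff_ne_zero.mpr hk) η0
    have h2 : (1 / 2 : ℝ) ^ d ≤ 1 / 2 := by
      calc (1 / 2 : ℝ) ^ d ≤ (1 / 2 : ℝ) ^ 1 :=
            pow_le_pow_of_le_one (by norm_num) (by norm_num) hd
        _ = 1 / 2 := by norm_num
    have hη0 : 0 ≤ eta d η0 k := le_trans measureReal_nonneg (ih x)
    have hρ3 : 3 ≤ rho d k := by
      have h3 := num_rho hd k
      have h4 : 1 ≤ bb d k := by
        unfold bb MM BB
        have h5 : 1 ≤ (NN d k) ^ d := Nat.one_le_pow _ _ (NN_pos d k)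
        have h6 : 1 ≤ d ^ 2 := Nat.one_le_pow _ _ hd
        have h7 : 1 ≤ 1000 * d ^ 2 * NN d k ^ d := by nlinarith
        split_ifs
        · nlinarith
        · have h8 : 1 ≤ 3 ^ d := Nat.one_le_pow _ _ (by norm_num)
          nlinarith
      have h9 : 22 * bb d k ≤ 2 * (2 * (7 * d * NN d k * bb d k) + 11) * bb d k := by
        apply Nat.mul_le_mul_right
        omega
      omega
    have h3 := prob_step ν hρ ha0 k hρ3 (eta d η0 k) ih (le_trans h1 h2) x
    have h4 := num_C1 hd k _ (mul_nonneg (by positivity) hη0) h1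
    have h5 := num_C2 hd k ((ν.real {n | 8 * d ≤ n}) ^ ((NN d k) ^ d)) (by
      calc (1 / 2 : ℝ) ^ (27 * d * (NN d k) ^ d) = ((1 / 2 : ℝ) ^ (27 * d)) ^ ((NN d k) ^ d) := by
            rw [← pow_mul]
        _ ≤ _ := pow_le_pow_left₀ (by positivity) hp _)
      (pow_le_one₀ measureReal_nonneg measureReal_le_one)
    have h6 : eta d η0 (k + 1) = 1 / ((NN d (k + 1) : ℝ) ^ (CC d)) := by
      unfold eta
      rw [if_neg (Nat.succ_ne_zero k)]
    rw [h6]
    have h7 : (0 : ℝ) ≤ 1 / ((NN d (k + 1) : ℝ) ^ (CC d)) := by positivity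
    linarith

theorem ae_loc (hd : 1 ≤ d) (ha0 : a0 ≤ 8 * d) (η0 : ℝ)
    (h0 : ∀ x, (muP d ν).real {A | Bad d a0 κ 0 A x} ≤ η0)
    (h00 : ((2 * rho d 0 + 1 : ℕ) : ℝ) ^ d * η0 ≤ (1 / 2 : ℝ) ^ d)
    (hp : (1 / 2 : ℝ) ^ (27 * d) ≤ ν.real {n | 8 * d ≤ n}) :
    ∀ᵐ A ∂(muP d ν), ∀ (v : Site d) (r0 : ℕ), ∃ K, r0 ≤ K ∧ ∀ k, K ≤ k → ∀ w,
      (∀ i, |w i - coarse (NN d k) v i| ≤ (rho d k : ℤ) + 10) → ¬ Bad d a0 κ k A w := by
  rw [ae_all_iff]
  intro v
  let s : ℕ → Set (Site d → ℕ) := fun k =>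
    {A | ∃ w ∈ Ball (coarse (NN d k) v) (rho d k + 10), Bad d a0 κ k A w}
  have hs : ∀ k, (muP d ν).real (s k) ≤ 2 * (1 / 2 : ℝ) ^ k := by
    intro k
    by_cases hk : k = 0
    · subst hk
      refine le_trans measureReal_le_one ?_
      norm_num
    · have hk1 : 1 ≤ k := Nat.one_le_iff_ne_zero.mpr hk
      have hsub : s k ⊆ ⋃ w ∈ Finset.Icc (fun i => coarse (NN d k) v i - ((rho d k + 10 : ℕ) : ℤ))
          (fun i => coarse (NN d k) v i + ((rho d k + 10 : ℕ) : ℤ)), {A | Bad d a0 κ k A w} := by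
        rintro A ⟨w, hw, hbad⟩
        rw [Set.mem_iUnion₂]
        exact ⟨w, Finset.mem_Icc.mpr hw, hbad⟩
      calc (muP d ν).real (s k) ≤ _ := measureReal_mono hsub (measure_ne_top _ _)
        _ ≤ ∑ w ∈ Finset.Icc (fun i => coarse (NN d k) v i - ((rho d k + 10 : ℕ) : ℤ))
          (fun i => coarse (NN d k) v i + ((rho d k + 10 : ℕ) : ℤ)),
            (muP d ν).real {A | Bad d a0 κ k A w} := measureReal_biUnion_finset_le _ _
        _ ≤ ∑ w ∈ Finset.Icc (fun i => coarse (NN d k) v i - ((rho d k + 10 : ℕ) : ℤ))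
          (fun i => coarse (NN d k) v i + ((rho d k + 10 : ℕ) : ℤ)), eta d η0 k :=
            Finset.sum_le_sum (fun w _ => prob_bad ν hd ha0 η0 h0 h00 hp k w)
        _ = ((2 * (rho d k + 10) + 1 : ℕ) : ℝ) ^ d * eta d η0 k := by
            rw [Finset.sum_const, card_ball, nsmul_eq_mul]
            push_cast
            ring
        _ ≤ (1 / 2 : ℝ) ^ k := num_BC hd k hk1 η0
        _ ≤ 2 * (1 / 2 : ℝ) ^ k := by
            have : (0 : ℝ) ≤ (1 / 2 : ℝ) ^ k := by positivity
            linarith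
  have hsum : ∑' k, (muP d ν) (s k) ≠ ⊤ := by
    have h1 : Summable (fun k : ℕ => 2 * (1 / 2 : ℝ) ^ k) :=
      (summable_geometric_of_lt_one (by norm_num) (by norm_num)).mul_left 2
    apply ne_top_of_le_ne_top h1.tsum_ofReal_ne_top
    apply ENNReal.tsum_le_tsum
    intro k
    rw [← ofReal_measureReal (measure_ne_top _ _)]
    exact ENNReal.ofReal_le_ofReal (hs k)
  have hae := ae_eventually_notMem hsum
  filter_upwards [hae] with A hA
  intro r0
  rw [eventually_atTop] at hA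
  obtain ⟨K, hK⟩ := hA
  refine ⟨max K r0, le_max_right _ _, ?_⟩
  intro k hk w hw hbad
  apply hK k (le_trans (le_max_left _ _) hk)
  refine ⟨w, ?_, hbad⟩
  rw [mem_Ball]
  intro i
  have := hw i
  push_cast
  exact this

end Pool.Agent.Helper94.Sand
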