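import Pool.Agent.Helper94.Sand.Lemmas

namespace Pool.Agent.Helper94.Sand

variable {d : ℕ}

/-- Number of topplings of `v` before time `t`. -/
def odo (A : Site d → ℤ) (t : ℕ) (v : Site d) : ℤ :=
  ∑ s ∈ Finset.range t, (if 2 * (d : ℤ) ≤ height A s v then 1 else 0)

theorem odo_nonneg (A : Site d → ℤ) (t : ℕ) (v : Site d) : 0 ≤ odo A t v := by
  apply Finset.sum_nonneg
  intro s _
  split_ifs <;> norm_num

theorem odo_succ (A : Site d → ℤ) (t : ℕ) (v : Site d) :
    odo A (t + 1) v = odo A t v + (if 2 * (d : ℤ) ≤ height A t v then 1 else 0) := by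
  unfold odo
  rw [Finset.sum_range_succ]

theorem odo_mono (A : Site d → ℤ) (v : Site d) : Monotone (fun t => odo A t v) := by
  apply monotone_nat_of_le_succ
  intro t
  rw [odo_succ]
  split_ifs <;> omega

theorem height_eq (A : Site d → ℤ) (t : ℕ) (v : Site d) :
    height A t v = A v + lap (odo A t) v := by
  induction t generalizing v with
  | zero =>
    simp [height, lap, odo]
  | succ t ih =>
    have h1 : height A (t + 1) v = height A t v -
        (if 2 * (d : ℤ) ≤ height A t v then 2 * (d : ℤ) else 0) +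
        ∑ i, ((if 2 * (d : ℤ) ≤ height A t (v + ee i) then (1 : ℤ) else 0) +
        (if 2 * (d : ℤ) ≤ height A t (v - ee i) then (1 : ℤ) else 0)) := rfl
    rw [h1]
    have h2 : lap (odo A (t + 1)) v = lap (odo A t) v +
        (∑ i, ((if 2 * (d : ℤ) ≤ height A t (v + ee i) then (1 : ℤ) else 0) +
        (if 2 * (d : ℤ) ≤ height A t (v - ee i) then (1 : ℤ) else 0))) -
        (if 2 * (d : ℤ) ≤ height A t v then 2 * (d : ℤ) else 0) := by
      unfold lap
      have h3 : (if 2 * (d : ℤ) ≤ height A t v then 2 * (d : ℤ) else 0) =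
          ∑ i : Fin d, 2 * (if 2 * (d : ℤ) ≤ height A t v then (1 : ℤ) else 0) := by
        rw [Finset.sum_const, Finset.card_univ, Fintype.card_fin, nsmul_eq_mul]
        split_ifs <;> ring
      rw [h3, ← Finset.sum_add_distrib, ← Finset.sum_sub_distrib]
      apply Finset.sum_congr rfl
      intro i _
      rw [odo_succ, odo_succ, odo_succ]
      ring
    rw [h2, ← sub_eq_zero, ih v]
    ring

/-- Eventually no toppling at `v`. -/
def Quiet (A : Site d → ℤ) (v : Site d) : Prop := ∃ T, ∀ t, T ≤ t → height A t v < 2 * (d : ℤ)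

theorem odo_const {A : Site d → ℤ} {v : Site d} {T : ℕ}
    (h : ∀ t, T ≤ t → height A t v < 2 * (d : ℤ)) : ∀ t, T ≤ t → odo A t v = odo A T v := by
  intro t ht
  induction t, ht using Nat.le_induction with
  | base => rfl
  | succ t ht ih =>
    rw [odo_succ, ih, if_neg (not_le.mpr (h t ht)), add_zero]

theorem quiet_of_bounded {A : Site d → ℤ} {w : Site d} (C : ℤ) (T : ℕ)
    (h : ∀ t, T ≤ t → odo A t w ≤ C) : Quiet A w := by
  have hall : ∀ t, odo A t w ≤ C := by
    intro t
    exact le_trans (odo_mono A w (le_max_left t T)) (h _ (le_max_right t T))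
  refine ⟨Function.argmin (fun t => (C - odo A t w).toNat), ?_⟩
  intro t ht
  by_contra hcon
  have h1 := Function.argmin_le (fun t => (C - odo A t w).toNat) (t + 1)
  have h2 := odo_mono A w ht
  simp only at h2
  have h3 := odo_succ A t w
  rw [if_pos (not_lt.mp hcon)] at h3
  have h4 := hall (t + 1)
  have h5 := hall (Function.argmin (fun t => (C - odo A t w).toNat))
  omega

theorem quiet_step {A : Site d → ℤ} {v : Site d} (hv : Quiet A v) (i : Fin d) :
    Quiet A (v + ee i) ∧ Quiet A (v - ee i) := by
  obtain ⟨T, hT⟩ := hv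
  have key : ∀ t, T ≤ t → ∑ j, (odo A t (v + ee j) + odo A t (v - ee j)) ≤
      2 * (d : ℤ) - A v + 2 * d * odo A T v := by
    intro t ht
    have h1 := hT t ht
    rw [height_eq] at h1
    have h2 : lap (odo A t) v = ∑ j, (odo A t (v + ee j) + odo A t (v - ee j)) -
        2 * d * odo A t v := by
      unfold lap
      rw [Finset.sum_sub_distrib, Finset.sum_const, Finset.card_univ, Fintype.card_fin,
        nsmul_eq_mul]
      ring
    rw [h2, odo_const hT t ht] at h1
    linarith
  have key2 : ∀ t, T ≤ t → odo A t (v + ee i) + odo A t (v - ee i) ≤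
      2 * (d : ℤ) - A v + 2 * d * odo A T v := by
    intro t ht
    refine le_trans ?_ (key t ht)
    exact Finset.single_le_sum (f := fun j => odo A t (v + ee j) + odo A t (v - ee j))
      (fun j _ => add_nonneg (odo_nonneg A t _) (odo_nonneg A t _)) (Finset.mem_univ i)
  constructor
  · apply quiet_of_bounded _ T
    intro t ht
    have h1 := key2 t ht
    have h2 := odo_nonneg A t (v - ee i)
    exact le_trans (by linarith) h1
  · apply quiet_of_bounded _ T
    intro t ht
    have h1 := key2 t ht
    have h2 := odo_nonneg A t (v + ee i)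
    exact le_trans (by linarith) h1

/-- M0. If the configuration does not percolate then it has a finite odometer. -/
theorem exists_odometer (_hd : 1 ≤ d) (A : Site d → ℤ) (hA : ¬ Percolates A) :
    ∃ u : Site d → ℤ, (∀ v, 0 ≤ u v) ∧ ∀ v, A v + lap u v ≤ 2 * (d : ℤ) - 1 := by
  have h0 : ∃ v, Quiet A v := by
    unfold Percolates at hA
    push Not at hA
    obtain ⟨v, T, h⟩ := hA
    exact ⟨v, T, h⟩
  obtain ⟨v₀, hv₀⟩ := h0
  have hall : ∀ v, Quiet A v := by
    intro v
    apply box_conn (fun i => min (v₀ i) (v i)) (fun i => max (v₀ i) (v i)) (Quiet A) _ v₀ v _ _ hv₀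
    · intro y _ j t ht _ hQ
      rcases ht with rfl | rfl
      · rw [one_smul_ee]; exact (quiet_step hQ j).1
      · rw [neg_one_smul_ee]; exact (quiet_step hQ j).2
    · rw [mem_box]
      intro i
      exact ⟨min_le_left _ _, le_max_left _ _⟩
    · rw [mem_box]
      intro i
      exact ⟨min_le_right _ _, le_max_right _ _⟩
  choose T hT using hall
  refine ⟨fun v => odo A (T v) v, fun v => odo_nonneg A _ _, ?_⟩
  intro v
  set t := T v + ∑ i, (T (v + ee i) + T (v - ee i)) with ht
  have h1 : T v ≤ t := Nat.le_add_right _ _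
  have h2 : ∀ i, T (v + ee i) + T (v - ee i) ≤ t := by
    intro i
    refine le_trans ?_ (Nat.le_add_left _ _)
    exact Finset.single_le_sum (f := fun j => T (v + ee j) + T (v - ee j))
      (fun j _ => Nat.zero_le _) (Finset.mem_univ i)
  have h3 := hT v t h1
  rw [height_eq] at h3
  have h4 : lap (fun v => odo A (T v) v) v = lap (odo A t) v := by
    unfold lap
    apply Finset.sum_congr rfl
    intro i _
    have h5 := h2 i
    rw [odo_const (hT v) t h1, odo_const (hT (v + ee i)) t (by omega),
      odo_const (hT (v - ee i)) t (by omega)]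
  rw [h4]
  omega

end Pool.Agent.Helper94.Sand
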