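import Pool.Agent.Helper94.Sand.Env

namespace Pool.Agent.Helper94.Sand

variable {d : ℕ}

namespace Env

variable (e : Env d)

/-- The corrected configuration. -/
noncomputable def a (v : Site d) : ℤ := e.A v - lap e.φ v - lap e.Psi v

/-- The set `X` is closed under the bootstrap rule. -/
def Cl (X : Site d → Prop) : Prop := ∀ v, 2 * (d : ℤ) ≤ e.a v + (nbr X v : ℤ) → X v

/-- Filled blocks. -/
def Fil (X : Site d → Prop) : ℕ → Site d → Prop
  | 0 => X
  | k + 1 => fun x => ∀ y, coarse (e.nn k) y = x → Free (e.Zn k) y → Fil X k y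

variable {e} {X : Site d → Prop}

theorem coarse_NN_succ (e : Env d) (k : ℕ) (v : Site d) :
    coarse (e.NN (k + 1)) v = coarse (e.nn k) (coarse (e.NN k) v) := by
  rw [e.hNN, coarse_mul]

theorem Fil_of_all (k : ℕ) : ∀ y, (∀ v, coarse (e.NN k) v = y → X v) → e.Fil X k y := by
  induction k with
  | zero =>
    intro y h
    apply h
    rw [e.hNN0, coarse_one]
  | succ k ih =>
    intro x h y hy _
    apply ih
    intro v hv
    apply h
    rw [coarse_NN_succ, hv, hy]

theorem bad_all (hX : e.Cl X) (k : ℕ) (y : Site d) (hy : e.Bad k y) (v : Site d)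
    (hv : coarse (e.NN k) v = y) : X v := by
  have hex : ∃ m, e.Bad m (coarse (e.NN m) v) ∧
      ¬ e.Bad (m + 1) (coarse (e.nn m) (coarse (e.NN m) v)) := by
    by_contra hcon
    push Not at hcon
    have hall : ∀ m, k ≤ m → e.Bad m (coarse (e.NN m) v) := by
      intro m hm
      induction m, hm using Nat.le_induction with
      | base => rw [hv]; exact hy
      | succ m _ ih =>
        rw [coarse_NN_succ]
        exact hcon m ih
    exact e.Kf_bad v (max (e.Kf v) k) (le_max_left _ _) (coarse (e.NN (max (e.Kf v) k)) v)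
      (fun i => by simp) (hall _ (le_max_right _ _))
  obtain ⟨m, hm⟩ := hex
  apply hX
  have h1 := e.lap_Psi_dirty v m hm
  have h2 := e.hA v
  have h3 := e.hlapφ v
  have h4 : (0 : ℤ) ≤ (nbr X v : ℤ) := Int.natCast_nonneg _
  unfold a
  linarith

theorem seed_all (hX : e.Cl X) (v : Site d) (hv : 8 * (d : ℤ) ≤ e.A v) : X v := by
  apply hX
  have h1 := e.lap_Psi_le v
  have h3 := e.hlapφ v
  have h4 : (0 : ℤ) ≤ (nbr X v : ℤ) := Int.natCast_nonneg _
  unfold a
  linarith

open Classical in
theorem nbr_ge (S J : Finset (Fin d)) (σ : Fin d → ℤ) (hσ : ∀ i, σ i = 1 ∨ σ i = -1)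
    (x : Site d) (h1 : ∀ i ∈ S, X (x + σ i • ee i))
    (h2 : ∀ i ∈ J, X (x + ee i) ∧ X (x - ee i)) (hJS : J ⊆ S) :
    S.card + J.card ≤ nbr X x := by
  unfold nbr
  have h3 : S.card + J.card = ∑ i : Fin d, ((if i ∈ S then 1 else 0) + (if i ∈ J then 1 else 0)) := by
    rw [Finset.sum_add_distrib]
    simp
  rw [h3]
  apply Finset.sum_le_sum
  intro i _
  by_cases hJ : i ∈ J
  · rw [if_pos (h2 i hJ).1, if_pos (h2 i hJ).2]
    split_ifs <;> omega
  · rw [if_neg hJ]
    by_cases hS : i ∈ S
    · have h4 := h1 i hS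
      rw [if_pos hS]
      rcases hσ i with h5 | h5
      · rw [h5, one_smul_ee] at h4
        rw [if_pos h4]
        omega
      · rw [h5, neg_one_smul_ee] at h4
        rw [if_pos h4]
        omega
    · rw [if_neg hS]
      omega

open Classical in
theorem rule (hX : e.Cl X) (k : ℕ) : ∀ x, ¬ e.Bad k x →
    ∀ (S J : Finset (Fin d)) (σ : Fin d → ℤ), (∀ i, σ i = 1 ∨ σ i = -1) → J ⊆ S →
    e.r0 - k ≤ S.card → (∀ i ∈ S, e.Fil X k (x + σ i • ee i)) →
    (∀ i ∈ J, e.Fil X k (x + ee i) ∧ e.Fil X k (x - ee i)) →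
    (∀ v, coarse (e.NN k) v = x →
      e.dl k v ≤ 1 + ((J.filter (fun i => v i = (e.NN k : ℤ) * x i)).card : ℤ)) →
    e.Fil X k x := by
  induction k with
  | zero =>
    intro x hbad S J σ hσ hJS hr hS hJ hdl
    apply hX
    have h1 := e.hgood x hbad
    have h2 := hdl x (by rw [e.hNN0, coarse_one])
    rw [e.dl_zero] at h2
    have h3 : ((J.filter (fun i => x i = (e.NN 0 : ℤ) * x i)).card : ℤ) ≤ J.card := by
      exact_mod_cast Finset.card_filter_le _ _
    have h4 := nbr_ge S J σ hσ x hS hJ hJS
    have h5 : ((S.card + J.card : ℕ) : ℤ) ≤ (nbr X x : ℤ) := by exact_mod_cast h4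
    push_cast at h5
    have h6 : (e.r0 : ℤ) ≤ S.card := by
      have : e.r0 ≤ S.card := by simpa using hr
      exact_mod_cast this
    unfold a
    linarith
  | succ k ih =>
    intro x hbad S J σ hσ hJS hr hS hJ hdl
    have hrd : (e.r0 - k) + 2 ≤ d := by
      have := e.hr0
      omega
    apply fill (e.nn k) (e.ρ k) (e.r0 - k) (e.hn k) x (e.Zn k) (e.ZS k).sep (e.ZS k).small
      (e.ZS k).faceL (e.ZS k).faceR S J σ hσ hJS (by omega) hrd (e.Fil X k)
    · -- rule
      intro y hy hfr S' J' σ' hσ' hJS' hr' hS' hJ' hJJ'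
      have hyb : ¬ e.Bad k y := by
        intro hyb
        have hyE : y ∈ {y | e.Bad k y ∧ ¬ e.Bad (k + 1) (coarse (e.nn k) y)} := by
          refine ⟨hyb, ?_⟩
          rw [hy]; exact hbad
        obtain ⟨z, hz, hyz⟩ := (e.ZS k).cover y hyE
        exact hfr z hz hyz
      apply ih y hyb S' J' σ' hσ' hJS' hr' hS' hJ'
      intro v hv
      rw [e.dl_succ]
      have h1 : lap (e.ps k) v ≤ 0 := by
        apply e.lap_out
        rw [hv]
        exact hfr
      have h2 := hdl v (by rw [coarse_NN_succ, hv, hy])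
      have h3 : (J.filter (fun i => v i = (e.NN (k + 1) : ℤ) * x i)).card ≤
          (J'.filter (fun i => v i = (e.NN k : ℤ) * y i)).card := by
        apply Finset.card_le_card
        intro i hi
        rw [Finset.mem_filter] at hi ⊢
        obtain ⟨hi1, hi2⟩ := hi
        have hNk : (0 : ℤ) < e.NN k := by exact_mod_cast e.NN_pos k
        have h4 : y i = e.nn k * x i := by
          rw [← hv, coarse_apply, hi2, e.hNN]
          push_cast
          rw [mul_assoc, Int.mul_ediv_cancel_left _ (ne_of_gt hNk)]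
        refine ⟨hJJ' i hi1 h4, ?_⟩
        rw [h4, hi2, e.hNN]
        push_cast
        ring
      have h4 : ((J.filter (fun i => v i = (e.NN (k + 1) : ℤ) * x i)).card : ℤ) ≤
          (J'.filter (fun i => v i = (e.NN k : ℤ) * y i)).card := by exact_mod_cast h3
      linarith
    · -- outside
      intro i hi y hy hfr
      exact hS i hi y hy hfr
    · intro i hi y hy hfr
      rcases hy with hy | hy
      · exact (hJ i hi).1 y hy hfr
      · exact (hJ i hi).2 y hy hfr
    · -- seeds
      intro y hy i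
      obtain ⟨y', h1, h2, h3, h4⟩ := e.G2 k x hbad y hy i
      refine ⟨y', h1, h2, ?_, ?_⟩
      · apply Fil_of_all
        intro v hv
        exact seed_all hX v (h3 v hv)
      · intro z hz
        by_contra hcon
        push Not at hcon
        obtain ⟨w, hw1, hw2⟩ := (e.ZS k).meets z hz
        apply h4 w _ hw1.1
        rw [mem_box] at hw2 ⊢
        intro j
        have h5 := hcon j
        have h6 := hw2 j
        have h7 := (e.ZS k).small z hz j
        omega

/-- Filling of all blocks near a site, from the top level down. -/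
theorem top (hX : e.Cl X) (v₀ : Site d) : ∀ k, k ≤ e.Kf v₀ → ∀ y,
    (∀ i, |y i - coarse (e.NN k) v₀ i| ≤ 4) → e.Fil X k y := by
  classical
  intro k hk
  induction hk using Nat.decreasingInduction with
  | self =>
    intro y hy
    have hy5 : ∀ i, |y i - coarse (e.NN (e.Kf v₀)) v₀ i| ≤ 5 := fun i => le_trans (hy i) (by norm_num)
    apply rule hX (e.Kf v₀) y (e.Kf_bad v₀ _ le_rfl y hy5) ∅ ∅ (fun _ => 1) (fun _ => Or.inl rfl)
      (Finset.Subset.refl _)
    · have := e.Kf_r0 v₀
      omega
    · intro i hi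
      exact absurd hi (Finset.notMem_empty i)
    · intro i hi
      exact absurd hi (Finset.notMem_empty i)
    · intro v hv
      rw [e.dl_eq (e.Kf v₀) v (max (e.Kf v) (e.Kf v₀)) (le_max_left _ _) (le_max_right _ _)]
      have h1 : ∑ m ∈ Finset.Ico (e.Kf v₀) (max (e.Kf v) (e.Kf v₀)), lap (e.ps m) v ≤ 0 := by
        apply Finset.sum_nonpos
        intro m hm
        have hm1 := (Finset.mem_Ico.mp hm).1
        apply e.lap_out
        -- coarse (NN m) v is within 4 of coarse (NN m) v₀
        apply e.Kf_free v₀ m hm1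
        intro i
        obtain ⟨c, hc⟩ := e.NN_dvd hm1
        have h2 : coarse (e.NN m) v = coarse c (coarse (e.NN (e.Kf v₀)) v) := by
          rw [hc, coarse_mul]
        have h3 : coarse (e.NN m) v₀ = coarse c (coarse (e.NN (e.Kf v₀)) v₀) := by
          rw [hc, coarse_mul]
        have hc1 : 1 ≤ c := by
          rcases Nat.eq_zero_or_pos c with h0 | h0
          · rw [h0, mul_zero] at hc
            have := e.NN_pos m
            omega
          · exact h0
        rw [h2, h3, hv, coarse_apply, coarse_apply]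
        have h4 := coarse_dist c hc1 (y i) (coarse (e.NN (e.Kf v₀)) v₀ i) 4
          (by exact_mod_cast hy i)
        have h5 : |y i / (c : ℤ) - coarse (e.NN (e.Kf v₀)) v₀ i / (c : ℤ)| ≤ 4 := by
          exact_mod_cast h4
        omega
      have h2 : (0 : ℤ) ≤ ((∅ : Finset (Fin d)).filter
        (fun i => v i = (e.NN (e.Kf v₀) : ℤ) * y i)).card := Int.natCast_nonneg _
      linarith
  | of_succ k hk ih =>
    -- parents of blocks near v₀ are filled
    have hn1 : 1 ≤ e.nn k := e.nn_pos k
    have hnk := e.hn k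
    have near : ∀ y, (∀ i, |y i - coarse (e.NN k) v₀ i| ≤ (e.ρ k : ℤ) + 6) →
        Free (e.Zn k) y → e.Fil X k y := by
      intro y hy hfr
      have h1 : e.Fil X (k + 1) (coarse (e.nn k) y) := by
        apply ih
        intro i
        rw [coarse_NN_succ, coarse_apply, coarse_apply]
        have hn0 : (0 : ℤ) < e.nn k := by exact_mod_cast hn1
        have hnk' : 10 * ((e.ρ k : ℤ) + 10) ≤ e.nn k := by exact_mod_cast hnk
        have h2 := hy i
        rw [abs_le] at h2 ⊢
        have key : ∀ x z : ℤ, x ≤ z + e.nn k → x / (e.nn k : ℤ) ≤ z / (e.nn k : ℤ) + 1 := by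
          intro x z hxz
          have h3 : x / (e.nn k : ℤ) ≤ (z + e.nn k) / (e.nn k : ℤ) := Int.ediv_le_ediv hn0 hxz
          rw [Int.add_ediv_of_dvd_right (dvd_refl _), Int.ediv_self (ne_of_gt hn0)] at h3
          exact h3
        have h3 := key (y i) (coarse (e.NN k) v₀ i) (by omega)
        have h4 := key (coarse (e.NN k) v₀ i) (y i) (by omega)
        omega
      exact h1 y rfl hfr
    intro y hy
    by_cases hfr : Free (e.Zn k) y
    · apply near y _ hfr
      intro i
      have := hy i
      have h0 : (0 : ℤ) ≤ e.ρ k := Int.natCast_nonneg _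
      omega
    · obtain ⟨z, hz, hyz⟩ := not_free.mp hfr
      have hsm := (e.ZS k).small z hz
      -- points of the zone are near
      have hzn : ∀ w ∈ Set.Icc z.1 z.2, ∀ i, |w i - coarse (e.NN k) v₀ i| ≤ (e.ρ k : ℤ) + 4 := by
        intro w hw i
        have h1 := (mem_box.mp hw) i
        have h2 := (mem_box.mp hyz) i
        have h3 := hsm i
        have h4 := hy i
        rw [abs_le] at h4 ⊢
        omega
      have hout : ∀ w ∈ Set.Icc z.1 z.2, ∀ (i : Fin d) (t : ℤ), (t = 1 ∨ t = -1) →
          w + t • ee i ∉ Set.Icc z.1 z.2 → e.Fil X k (w + t • ee i) := by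
        intro w hw i t ht hnot
        apply near
        · intro j
          have h1 := hzn w hw j
          rw [add_smul_ee_apply]
          split_ifs
          · rw [abs_le] at h1 ⊢
            omega
          · rw [abs_le] at h1 ⊢
            omega
        · intro z' hz' hmem
          by_cases hzz : z = z'
          · subst hzz
            exact hnot hmem
          · obtain ⟨j, hj⟩ := (e.ZS k).sep z hz z' hz' hzz
            have h1 := (mem_box.mp hmem) j
            have h2 := (mem_box.mp hw) j
            rw [add_smul_ee_apply] at h1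
            split_ifs at h1 <;> omega
      apply zone_fill (e.nn k) z _ (e.Fil X k) _ _ y hyz
      · intro i
        have h1 := hsm i
        have h2 : (10 * (e.ρ k + 10) : ℤ) ≤ e.nn k := by exact_mod_cast hnk
        have h0 : (0 : ℤ) ≤ e.ρ k := Int.natCast_nonneg _
        omega
      · intro w hw J σ hσ hS hJ hJn
        by_cases hbad : e.Bad k w
        · apply Fil_of_all
          intro v hv
          exact bad_all hX k w hbad v hv
        · apply rule hX k w hbad Finset.univ J σ hσ (Finset.subset_univ _)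
          · rw [Finset.card_univ, Fintype.card_fin]
            have := e.hr0
            omega
          · intro i _
            exact hS i
          · exact hJ
          · intro v hv
            refine le_trans (e.dl_le k v) ?_
            have h1 : (Finset.univ.filter (fun i => (e.NN (k + 1) : ℤ) ∣ v i)).card ≤
                (J.filter (fun i => v i = (e.NN k : ℤ) * w i)).card := by
              apply Finset.card_le_card
              intro i hi
              rw [Finset.mem_filter] at hi ⊢
              obtain ⟨c, hc⟩ := hi.2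
              have hNk : (0 : ℤ) < e.NN k := by exact_mod_cast e.NN_pos k
              have h2 : w i = e.nn k * c := by
                rw [← hv, coarse_apply, hc, e.hNN]
                push_cast
                rw [mul_assoc, Int.mul_ediv_cancel_left _ (ne_of_gt hNk)]
              refine ⟨hJn i ⟨c, h2⟩, ?_⟩
              rw [h2, hc, e.hNN]
              push_cast
              ring
            have h2 : ((Finset.univ.filter (fun i => (e.NN (k + 1) : ℤ) ∣ v i)).card : ℤ) ≤
                (J.filter (fun i => v i = (e.NN k : ℤ) * w i)).card := by exact_mod_cast h1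
            omega
      · intro w hw i
        constructor
        · intro h
          have := hout w hw i 1 (Or.inl rfl)
          rw [one_smul_ee] at this
          exact this h
        · intro h
          have := hout w hw i (-1) (Or.inr rfl)
          rw [neg_one_smul_ee] at this
          exact this h

theorem all_filled (hX : e.Cl X) (v : Site d) : X v := by
  have h := top hX v 0 (Nat.zero_le _) v (fun i => by
    rw [e.hNN0, coarse_one]; simp)
  exact h

theorem no_odometer (e : Env d) :
    ¬ ∃ u : Site d → ℤ, (∀ v, 0 ≤ u v) ∧ ∀ v, e.A v + lap u v ≤ 2 * (d : ℤ) - 1 := by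
  classical
  rintro ⟨u, hu0, hu⟩
  let h : Site d → ℤ := fun v => (u v + e.φ v) + e.Psi v
  have hh0 : ∀ v, 0 ≤ h v := fun v => add_nonneg (add_nonneg (hu0 v) (e.hφ v)) (e.Psi_nonneg v)
  obtain ⟨v₀, hv₀⟩ : ∃ v₀, ∀ w, h v₀ ≤ h w := by
    refine ⟨Function.argmin (fun v => (h v).toNat), fun w => ?_⟩
    have h1 := Function.argmin_le (fun v => (h v).toNat) w
    have h2 := hh0 w
    have h3 := hh0 (Function.argmin (fun v => (h v).toNat))
    omega
  have hcl : e.Cl (fun v => h v₀ < h v) := by
    intro v hv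
    by_contra hcon
    have heq : h v = h v₀ := le_antisymm (not_lt.mp hcon) (hv₀ v)
    have h1 : (nbr (fun v => h v₀ < h v) v : ℤ) ≤ lap h v := by
      unfold nbr lap
      push_cast
      apply Finset.sum_le_sum
      intro i _
      have h2 := hv₀ (v + ee i)
      have h3 := hv₀ (v - ee i)
      rw [heq]
      split_ifs <;> omega
    have h2 : lap h v = lap u v + lap e.φ v + lap e.Psi v := by
      have e1 : lap h v = lap (fun w => u w + e.φ w) v + lap e.Psi v :=
        lap_add (fun w => u w + e.φ w) e.Psi v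
      rw [e1, lap_add]
    have h3 := hu v
    unfold a at hv
    linarith
  have := all_filled hcl v₀
  exact lt_irrefl _ this

end Env

/-- M5. The deterministic part: no finite odometer can exist. -/
theorem no_odometer (hd : 1 ≤ d) (A φ : Site d → ℤ) (r0 : ℕ) (hr0 : r0 + 2 ≤ d)
    (nn NN ρ b : ℕ → ℕ) (hNN0 : NN 0 = 1) (hNN : ∀ k, NN (k + 1) = NN k * nn k)
    (hNNpos : ∀ k, 1 ≤ NN k)
    (hb : ∀ k, 1 ≤ b k)
    (hρ : ∀ k, 2 * (2 * (7 * d * NN k * b k) + 11) * b k ≤ ρ k)
    (hn : ∀ k, 10 * (ρ k + 10) ≤ nn k)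
    (Bad : ℕ → Site d → Prop)
    (hA : ∀ v, 0 ≤ A v) (hφ : ∀ v, 0 ≤ φ v) (hlapφ : ∀ v, lap φ v ≤ 4 * d)
    (hgood : ∀ v, ¬ Bad 0 v → 2 * (d : ℤ) - r0 + 1 ≤ A v - lap φ v)
    (G1 : ∀ k x, ¬ Bad (k + 1) x → ∀ y, coarse (nn k) y = x →
      ({w | Bad k w} ∩ Set.Icc (fun i => y i - (ρ k : ℤ)) (fun i => y i + (ρ k : ℤ))).ncard ≤ b k)
    (G2 : ∀ k x, ¬ Bad (k + 1) x → ∀ y, coarse (nn k) y = x → ∀ i,
      ∃ y', coarse (nn k) y' = x ∧ (∀ j, j ≠ i → y' j = y j) ∧
        (∀ v, coarse (NN k) v = y' → 8 * (d : ℤ) ≤ A v) ∧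
        ∀ w ∈ Set.Icc (fun i => y' i - (ρ k : ℤ)) (fun i => y' i + (ρ k : ℤ)), ¬ Bad k w)
    (hloc : ∀ v : Site d, ∃ K, r0 ≤ K ∧ ∀ k, K ≤ k → ∀ w,
      (∀ i, |w i - coarse (NN k) v i| ≤ (ρ k : ℤ) + 10) → ¬ Bad k w) :
    ¬ ∃ u : Site d → ℤ, (∀ v, 0 ≤ u v) ∧ ∀ v, A v + lap u v ≤ 2 * (d : ℤ) - 1 := by
  have hZS : ∀ k, Nonempty (ZoneSys d (NN k) (nn k) (ρ k) (7 * d)
      {y | Bad k y ∧ ¬ Bad (k + 1) (coarse (nn k) y)}) := by
    intro k
    apply exists_zoneSys hd (NN k) (nn k) (ρ k) (b k) (7 * d) (hNNpos k) (hb k) (hρ k)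
      (by have := hn k; omega)
    intro y hy
    refine le_trans ?_ (G1 k (coarse (nn k) y) hy.2 y rfl)
    apply Set.ncard_le_ncard
    · apply Set.inter_subset_inter_left
      intro w hw
      exact hw.1
    · exact Set.Finite.subset (Set.finite_Icc _ _) Set.inter_subset_right
  exact Env.no_odometer
    { r0 := r0, hr0 := hr0, nn := nn, NN := NN, ρ := ρ, hNN0 := hNN0, hNN := hNN, hn := hn,
      Bad := Bad, ZS := fun k => (hZS k).some, A := A, φ := φ, hA := hA, hφ := hφ,
      hlapφ := hlapφ, hgood := hgood, G2 := G2, hloc := hloc }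

end Pool.Agent.Helper94.Sand
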