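import Pool.Agent.Helper94.Sand.TopDown
import Pool.Agent.Helper94.Sand.Prob2
import Pool.Agent.Helper94.Sand.Reduction
import Pool.Agent.Helper94.Sand.PoissonTail

open MeasureTheory ProbabilityTheory Filter
open scoped NNReal

namespace Pool.Agent.Helper94.Sand

variable {d : ℕ}

open Classical in
theorem lap_local' (P : Site d → Prop) (v : Site d) :
    lap (fun w => if P w then (2 : ℤ) else 0) v =
      2 * (nbr P v : ℤ) - (if P v then 4 * (d : ℤ) else 0) := by
  unfold lap nbr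
  rw [Finset.sum_sub_distrib]
  push_cast
  rw [Finset.mul_sum]
  congr 1
  · apply Finset.sum_congr rfl
    intro i _
    split_ifs <;> ring
  · rw [Finset.sum_const, Finset.card_univ, Fintype.card_fin]
    split_ifs
    · rw [nsmul_eq_mul]; ring
    · simp

theorem lap_local (P : Site d → Prop) [DecidablePred P] (v : Site d) :
    lap (fun w => if P w then (2 : ℤ) else 0) v =
      2 * (nbr P v : ℤ) - (if P v then 4 * (d : ℤ) else 0) := by
  have h := lap_local' P v
  have e1 : (fun w => @ite ℤ (P w) (Classical.propDecidable (P w)) 2 0) =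
      (fun w => if P w then (2 : ℤ) else 0) := by
    funext w
    congr
  rw [← e1]
  rw [h]
  congr

theorem nbr_le (P : Site d → Prop) (v : Site d) : nbr P v ≤ 2 * d := by
  classical
  unfold nbr
  calc _ ≤ ∑ i : Fin d, 2 := by
        apply Finset.sum_le_sum
        intro i _
        split_ifs <;> omega
    _ = 2 * d := by rw [Finset.sum_const, Finset.card_univ, Fintype.card_fin]; ring

theorem bb_pos (hd : 1 ≤ d) (k : ℕ) : 1 ≤ bb d k := by
  unfold bb MM BB
  have h5 : 1 ≤ (NN d k) ^ d := Nat.one_le_pow _ _ (NN_pos d k)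
  have h6 : 1 ≤ d ^ 2 := Nat.one_le_pow _ _ hd
  have h7 : 1 ≤ 1000 * d ^ 2 * NN d k ^ d := by nlinarith
  split_ifs
  · nlinarith
  · have h8 : 1 ≤ 3 ^ d := Nat.one_le_pow _ _ (by norm_num)
    nlinarith

/-- The deterministic theorem for a configuration satisfying the locality property. -/
theorem percolates_of_loc (hd : 1 ≤ d) (a0 κ r0 : ℕ) (hr0 : r0 + 2 ≤ d)
    (h1 : 2 * (d : ℤ) - r0 + 1 + 2 * κ ≤ a0) (h2 : 2 * (κ : ℤ) + 1 ≤ 2 * d + r0)
    (A : Site d → ℕ)
    (hloc : ∀ v : Site d, ∃ K, r0 ≤ K ∧ ∀ k, K ≤ k → ∀ w,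
      (∀ i, |w i - coarse (NN d k) v i| ≤ (rho d k : ℤ) + 10) → ¬ Bad d a0 κ k A w) :
    Percolates (fun v => (A v : ℤ)) := by
  classical
  by_contra hcon
  apply no_odometer hd (fun v => (A v : ℤ)) (fun w => if A w < a0 then (2 : ℤ) else 0) r0 hr0
    (nn d) (NN d) (rho d) (bb d) rfl (fun k => NN_succ k) (NN_pos d) (bb_pos hd)
    (num_rho hd) (num_nn hd) (fun k => Bad d a0 κ k A)
  · intro v; exact Int.natCast_nonneg _
  · intro v
    show (0 : ℤ) ≤ if A v < a0 then (2 : ℤ) else 0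
    split_ifs <;> norm_num
  · intro v
    rw [lap_local (fun w => A w < a0) v]
    have h3 := nbr_le (fun w => A w < a0) v
    have h4 : (nbr (fun w => A w < a0) v : ℤ) ≤ 2 * d := by exact_mod_cast h3
    split_ifs
    · linarith
    · linarith
  · intro v hv
    have h3 : nbr (fun w => A w < a0) v ≤ κ := not_lt.mp hv
    have h4 : (nbr (fun w => A w < a0) v : ℤ) ≤ κ := by exact_mod_cast h3
    rw [lap_local (fun w => A w < a0) v]
    by_cases h5 : A v < a0
    · rw [if_pos h5]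
      have h6 : (0 : ℤ) ≤ (A v : ℤ) := Int.natCast_nonneg _
      linarith
    · rw [if_neg h5]
      have h6 : (a0 : ℤ) ≤ (A v : ℤ) := by exact_mod_cast not_lt.mp h5
      linarith
  · intro k x hx y hy
    have h3 := not_not.mp hx
    exact h3.1 y hy
  · intro k x hx y hy i
    have h3 := not_not.mp hx
    obtain ⟨y', h4, h5, h6, h7⟩ := h3.2 y hy i
    refine ⟨y', h4, h5, ?_, h7⟩
    intro v hv
    have h8 := h6 v hv
    show 8 * (d : ℤ) ≤ (A v : ℤ)
    exact_mod_cast h8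
  · exact hloc
  · exact exists_odometer hd _ hcon

theorem percolates_ae (ε : ℝ) (hε : 0 < ε) (hε1 : ε ≤ 1) :
    ∀ᶠ d : ℕ in atTop, ∀ l : ℝ≥0, (l : ℝ) = (1 + ε) * d →
      ∀ᵐ A ∂(muP d (poissonMeasure l)), Percolates (fun v => (A v : ℤ)) := by
  filter_upwards [num_level0 ε hε, eventually_ge_atTop 1, eventually_ge_atTop ⌈4 * 8 / (3 * ε)⌉₊]
    with d h0 hd hdε l hl
  have hdε' : 4 * 8 / (3 * ε) ≤ (d : ℝ) := Nat.ceil_le.mp hdε
  have hd0 : (1 : ℝ) ≤ d := by exact_mod_cast hd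
  have hdε2 : 4 ≤ 3 * ε / 8 * d := by
    rw [div_le_iff₀ (by positivity)] at hdε'
    linarith
  have hεd : ε * d ≤ d := by nlinarith
  have hεd0 : 0 < ε * d := by positivity
  set a0 : ℕ := ⌈(1 + ε / 2) * d⌉₊ with ha0
  set κ : ℕ := ⌊ε * d / 16⌋₊ with hκ
  set r0 : ℕ := ⌈(1 - 3 * ε / 8) * d⌉₊ + 1 with hr0
  have e1 : (1 + ε / 2) * (d : ℝ) ≤ a0 := Nat.le_ceil _
  have e2 : (κ : ℝ) ≤ ε * d / 16 := Nat.floor_le (by positivity)
  have hnn : 0 ≤ (1 - 3 * ε / 8) * (d : ℝ) := by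
    apply mul_nonneg _ (by positivity)
    linarith
  have e3 : (1 - 3 * ε / 8) * (d : ℝ) ≤ (r0 : ℝ) - 1 := by
    rw [hr0]; push_cast
    have := Nat.le_ceil ((1 - 3 * ε / 8) * (d : ℝ))
    linarith
  have e4 : (r0 : ℝ) < (1 - 3 * ε / 8) * (d : ℝ) + 2 := by
    rw [hr0]; push_cast
    have := Nat.ceil_lt_add_one hnn
    linarith
  have hr0d : r0 + 2 ≤ d := by
    have : (r0 : ℝ) + 2 < d + 1 := by nlinarith
    have h3 : r0 + 2 < d + 1 := by exact_mod_cast this
    omega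
  have ha08 : a0 ≤ 8 * d := by
    rw [ha0]
    apply Nat.ceil_le.mpr
    push_cast
    nlinarith
  have hq : (poissonMeasure l).real {n : ℕ | n < a0} ≤ Real.exp (-(ε ^ 2 * d / 16)) :=
    poisson_lower_tail d ε hε hε1 l hl
  have hlev : ∀ x, (muP d (poissonMeasure l)).real {A | Bad d a0 κ 0 A x} ≤
      4 ^ d * Real.exp (-(ε ^ 2 * d / 16)) ^ (κ + 1) := by
    intro x
    refine le_trans (prob_level0 (poissonMeasure l) x) ?_
    apply mul_le_mul_of_nonneg_left _ (by positivity)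
    exact pow_le_pow_left₀ measureReal_nonneg hq _
  have hseed : (1 / 2 : ℝ) ^ (27 * d) ≤ (poissonMeasure l).real {n : ℕ | 8 * d ≤ n} := by
    apply poisson_seed d hd l
    · rw [hl]; nlinarith
    · rw [hl]; nlinarith
  have hae := ae_loc (poissonMeasure l) (κ := κ) hd ha08 _ hlev h0 hseed
  filter_upwards [hae] with A hA
  apply percolates_of_loc hd a0 κ r0 hr0d _ _ A (fun v => hA v r0)
  · have : 2 * (d : ℝ) - r0 + 1 + 2 * κ ≤ a0 := by nlinarith
    exact_mod_cast this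
  · have : 2 * (κ : ℝ) + 1 ≤ 2 * d + r0 := by
      have h3 : (1 : ℝ) ≤ r0 := by linarith
      nlinarith
    exact_mod_cast this

end Pool.Agent.Helper94.Sand
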