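import Pool.Agent.Helper94.Sand.Lemmas

namespace Pool.Agent.Helper94.Sand

variable {d : ℕ}

/-- second difference of the positive part -/
theorem posPart_second_diff (u p : ℤ) :
    max (u + 1 - p) 0 + max (u - 1 - p) 0 - 2 * max (u - p) 0 = if p = u then 1 else 0 := by
  split_ifs with h
  · subst h; simp
  · rcases lt_or_gt_of_ne h with h | h
    · rw [max_eq_left (by omega), max_eq_left (by omega), max_eq_left (by omega)]; ring
    · rw [max_eq_right (by omega), max_eq_right (by omega), max_eq_right (by omega)]; ring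

/-- One dimensional profile (planes on the left). -/
theorem exists_profile (Q D : Finset ℤ) (c : ℕ) (m : ℤ) (hcard : Q.card = c * D.card)
    (h1 : ∀ p ∈ Q, p ≤ m) (h2 : ∀ p ∈ D, m ≤ p) :
    ∃ f : ℤ → ℤ, (∀ u, 0 ≤ f u) ∧
      (∀ u, f (u + 1) + f (u - 1) - 2 * f u =
        (if u ∈ Q then 1 else 0) - (c : ℤ) * (if u ∈ D then 1 else 0)) ∧
      (∀ u, (∀ p ∈ Q, u ≤ p) → f u = 0) := by
  classical
  refine ⟨fun u => ∑ p ∈ Q, max (u - p) 0 - c * ∑ p ∈ D, max (u - p) 0, ?_, ?_, ?_⟩
  · intro u
    have h3 : (Q.card : ℤ) * max (u - m) 0 ≤ ∑ p ∈ Q, max (u - p) 0 := by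
      rw [← nsmul_eq_mul]
      apply Finset.card_nsmul_le_sum
      intro p hp
      have := h1 p hp
      exact max_le_max (by linarith) le_rfl
    have h4 : ∑ p ∈ D, max (u - p) 0 ≤ (D.card : ℤ) * max (u - m) 0 := by
      rw [← nsmul_eq_mul]
      apply Finset.sum_le_card_nsmul
      intro p hp
      have := h2 p hp
      exact max_le_max (by linarith) le_rfl
    have h5 : (Q.card : ℤ) = c * D.card := by exact_mod_cast hcard
    have h6 : (c : ℤ) * ∑ p ∈ D, max (u - p) 0 ≤ c * ((D.card : ℤ) * max (u - m) 0) :=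
      mul_le_mul_of_nonneg_left h4 (Int.natCast_nonneg c)
    have h7 : (c : ℤ) * ((D.card : ℤ) * max (u - m) 0) = (Q.card : ℤ) * max (u - m) 0 := by
      rw [h5]; ring
    linarith
  · intro u
    have key : ∀ S : Finset ℤ, ∑ p ∈ S, max (u + 1 - p) 0 + ∑ p ∈ S, max (u - 1 - p) 0
        - 2 * ∑ p ∈ S, max (u - p) 0 = if u ∈ S then 1 else 0 := by
      intro S
      rw [Finset.mul_sum, ← Finset.sum_add_distrib, ← Finset.sum_sub_distrib]
      rw [Finset.sum_congr rfl (fun p _ => posPart_second_diff u p)]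
      simp
    have k1 := key Q
    have k2 := key D
    simp only
    rw [← k1, ← k2]
    ring
  · intro u hu
    simp only
    have h3 : ∑ p ∈ Q, max (u - p) 0 = 0 := by
      apply Finset.sum_eq_zero
      intro p hp
      exact max_eq_right (by linarith [hu p hp])
    by_cases hc : c = 0
    · subst hc; rw [h3]; simp
    · by_cases hD : D = ∅
      · rw [h3, hD]; simp
      · have hPi : Q.Nonempty := by
          rw [← Finset.card_pos, hcard]
          exact Nat.mul_pos (Nat.pos_of_ne_zero hc) (Finset.card_pos.mpr (Finset.nonempty_iff_ne_empty.mpr hD))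
        obtain ⟨p0, hp0⟩ := hPi
        have h4 : ∑ p ∈ D, max (u - p) 0 = 0 := by
          apply Finset.sum_eq_zero
          intro p hp
          exact max_eq_right (by linarith [hu p0 hp0, h1 p0 hp0, h2 p hp])
        rw [h3, h4]; simp

/-- One dimensional profile (planes on the right). -/
theorem exists_profile' (Q D : Finset ℤ) (c : ℕ) (m : ℤ) (hcard : Q.card = c * D.card)
    (h1 : ∀ p ∈ Q, m ≤ p) (h2 : ∀ p ∈ D, p ≤ m) :
    ∃ f : ℤ → ℤ, (∀ u, 0 ≤ f u) ∧
      (∀ u, f (u + 1) + f (u - 1) - 2 * f u =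
        (if u ∈ Q then 1 else 0) - (c : ℤ) * (if u ∈ D then 1 else 0)) ∧
      (∀ u, (∀ p ∈ Q, p ≤ u) → f u = 0) := by
  classical
  obtain ⟨f, hf1, hf2, hf3⟩ := exists_profile (Q.image (fun x => -x)) (D.image (fun x => -x)) c (-m)
    (by rw [Finset.card_image_of_injective _ neg_injective,
      Finset.card_image_of_injective _ neg_injective, hcard])
    (by
      intro p hp
      obtain ⟨x, hx, rfl⟩ := Finset.mem_image.mp hp
      linarith [h1 x hx])
    (by
      intro p hp
      obtain ⟨x, hx, rfl⟩ := Finset.mem_image.mp hp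
      linarith [h2 x hx])
  refine ⟨fun u => f (-u), fun u => hf1 _, ?_, ?_⟩
  · intro u
    have h3 := hf2 (-u)
    have e1 : -(u + 1) = -u - 1 := by ring
    have e2 : -(u - 1) = -u + 1 := by ring
    simp only
    rw [e1, e2]
    have m1 : ∀ S : Finset ℤ, (-u ∈ S.image (fun x => -x)) ↔ u ∈ S := by
      intro S
      rw [Finset.mem_image]
      constructor
      · rintro ⟨x, hx, hx'⟩
        have : x = u := by linarith
        rwa [this] at hx
      · intro h
        exact ⟨u, h, rfl⟩
    simp only [m1] at h3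
    linarith
  · intro u hu
    apply hf3
    intro p hp
    obtain ⟨x, hx, rfl⟩ := Finset.mem_image.mp hp
    linarith [hu x hx]

/-- Choice of the planes. -/
theorem exists_planes (l r : ℤ) (n q k : ℕ) (hk : k ≤ q) (h1 : l + q ≤ r) (h2 : r < l + n) :
    ∃ T : Finset ℤ, T.card = k ∧ ∀ t ∈ T, l ≤ t ∧ t ≤ r ∧ ¬ (n : ℤ) ∣ t := by
  classical
  have hn0 : (0 : ℤ) < n := by
    have : (0 : ℤ) ≤ q := Int.natCast_nonneg q
    linarith
  let S : Finset ℤ := (Finset.Icc l r).filter (fun t => (n : ℤ) ∣ t)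
  have hS : S.card ≤ 1 := by
    rw [Finset.card_le_one]
    intro a ha b hb
    obtain ⟨ha1, ha2⟩ := Finset.mem_filter.mp ha
    obtain ⟨hb1, hb2⟩ := Finset.mem_filter.mp hb
    rw [Finset.mem_Icc] at ha1 hb1
    have h3 : (n : ℤ) ∣ a - b := dvd_sub ha2 hb2
    have h4 : a - b = 0 := by
      apply Int.eq_zero_of_abs_lt_dvd h3
      rw [abs_lt]
      constructor <;> linarith
    linarith
  have hcard : (Finset.Icc l r).card = (r + 1 - l).toNat := Int.card_Icc l r
  have h5 : q ≤ ((Finset.Icc l r).filter (fun t => ¬ (n : ℤ) ∣ t)).card := by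
    have h6 := Finset.card_filter_add_card_filter_not (s := Finset.Icc l r) (fun t => (n : ℤ) ∣ t)
    have h7 : S.card = ((Finset.Icc l r).filter (fun t => (n : ℤ) ∣ t)).card := rfl
    rw [← h7, hcard] at h6
    omega
  obtain ⟨T, hT, hTc⟩ := Finset.exists_subset_card_eq (hk.trans h5)
  refine ⟨T, hTc, ?_⟩
  intro t ht
  obtain ⟨h8, h9⟩ := Finset.mem_filter.mp (hT ht)
  rw [Finset.mem_Icc] at h8
  exact ⟨h8.1, h8.2, h9⟩

open Classical in
/-- The set of positions in the blocks of `E1`. -/
noncomputable def blk (N : ℕ) (E1 : Finset ℤ) : Finset ℤ :=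
  E1.biUnion (fun e => Finset.Ico ((N : ℤ) * e) (N * e + N))

theorem mem_blk {N : ℕ} (hN : 1 ≤ N) {E1 : Finset ℤ} {u : ℤ} :
    u ∈ blk N E1 ↔ u / (N : ℤ) ∈ E1 := by
  have h0 : (0 : ℤ) < N := by exact_mod_cast hN
  unfold blk
  rw [Finset.mem_biUnion]
  have key : ∀ e : ℤ, u ∈ Finset.Ico ((N : ℤ) * e) (N * e + N) ↔ u / (N : ℤ) = e := by
    intro e
    rw [Finset.mem_Ico, Int.ediv_eq_iff_of_pos h0]
    constructor
    · rintro ⟨h1, h2⟩
      constructor <;> linarith
    · rintro ⟨h1, h2⟩
      constructor <;> linarith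
  constructor
  · rintro ⟨e, he, hu⟩
    rw [(key e).mp hu]; exact he
  · intro h
    exact ⟨_, h, (key _).mpr rfl⟩

theorem card_blk (N : ℕ) (hN : 1 ≤ N) (E1 : Finset ℤ) : (blk N E1).card = N * E1.card := by
  have h0 : (0 : ℤ) < N := by exact_mod_cast hN
  unfold blk
  rw [Finset.card_biUnion]
  · simp [Nat.mul_comm]
  · intro a _ b _ hab
    rw [Function.onFun, Finset.disjoint_left]
    intro u hu hu'
    rw [Finset.mem_Ico] at hu hu'
    apply hab
    have h1 : a < b + 1 := by
      by_contra hcon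
      push Not at hcon
      have : (N : ℤ) * (b + 1) ≤ N * a := mul_le_mul_of_nonneg_left hcon h0.le
      linarith [hu.1, hu'.2]
    have h2 : b < a + 1 := by
      by_contra hcon
      push Not at hcon
      have : (N : ℤ) * (a + 1) ≤ N * b := mul_le_mul_of_nonneg_left hcon h0.le
      linarith [hu'.1, hu.2]
    omega

/-- M2. The wall around one core box `Icc a a'` with dirty blocks `E`, inside the zone
`Icc α β`. -/
theorem exists_wall (hd : 1 ≤ d) (N n c q : ℕ) (hN : 1 ≤ N) (a a' α β : Site d)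
    (E : Finset (Site d)) (hE : ∀ y ∈ E, y ∈ Set.Icc a a')
    (hq : c * N * E.card ≤ q) (hn : q + 3 ≤ n) (hab : ∀ i, a i ≤ a' i)
    (hα : ∀ i, α i = a i - (q + 2) ∨ α i = a i - (q + 3))
    (hβ : ∀ i, β i = a' i + (q + 2) ∨ β i = a' i + (q + 3)) :
    ∃ ψ : Site d → ℤ,
      (∀ v, 0 ≤ ψ v) ∧
      (∀ v, lap ψ v ≤ 1) ∧
      (∀ v, 0 < lap ψ v → ∃ i, (N : ℤ) ∣ v i ∧ ¬ ((N : ℤ) * n) ∣ v i) ∧
      (∀ v, coarse N v ∈ E → lap ψ v ≤ -(c : ℤ)) ∧
      (∀ v, coarse N v ∉ Set.Icc α β → lap ψ v ≤ 0 ∧ ψ v = 0) := by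
  classical
  have h0 : (0 : ℤ) < N := by exact_mod_cast hN
  have hnn : ((q : ℤ) + 3 ≤ n) := by exact_mod_cast hn
  -- the family of one dimensional profiles
  have prof : ∀ p : Fin d × Bool, ∃ f : ℤ → ℤ, (∀ u, 0 ≤ f u) ∧
      (∀ u, f (u + 1) + f (u - 1) - 2 * f u ≤ 1) ∧
      (∀ u, 0 < f (u + 1) + f (u - 1) - 2 * f u → (N : ℤ) ∣ u ∧ ¬ ((N : ℤ) * n) ∣ u) ∧
      (∀ u, u / (N : ℤ) ∈ E.image (fun y => y p.1) → f (u + 1) + f (u - 1) - 2 * f u ≤ -(c : ℤ)) ∧
      (∀ u, (if p.2 then u / (N : ℤ) < α p.1 else β p.1 < u / (N : ℤ)) →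
        f (u + 1) + f (u - 1) - 2 * f u ≤ 0 ∧ f u = 0) := by
    rintro ⟨i, s⟩
    simp only
    set E1 : Finset ℤ := E.image (fun y => y i) with hE1
    have hE1c : E1.card ≤ E.card := Finset.card_image_le
    have hk : c * (N * E1.card) ≤ q := by
      refine le_trans ?_ hq
      rw [mul_assoc]
      exact Nat.mul_le_mul_left _ (Nat.mul_le_mul_left _ hE1c)
    have hE1a : ∀ e ∈ E1, a i ≤ e ∧ e ≤ a' i := by
      intro e he
      obtain ⟨y, hy, rfl⟩ := Finset.mem_image.mp he
      exact mem_box.mp (hE y hy) i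
    have hDm : ∀ u, u ∈ blk N E1 ↔ u / (N : ℤ) ∈ E1 := fun u => mem_blk hN
    cases s with
    | true =>
      obtain ⟨T, hTc, hT⟩ := exists_planes (α i + 1) (a i - 1) n q _ hk
        (by rcases hα i with h | h <;> linarith) (by rcases hα i with h | h <;> linarith)
      have hinj : Function.Injective (fun t : ℤ => (N : ℤ) * t) := by
        intro x y hxy
        exact mul_left_cancel₀ (ne_of_gt h0) hxy
      obtain ⟨f, hf1, hf2, hf3⟩ := exists_profile (T.image (fun t => (N : ℤ) * t)) (blk N E1) c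
        ((N : ℤ) * a i) (by
          rw [Finset.card_image_of_injective _ hinj, hTc, card_blk N hN])
        (by
          intro p hp
          obtain ⟨t, ht, rfl⟩ := Finset.mem_image.mp hp
          have := (hT t ht).2.1
          exact mul_le_mul_of_nonneg_left (by linarith) h0.le)
        (by
          intro p hp
          rw [hDm] at hp
          have h1 := (hE1a _ hp).1
          have h2 := Int.mul_ediv_self_le (x := p) (k := N) (ne_of_gt h0)
          have h3 := mul_le_mul_of_nonneg_left h1 h0.le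
          linarith)
      have hdisj : ∀ u, u ∈ T.image (fun t => (N : ℤ) * t) → u / (N : ℤ) ∈ E1 → False := by
        intro u hu hu'
        obtain ⟨t, ht, rfl⟩ := Finset.mem_image.mp hu
        rw [Int.mul_ediv_cancel_left _ (ne_of_gt h0)] at hu'
        have := (hE1a _ hu').1
        have := (hT t ht).2.1
        linarith
      refine ⟨f, hf1, ?_, ?_, ?_, ?_⟩
      · intro u
        rw [hf2]
        have : (0 : ℤ) ≤ c := Int.natCast_nonneg c
        split_ifs <;> simp <;> linarith
      · intro u hu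
        rw [hf2] at hu
        have h3 : u ∈ T.image (fun t => (N : ℤ) * t) := by
          by_contra hcon
          rw [if_neg hcon] at hu
          have : (0 : ℤ) ≤ c := Int.natCast_nonneg c
          split_ifs at hu <;> simp at hu <;> linarith
        obtain ⟨t, ht, rfl⟩ := Finset.mem_image.mp h3
        refine ⟨dvd_mul_right _ _, ?_⟩
        intro h4
        exact (hT t ht).2.2 (Int.dvd_of_mul_dvd_mul_left (ne_of_gt h0) h4)
      · intro u hu
        rw [hf2, if_pos ((hDm u).mpr hu), if_neg (fun h => hdisj u h hu)]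
        simp
      · intro u hu
        simp only [if_true] at hu
        have h5 : u < N * α i := by
          have := (Int.ediv_lt_iff_lt_mul h0).mp hu
          linarith
        have h6 : ∀ w, w ≤ u + 1 → f w = 0 := by
          intro w hw
          apply hf3
          intro p hp
          obtain ⟨t, ht, rfl⟩ := Finset.mem_image.mp hp
          have h7 := (hT t ht).1
          have h8 : (N : ℤ) * α i ≤ N * t := mul_le_mul_of_nonneg_left (by linarith) h0.le
          linarith
        rw [h6 (u + 1) le_rfl, h6 u (by linarith), h6 (u - 1) (by linarith)]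
        simp
    | false =>
      obtain ⟨T, hTc, hT⟩ := exists_planes (a' i + 1) (β i) n q _ hk
        (by rcases hβ i with h | h <;> linarith) (by rcases hβ i with h | h <;> linarith)
      have hinj : Function.Injective (fun t : ℤ => (N : ℤ) * t) := by
        intro x y hxy
        exact mul_left_cancel₀ (ne_of_gt h0) hxy
      obtain ⟨f, hf1, hf2, hf3⟩ := exists_profile' (T.image (fun t => (N : ℤ) * t)) (blk N E1) c
        ((N : ℤ) * (a' i + 1)) (by
          rw [Finset.card_image_of_injective _ hinj, hTc, card_blk N hN])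
        (by
          intro p hp
          obtain ⟨t, ht, rfl⟩ := Finset.mem_image.mp hp
          have := (hT t ht).1
          exact mul_le_mul_of_nonneg_left (by linarith) h0.le)
        (by
          intro p hp
          rw [hDm] at hp
          have h1 := (hE1a _ hp).2
          have h2 := Int.lt_mul_ediv_self_add (x := p) h0
          have h3 := mul_le_mul_of_nonneg_left h1 h0.le
          linarith)
      have hdisj : ∀ u, u ∈ T.image (fun t => (N : ℤ) * t) → u / (N : ℤ) ∈ E1 → False := by
        intro u hu hu'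
        obtain ⟨t, ht, rfl⟩ := Finset.mem_image.mp hu
        rw [Int.mul_ediv_cancel_left _ (ne_of_gt h0)] at hu'
        have := (hE1a _ hu').2
        have := (hT t ht).1
        linarith
      refine ⟨f, hf1, ?_, ?_, ?_, ?_⟩
      · intro u
        rw [hf2]
        have : (0 : ℤ) ≤ c := Int.natCast_nonneg c
        split_ifs <;> simp <;> linarith
      · intro u hu
        rw [hf2] at hu
        have h3 : u ∈ T.image (fun t => (N : ℤ) * t) := by
          by_contra hcon
          rw [if_neg hcon] at hu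
          have : (0 : ℤ) ≤ c := Int.natCast_nonneg c
          split_ifs at hu <;> simp at hu <;> linarith
        obtain ⟨t, ht, rfl⟩ := Finset.mem_image.mp h3
        refine ⟨dvd_mul_right _ _, ?_⟩
        intro h4
        exact (hT t ht).2.2 (Int.dvd_of_mul_dvd_mul_left (ne_of_gt h0) h4)
      · intro u hu
        rw [hf2, if_pos ((hDm u).mpr hu), if_neg (fun h => hdisj u h hu)]
        simp
      · intro u hu
        simp only [Bool.false_eq_true, if_false] at hu
        have h5 : (N : ℤ) * (β i + 1) ≤ u := by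
          have h6 : β i + 1 ≤ u / (N : ℤ) := by linarith
          have h7 := mul_le_mul_of_nonneg_left h6 h0.le
          have h8 := Int.mul_ediv_self_le (x := u) (k := N) (ne_of_gt h0)
          linarith
        have h6 : ∀ w, u - 1 ≤ w → f w = 0 := by
          intro w hw
          apply hf3
          intro p hp
          obtain ⟨t, ht, rfl⟩ := Finset.mem_image.mp hp
          have h7 := (hT t ht).2.1
          have h8 : (N : ℤ) * t ≤ N * β i := mul_le_mul_of_nonneg_left (by linarith) h0.le
          linarith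
        rw [h6 (u + 1) (by linarith), h6 u (by linarith), h6 (u - 1) (by linarith)]
        simp
  choose F hF0 hF1 hF2 hF3 hF4 using prof
  have hne : (Finset.univ : Finset (Fin d × Bool)).Nonempty := ⟨(⟨0, hd⟩, true), Finset.mem_univ _⟩
  let ψ : Site d → ℤ := fun v => Finset.univ.inf' hne (fun p : Fin d × Bool => F p (v p.1))
  have hle : ∀ v p, ψ v ≤ F p (v p.1) := fun v p => Finset.inf'_le _ (Finset.mem_univ p)
  have hex : ∀ v, ∃ p, ψ v = F p (v p.1) := by
    intro v
    obtain ⟨p, -, hp⟩ := Finset.exists_mem_eq_inf' hne (fun p : Fin d × Bool => F p (v p.1))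
    exact ⟨p, hp⟩
  have hlap : ∀ v p, ψ v = F p (v p.1) →
      lap ψ v ≤ F p (v p.1 + 1) + F p (v p.1 - 1) - 2 * F p (v p.1) := by
    rintro v ⟨i, s⟩ hp
    unfold lap
    rw [← Finset.add_sum_erase Finset.univ _ (Finset.mem_univ i)]
    have h1 : ∑ j ∈ Finset.univ.erase i, (ψ (v + ee j) + ψ (v - ee j) - 2 * ψ v) ≤ 0 := by
      apply Finset.sum_nonpos
      intro j hj
      have hji : i ≠ j := (Finset.ne_of_mem_erase hj).symm
      have h2 := hle (v + ee j) (i, s)
      have h3 := hle (v - ee j) (i, s)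
      simp only [add_ee_apply, sub_ee_apply, if_neg hji] at h2 h3 hp
      linarith
    have h2 := hle (v + ee i) (i, s)
    have h3 := hle (v - ee i) (i, s)
    simp only [add_ee_apply, sub_ee_apply, if_true] at h2 h3 hp ⊢
    linarith
  refine ⟨ψ, ?_, ?_, ?_, ?_, ?_⟩
  · intro v
    obtain ⟨p, hp⟩ := hex v
    rw [hp]; exact hF0 p _
  · intro v
    obtain ⟨p, hp⟩ := hex v
    exact (hlap v p hp).trans (hF1 p _)
  · intro v hv
    obtain ⟨p, hp⟩ := hex v
    exact ⟨p.1, hF2 p _ (lt_of_lt_of_le hv (hlap v p hp))⟩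
  · intro v hv
    obtain ⟨p, hp⟩ := hex v
    exact (hlap v p hp).trans (hF3 p _ (Finset.mem_image.mpr ⟨_, hv, rfl⟩))
  · intro v hv
    rw [not_mem_box] at hv
    obtain ⟨i, hi⟩ := hv
    have key : ∀ p : Fin d × Bool, F p (v p.1 + 1) + F p (v p.1 - 1) - 2 * F p (v p.1) ≤ 0 ∧
        F p (v p.1) = 0 → lap ψ v ≤ 0 ∧ ψ v = 0 := by
      rintro p ⟨h1, h2⟩
      have h3 : ψ v = 0 := by
        apply le_antisymm
        · rw [← h2]; exact hle v p
        · obtain ⟨p', hp'⟩ := hex v
          rw [hp']; exact hF0 p' _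
      exact ⟨(hlap v p (by rw [h3, h2])).trans h1, h3⟩
    rcases hi with hi | hi
    · exact key (i, true) (hF4 (i, true) (v i) (by simpa [coarse] using hi))
    · exact key (i, false) (hF4 (i, false) (v i) (by simpa [coarse] using hi))

end Pool.Agent.Helper94.Sand
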