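import Pool.Agent.Helper94.Sand.Merge
import Pool.Agent.Helper94.Sand.Wall

namespace Pool.Agent.Helper94.Sand

variable {d : ℕ}

/-- A system of zones (boxes of blocks of side `N`) around a set `E` of dirty blocks, with
a barrier function `ψ`. -/
structure ZoneSys (d N n ρ c : ℕ) (E : Set (Site d)) where
  Z : Set (Site d × Site d)
  ψ : Site d → ℤ
  cover : ∀ y ∈ E, ∃ z ∈ Z, y ∈ Set.Icc z.1 z.2
  sep : ∀ z ∈ Z, ∀ z' ∈ Z, z ≠ z' → ∃ i, z.2 i + 5 ≤ z'.1 i ∨ z'.2 i + 5 ≤ z.1 i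
  small : ∀ z ∈ Z, ∀ i, z.2 i - z.1 i + 2 ≤ (ρ : ℤ)
  meets : ∀ z ∈ Z, ∃ y ∈ E, y ∈ Set.Icc z.1 z.2
  faceL : ∀ z ∈ Z, ∀ i, ¬ (n : ℤ) ∣ z.1 i - 1
  faceR : ∀ z ∈ Z, ∀ i, ¬ (n : ℤ) ∣ z.2 i + 1
  nonneg : ∀ v, 0 ≤ ψ v
  lap_le_one : ∀ v, lap ψ v ≤ 1
  lap_pos : ∀ v, 0 < lap ψ v → ∃ i, (N : ℤ) ∣ v i ∧ ¬ ((N : ℤ) * n) ∣ v i
  lap_dirty : ∀ v, coarse N v ∈ E → lap ψ v ≤ -(c : ℤ)
  lap_out : ∀ v, (∀ z ∈ Z, coarse N v ∉ Set.Icc z.1 z.2) → lap ψ v ≤ 0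
  supp : ∀ v, (∀ z ∈ Z, coarse N v ∉ Set.Icc z.1 z.2) → ψ v = 0

/-- Neighbouring sites lie in neighbouring blocks. -/
theorem coarse_nbr {N : ℕ} (hN : 1 ≤ N) (v w : Site d) (h : ∀ j, |w j - v j| ≤ 1) (j : Fin d) :
    |coarse N w j - coarse N v j| ≤ 1 := by
  have h0 : (0 : ℤ) < N := by exact_mod_cast hN
  have h1 : (1 : ℤ) ≤ N := by exact_mod_cast hN
  rw [coarse_apply, coarse_apply]
  have h2 := abs_le.mp (h j)
  have key : ∀ x y : ℤ, x ≤ y + 1 → x / (N : ℤ) ≤ y / (N : ℤ) + 1 := by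
    intro x y hxy
    have h3 : x / (N : ℤ) ≤ (y + 1 * (N : ℤ)) / (N : ℤ) :=
      Int.ediv_le_ediv h0 (by linarith)
    rwa [Int.add_mul_ediv_right _ _ (ne_of_gt h0)] at h3
  have h4 := key (w j) (v j) (by linarith [h2.2])
  have h5 := key (v j) (w j) (by linarith [h2.1])
  rw [abs_le]
  constructor <;> linarith

/-- M3. -/
theorem exists_zoneSys (hd : 1 ≤ d) (N n ρ b c : ℕ) (hN : 1 ≤ N) (hb : 1 ≤ b)
    (hρ : 2 * (2 * (c * N * b) + 11) * b ≤ ρ) (hn : ρ + 10 ≤ n) (E : Set (Site d))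
    (hsp : ∀ y ∈ E, (E ∩ Set.Icc (fun i => y i - (ρ : ℤ)) (fun i => y i + (ρ : ℤ))).ncard ≤ b) :
    Nonempty (ZoneSys d N n ρ c E) := by
  classical
  set q : ℕ := c * N * b with hqdef
  obtain ⟨K, hK1, hK2, hK3, hK4, hK5⟩ := exists_core_boxes E ρ b (2 * q + 11) hρ hsp
  have hgb : (2 * q + 11) * b ≤ ρ := by nlinarith
  have hg1 : 2 * q + 11 ≤ ρ := by nlinarith
  have hgb' : ((2 * q + 11 : ℕ) : ℤ) * b ≤ ρ := by exact_mod_cast hgb
  have hn' : (ρ : ℤ) + 10 ≤ n := by exact_mod_cast hn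
  have hg1' : 2 * (q : ℤ) + 11 ≤ ρ := by exact_mod_cast hg1
  have hq0 : (0 : ℤ) ≤ q := Int.natCast_nonneg q
  -- faces
  have hα : ∀ x : ℤ, ∃ y : ℤ, (y = x - (q + 2) ∨ y = x - (q + 3)) ∧ ¬ (n : ℤ) ∣ y - 1 := by
    intro x
    by_cases h : (n : ℤ) ∣ (x - (q + 2)) - 1
    · refine ⟨x - (q + 3), Or.inr rfl, ?_⟩
      intro h'
      have h1 : (n : ℤ) ∣ 1 := by
        have := dvd_sub h h'
        have e : x - (q + 2) - 1 - (x - (q + 3) - 1) = 1 := by ring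
        rwa [e] at this
      have := Int.le_of_dvd one_pos h1
      linarith
    · exact ⟨_, Or.inl rfl, h⟩
  have hβ : ∀ x : ℤ, ∃ y : ℤ, (y = x + (q + 2) ∨ y = x + (q + 3)) ∧ ¬ (n : ℤ) ∣ y + 1 := by
    intro x
    by_cases h : (n : ℤ) ∣ (x + (q + 2)) + 1
    · refine ⟨x + (q + 3), Or.inr rfl, ?_⟩
      intro h'
      have h1 : (n : ℤ) ∣ 1 := by
        have := dvd_sub h' h
        have e : x + (q + 3) + 1 - (x + (q + 2) + 1) = 1 := by ring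
        rwa [e] at this
      have := Int.le_of_dvd one_pos h1
      linarith
    · exact ⟨_, Or.inl rfl, h⟩
  choose lo hlo hlo' using hα
  choose hi hhi hhi' using hβ
  let zo : Site d × Site d → Site d × Site d := fun B => (fun i => lo (B.1 i), fun i => hi (B.2 i))
  -- the walls
  have hwall : ∀ B : Site d × Site d, B ∈ K → ∃ ψ : Site d → ℤ,
      (∀ v, 0 ≤ ψ v) ∧
      (∀ v, lap ψ v ≤ 1) ∧
      (∀ v, 0 < lap ψ v → ∃ i, (N : ℤ) ∣ v i ∧ ¬ ((N : ℤ) * n) ∣ v i) ∧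
      (∀ v, coarse N v ∈ E ∩ Set.Icc B.1 B.2 → lap ψ v ≤ -(c : ℤ)) ∧
      (∀ v, coarse N v ∉ Set.Icc (zo B).1 (zo B).2 → lap ψ v ≤ 0 ∧ ψ v = 0) := by
    intro B hB
    have hfin : (E ∩ Set.Icc B.1 B.2).Finite := Set.Finite.inter_of_right (Set.finite_Icc _ _) _
    obtain ⟨ψ, h1, h2, h3, h4, h5⟩ := exists_wall hd N n c q hN B.1 B.2 (zo B).1 (zo B).2
      hfin.toFinset (by
        intro y hy
        rw [Set.Finite.mem_toFinset] at hy
        exact hy.2)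
      (by
        have h6 := hK5 B hB
        rw [Set.ncard_eq_toFinset_card _ hfin] at h6
        exact Nat.mul_le_mul_left _ h6)
      (by omega) (fun i => (hK3 B hB i).1) (fun i => hlo _) (fun i => hhi _)
    refine ⟨ψ, h1, h2, h3, ?_, h5⟩
    intro v hv
    apply h4
    rw [Set.Finite.mem_toFinset]
    exact hv
  choose! Ψ hΨ0 hΨ1 hΨ2 hΨ3 hΨ4 using hwall
  -- bounds for the faces
  have hloB : ∀ B : Site d × Site d, ∀ i, B.1 i - (q + 3) ≤ (zo B).1 i ∧ (zo B).1 i ≤ B.1 i - (q + 2) := by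
    intro B i
    rcases hlo (B.1 i) with h | h <;> simp only [zo, h] <;> constructor <;> linarith
  have hhiB : ∀ B : Site d × Site d, ∀ i, (zo B).2 i ≤ B.2 i + (q + 3) ∧ B.2 i + (q + 2) ≤ (zo B).2 i := by
    intro B i
    rcases hhi (B.2 i) with h | h <;> simp only [zo, h] <;> constructor <;> linarith
  -- separation
  have hsep : ∀ B ∈ K, ∀ B' ∈ K, B ≠ B' →
      ∃ i, (zo B).2 i + 5 ≤ (zo B').1 i ∨ (zo B').2 i + 5 ≤ (zo B).1 i := by
    intro B hB B' hB' hne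
    obtain ⟨i, hi⟩ := hK2 B hB B' hB' hne
    push_cast at hi
    refine ⟨i, ?_⟩
    rcases hi with hi | hi
    · left
      linarith [(hhiB B i).1, (hloB B' i).1]
    · right
      linarith [(hhiB B' i).1, (hloB B i).1]
  have huniq : ∀ B ∈ K, ∀ B' ∈ K, ∀ x x' : Site d, x ∈ Set.Icc (zo B).1 (zo B).2 →
      x' ∈ Set.Icc (zo B').1 (zo B').2 → (∀ i, |x' i - x i| ≤ 1) → B = B' := by
    intro B hB B' hB' x x' hx hx' hxx
    by_contra hne
    obtain ⟨i, hi⟩ := hsep B hB B' hB' hne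
    rw [mem_box] at hx hx'
    have h1 := hx i
    have h2 := hx' i
    have h3 := abs_le.mp (hxx i)
    rcases hi with hi | hi
    · linarith [h1.1, h1.2, h2.1, h2.2, h3.1, h3.2]
    · linarith [h1.1, h1.2, h2.1, h2.2, h3.1, h3.2]
  -- cores lie in the zones
  have hcore : ∀ B : Site d × Site d, Set.Icc B.1 B.2 ⊆ Set.Icc (zo B).1 (zo B).2 := by
    intro B x hx
    rw [mem_box] at hx ⊢
    intro i
    have := hx i
    constructor <;> linarith [(hhiB B i).2, (hloB B i).2, this.1, this.2]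
  -- the barrier
  let ψ : Site d → ℤ := fun v =>
    if h : ∃ B, B ∈ K ∧ coarse N v ∈ Set.Icc (zo B).1 (zo B).2 then Ψ h.choose v else 0
  have hψin : ∀ B ∈ K, ∀ v, coarse N v ∈ Set.Icc (zo B).1 (zo B).2 → ψ v = Ψ B v := by
    intro B hB v hv
    have h : ∃ B, B ∈ K ∧ coarse N v ∈ Set.Icc (zo B).1 (zo B).2 := ⟨B, hB, hv⟩
    simp only [ψ, dif_pos h]
    have h1 := h.choose_spec
    rw [huniq _ h1.1 B hB _ _ h1.2 hv (fun i => by simp)]
  have hψout : ∀ v, (∀ B ∈ K, coarse N v ∉ Set.Icc (zo B).1 (zo B).2) → ψ v = 0 := by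
    intro v hv
    have h : ¬ ∃ B, B ∈ K ∧ coarse N v ∈ Set.Icc (zo B).1 (zo B).2 := by
      rintro ⟨B, hB, hB'⟩
      exact hv B hB hB'
    simp only [ψ, dif_neg h]
  have hψ0 : ∀ v, 0 ≤ ψ v := by
    intro v
    by_cases h : ∃ B, B ∈ K ∧ coarse N v ∈ Set.Icc (zo B).1 (zo B).2
    · obtain ⟨B, hB, hv⟩ := h
      rw [hψin B hB v hv]
      exact hΨ0 B hB v
    · rw [hψout v (fun B hB hv => h ⟨B, hB, hv⟩)]
  -- neighbours
  have hnb1 : ∀ (v : Site d) (i j : Fin d), |(v + ee i) j - v j| ≤ 1 := by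
    intro v i j
    rw [add_ee_apply]
    split_ifs <;> simp
  have hnb2 : ∀ (v : Site d) (i j : Fin d), |(v - ee i) j - v j| ≤ 1 := by
    intro v i j
    rw [sub_ee_apply]
    split_ifs <;> simp
  -- near a zone
  have hψnear : ∀ B ∈ K, ∀ v w : Site d, coarse N v ∈ Set.Icc (zo B).1 (zo B).2 →
      (∀ j, |w j - v j| ≤ 1) → ψ w = Ψ B w := by
    intro B hB v w hv hvw
    by_cases h : coarse N w ∈ Set.Icc (zo B).1 (zo B).2
    · exact hψin B hB w h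
    · rw [(hΨ4 B hB w h).2]
      apply hψout
      intro B' hB' hw
      apply h
      rw [huniq B hB B' hB' _ _ hv hw (coarse_nbr hN v w hvw)]
      exact hw
  have hlapin : ∀ B ∈ K, ∀ v, coarse N v ∈ Set.Icc (zo B).1 (zo B).2 →
      lap ψ v = lap (Ψ B) v := by
    intro B hB v hv
    unfold lap
    apply Finset.sum_congr rfl
    intro i _
    rw [hψnear B hB v _ hv (hnb1 v i), hψnear B hB v _ hv (hnb2 v i), hψin B hB v hv]
  -- outside the zones the barrier vanishes also at the neighbours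
  have hzero : ∀ B ∈ K, ∀ v, coarse N v ∉ Set.Icc (zo B).1 (zo B).2 →
      ∀ i, Ψ B (v + ee i) = 0 ∧ Ψ B (v - ee i) = 0 := by
    intro B hB v hv i
    obtain ⟨h1, h2⟩ := hΨ4 B hB v hv
    unfold lap at h1
    rw [h2] at h1
    have h3 : ∀ j ∈ Finset.univ, 0 ≤ Ψ B (v + ee j) + Ψ B (v - ee j) - 2 * 0 := by
      intro j _
      have := hΨ0 B hB (v + ee j)
      have := hΨ0 B hB (v - ee j)
      linarith
    have h4 := (Finset.sum_eq_zero_iff_of_nonneg h3).mp (le_antisymm h1 (Finset.sum_nonneg h3)) i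
      (Finset.mem_univ i)
    have h5 := hΨ0 B hB (v + ee i)
    have h6 := hΨ0 B hB (v - ee i)
    constructor <;> linarith
  have hlapout : ∀ v, (∀ B ∈ K, coarse N v ∉ Set.Icc (zo B).1 (zo B).2) → lap ψ v = 0 := by
    intro v hv
    have h1 : ∀ i, ψ (v + ee i) = 0 ∧ ψ (v - ee i) = 0 := by
      intro i
      constructor
      · by_cases h : ∃ B, B ∈ K ∧ coarse N (v + ee i) ∈ Set.Icc (zo B).1 (zo B).2
        · obtain ⟨B, hB, hw⟩ := h
          rw [hψin B hB _ hw]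
          exact (hzero B hB v (hv B hB) i).1
        · exact hψout _ (fun B hB hw => h ⟨B, hB, hw⟩)
      · by_cases h : ∃ B, B ∈ K ∧ coarse N (v - ee i) ∈ Set.Icc (zo B).1 (zo B).2
        · obtain ⟨B, hB, hw⟩ := h
          rw [hψin B hB _ hw]
          exact (hzero B hB v (hv B hB) i).2
        · exact hψout _ (fun B hB hw => h ⟨B, hB, hw⟩)
    unfold lap
    apply Finset.sum_eq_zero
    intro i _
    rw [(h1 i).1, (h1 i).2, hψout v hv]
    simp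
  refine ⟨{ Z := zo '' K, ψ := ψ, cover := ?_, sep := ?_, small := ?_, meets := ?_, faceL := ?_,
            faceR := ?_, nonneg := hψ0, lap_le_one := ?_, lap_pos := ?_, lap_dirty := ?_,
            lap_out := ?_, supp := ?_ }⟩
  · intro y hy
    obtain ⟨B, hB, hyB⟩ := hK1 y hy
    exact ⟨zo B, ⟨B, hB, rfl⟩, hcore B hyB⟩
  · rintro _ ⟨B, hB, rfl⟩ _ ⟨B', hB', rfl⟩ hne
    exact hsep B hB B' hB' (fun h => hne (by rw [h]))
  · rintro _ ⟨B, hB, rfl⟩ i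
    have h1 := (hK3 B hB i).2
    push_cast at h1 hgb'
    linarith [(hhiB B i).1, (hloB B i).1]
  · rintro _ ⟨B, hB, rfl⟩
    obtain ⟨y, hy, hyB⟩ := hK4 B hB
    exact ⟨y, hy, hcore B hyB⟩
  · rintro _ ⟨B, hB, rfl⟩ i
    exact hlo' _
  · rintro _ ⟨B, hB, rfl⟩ i
    exact hhi' _
  · intro v
    by_cases h : ∃ B, B ∈ K ∧ coarse N v ∈ Set.Icc (zo B).1 (zo B).2
    · obtain ⟨B, hB, hv⟩ := h
      rw [hlapin B hB v hv]
      exact hΨ1 B hB v
    · rw [hlapout v (fun B hB hv => h ⟨B, hB, hv⟩)]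
      exact zero_le_one
  · intro v hv0
    by_cases h : ∃ B, B ∈ K ∧ coarse N v ∈ Set.Icc (zo B).1 (zo B).2
    · obtain ⟨B, hB, hv⟩ := h
      rw [hlapin B hB v hv] at hv0
      exact hΨ2 B hB v hv0
    · rw [hlapout v (fun B hB hv => h ⟨B, hB, hv⟩)] at hv0
      exact absurd hv0 (lt_irrefl _)
  · intro v hv
    obtain ⟨B, hB, hvB⟩ := hK1 _ hv
    rw [hlapin B hB v (hcore B hvB)]
    exact hΨ3 B hB v ⟨hv, hvB⟩
  · intro v hv
    exact le_of_eq (hlapout v (fun B hB => hv (zo B) ⟨B, hB, rfl⟩))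
  · intro v hv
    exact hψout v (fun B hB => hv (zo B) ⟨B, hB, rfl⟩)

end Pool.Agent.Helper94.Sand
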